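import Pool.Agent.Q295.PCR.Stmts

set_option autoImplicit false

namespace Pool.Agent.Q295.PCR

open MeasureTheory Set Filter ProbabilityTheory Topology
open scoped ENNReal NNReal

theorem final (hPar : TaskPar) (hIoo : TaskIoo) (hLim : TaskLimLaw) (hCost : TaskCost)
    (hAvg : TaskAvg) (hM : TaskXLMeas) (hSpace : TaskSpace) (q : ℝ) (hq1 : 1 / 2 ≤ q) (hq2 : q < 1) :
    ∃ X : Measure ℝ → ℝ → ℝ,
      (∀ P : Measure ℝ, IsProbabilityMeasure P → Measurable (X P) ∧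
        Measure.map (X P) (volume.restrict (Icc (0 : ℝ) 1)) = P) ∧
      ∀ P Q : Measure ℝ, IsProbabilityMeasure P → IsProbabilityMeasure Q → ∀ γ : Measure (ℝ × ℝ),
        γ.map Prod.fst = P → γ.map Prod.snd = Q →
        ∫⁻ ω in Icc (0 : ℝ) 1, ENNReal.ofReal (|X P ω - X Q ω| ^ q) ≤
          50000 * ∫⁻ z, ENNReal.ofReal (|z.1 - z.2| ^ q) ∂γ := by
  classical
  obtain ⟨L, hL⟩ := hPar q hq1 hq2
  obtain ⟨f, hf, hfm⟩ := hSpace
  have hM' : ∀ P : Measure ℝ, ∃ F : ℝ × (ℕ → ℝ) → ℝ, IsProbabilityMeasure P →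
      (Measurable F ∧ ∀ τ u, (∀ n, u n ∈ Ioo (0 : ℝ) 1) → F (τ, u) = XL L P τ u) := by
    intro P
    by_cases hP : IsProbabilityMeasure P
    · obtain ⟨F, h1, h2⟩ := hM L P
      exact ⟨F, fun _ => ⟨h1, h2⟩⟩
    · exact ⟨fun _ => 0, fun h => absurd h hP⟩
  choose F hF using hM'
  have hunif : (volume.restrict (Icc (0 : ℝ) 1) : Measure ℝ) = unif := rfl
  refine ⟨fun P ω => F P (f ω), ?_, ?_⟩
  · intro P hP
    obtain ⟨hFm, hFe⟩ := hF P hP
    refine ⟨hFm.comp hf, ?_⟩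
    rw [hunif]
    have h1 : Measure.map (fun ω => F P (f ω)) unif = Measure.map (F P) (unif.prod UU) := by
      rw [← hfm, Measure.map_map hFm hf]
      rfl
    rw [h1]
    ext A hA
    rw [Measure.map_apply hFm hA, Measure.prod_apply (hFm hA)]
    have h2 : ∀ τ : ℝ, UU (Prod.mk τ ⁻¹' (F P ⁻¹' A)) = P A := by
      intro τ
      rw [← hLim L P τ hL.l3 A hA]
      apply measure_congr
      filter_upwards [hIoo] with u hu
      apply propext
      show F P (τ, u) ∈ A ↔ XL L P τ u ∈ A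
      rw [hFe τ u hu]
    simp [h2]
  · intro P Q hP hQ γ h1 h2
    obtain ⟨hFm, hFe⟩ := hF P hP
    obtain ⟨hGm, hGe⟩ := hF Q hQ
    have hγ : IsProbabilityMeasure γ := by
      constructor
      have : (γ.map Prod.fst) univ = 1 := by rw [h1]; exact measure_univ
      rwa [Measure.map_apply measurable_fst MeasurableSet.univ, preimage_univ] at this
    have hmeas : Measurable fun z : ℝ × (ℕ → ℝ) => ENNReal.ofReal (|F P z - F Q z| ^ q) := by
      have h3 : Measurable fun z : ℝ × (ℕ → ℝ) => |F P z - F Q z| := (hFm.sub hGm).abs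
      exact (h3.pow_const q).ennreal_ofReal
    rw [hunif]
    calc ∫⁻ ω, ENNReal.ofReal (|F P (f ω) - F Q (f ω)| ^ q) ∂unif
        = ∫⁻ z, ENNReal.ofReal (|F P z - F Q z| ^ q) ∂(unif.prod UU) := by
          rw [← hfm, lintegral_map hmeas hf]
      _ = ∫⁻ τ, ∫⁻ u, ENNReal.ofReal (|F P (τ, u) - F Q (τ, u)| ^ q) ∂UU ∂unif :=
          lintegral_prod _ hmeas.aemeasurable
      _ = ∫⁻ τ, ∫⁻ u, ENNReal.ofReal (|XL L P τ u - XL L Q τ u| ^ q) ∂UU ∂unif := by
          apply lintegral_congr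
          intro τ
          apply lintegral_congr_ae
          filter_upwards [hIoo] with u hu
          rw [hFe τ u hu, hGe τ u hu]
      _ ≤ ∫⁻ τ, ∫⁻ z, (ENNReal.ofReal |gg q τ z.1 - gg q τ z.2| +
            2 * ∑' i : ℕ, lev q L i τ z.1 z.2) ∂γ ∂unif := by
          apply lintegral_mono
          intro τ
          exact hCost q L P Q τ γ hL h1 h2
      _ ≤ 50000 * ∫⁻ z, ENNReal.ofReal (|z.1 - z.2| ^ q) ∂γ := hAvg q L γ hL

end Pool.Agent.Q295.PCR
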