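import Pool.Agent.Q295.PCR.Stmts

set_option autoImplicit false

namespace Pool.Agent.Q295.PCR.TaskAvgP

open MeasureTheory Set Filter ProbabilityTheory Topology Pool.Agent.Q295.PCR
open scoped ENNReal

theorem main (hMeas : TaskMeas) (hG : TaskTauG) (hT : TaskTau) :
    Pool.Agent.Q295.PCR.TaskAvg := by
  classical
  intro q L γ _ hP
  obtain ⟨-, -, -, hms, hhh, hgg, hSame⟩ := hMeas
  -- the functions on `ℝ × (ℝ × ℝ)`
  have p1 : Measurable fun w : ℝ × (ℝ × ℝ) => ((w.1, w.2.1) : ℝ × ℝ) :=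
    measurable_fst.prodMk (measurable_fst.comp measurable_snd)
  have p2 : Measurable fun w : ℝ × (ℝ × ℝ) => ((w.1, w.2.2) : ℝ × ℝ) :=
    measurable_fst.prodMk (measurable_snd.comp measurable_snd)
  have g1 : Measurable fun w : ℝ × (ℝ × ℝ) => gg q w.1 w.2.1 := (hgg q).comp p1
  have g2 : Measurable fun w : ℝ × (ℝ × ℝ) => gg q w.1 w.2.2 := (hgg q).comp p2
  have hA : Measurable fun w : ℝ × (ℝ × ℝ) =>
      ENNReal.ofReal |gg q w.1 w.2.1 - gg q w.1 w.2.2| :=
    ENNReal.measurable_ofReal.comp (g1.sub g2).abs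
  have hlev : ∀ i, Measurable fun w : ℝ × (ℝ × ℝ) => lev q L i w.1 w.2.1 w.2.2 := by
    intro i
    have m1 : Measurable fun w : ℝ × (ℝ × ℝ) => ms L i w.1 w.2.1 := (hms L i).comp p1
    have m2 : Measurable fun w : ℝ × (ℝ × ℝ) => ms L i w.1 w.2.2 := (hms L i).comp p2
    have n1 : Measurable fun w : ℝ × (ℝ × ℝ) => hh q L (i + 1) w.1 w.2.1 :=
      (hhh q L (i + 1)).comp p1
    have n2 : Measurable fun w : ℝ × (ℝ × ℝ) => hh q L (i + 1) w.1 w.2.2 :=
      (hhh q L (i + 1)).comp p2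
    unfold lev
    refine Measurable.ite (hSame L i) (ENNReal.measurable_ofReal.comp (n1.sub n2).abs) ?_
    exact (ENNReal.measurable_ofReal.comp
      ((m1.pow_const q).add (m2.pow_const q))).const_mul 8
  have hB : Measurable fun w : ℝ × (ℝ × ℝ) => ∑' i : ℕ, lev q L i w.1 w.2.1 w.2.2 :=
    Measurable.ennreal_tsum hlev
  have hF : Measurable (Function.uncurry fun (τ : ℝ) (z : ℝ × ℝ) =>
      (ENNReal.ofReal |gg q τ z.1 - gg q τ z.2| + 2 * ∑' i : ℕ, lev q L i τ z.1 z.2)) :=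
    hA.add (hB.const_mul 2)
  rw [lintegral_lintegral_swap hF.aemeasurable]
  rw [← lintegral_const_mul' _ _ (by norm_num)]
  refine lintegral_mono fun z => ?_
  have sA : Measurable fun τ : ℝ => ENNReal.ofReal |gg q τ z.1 - gg q τ z.2| :=
    hA.comp (measurable_id.prodMk measurable_const)
  have sB : Measurable fun τ : ℝ => ∑' i : ℕ, lev q L i τ z.1 z.2 :=
    hB.comp (measurable_id.prodMk measurable_const)
  rw [lintegral_add_left sA, lintegral_const_mul _ sB]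
  have h1 := hG q z.1 z.2 hP.q1 hP.q2
  have h2 := hT q L z.1 z.2 hP
  calc (∫⁻ τ, ENNReal.ofReal |gg q τ z.1 - gg q τ z.2| ∂unif) +
        2 * ∫⁻ τ, (∑' i : ℕ, lev q L i τ z.1 z.2) ∂unif
      ≤ 12 * ENNReal.ofReal (|z.1 - z.2| ^ q) +
        2 * (20000 * ENNReal.ofReal (|z.1 - z.2| ^ q)) := by gcongr
    _ = 40012 * ENNReal.ofReal (|z.1 - z.2| ^ q) := by ring
    _ ≤ 50000 * ENNReal.ofReal (|z.1 - z.2| ^ q) := by gcongr; norm_num

end Pool.Agent.Q295.PCR.TaskAvgP
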