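import Pool.Agent.Q295.PCR.Stmts

set_option autoImplicit false

namespace Pool.Agent.Q295.PCR.TaskBsP

open MeasureTheory Set Filter Topology

open Pool.Agent.Q295.PCR

private lemma int_exp (c d a b : ℝ) (hc : c ≠ 0) :
    ∫ t in a..b, Real.exp (c * (d + t)) = (Real.exp (c * (d + b)) - Real.exp (c * (d + a))) / c := by
  have h1 : ∀ t ∈ uIcc a b, HasDerivAt (fun t => Real.exp (c * (d + t)) / c)
      (Real.exp (c * (d + t))) t := by
    intro t _
    have h2 : HasDerivAt (fun t : ℝ => c * (d + t)) c t := by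
      simpa using ((hasDerivAt_id t).const_add d).const_mul c
    have h3 := h2.exp.div_const c
    rwa [mul_div_assoc, div_self hc, mul_one] at h3
  rw [intervalIntegral.integral_eq_sub_of_hasDerivAt h1
    ((by fun_prop : Continuous fun t : ℝ => Real.exp (c * (d + t))).intervalIntegrable _ _)]
  ring

theorem main : Pool.Agent.Q295.PCR.TaskBs := by
  intro q x hq hx
  have hl2 : 0 < Real.log 2 := Real.log_pos one_lt_two
  set c : ℝ := q * Real.log 2 with hc
  have hc0 : c ≠ 0 := (mul_pos hq hl2).ne'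
  have hax : 0 < |x| := abs_pos.2 hx
  set s : ℝ := Real.logb 2 |x| with hs
  have hcs : c * s = q * Real.log |x| := by
    rw [hs, hc, Real.logb]
    field_simp
  have hbs : ∀ τ : ℝ, (bs τ x) ^ q = Real.exp (c * ((⌊s - τ⌋ : ℝ) + τ)) := by
    intro τ
    unfold bs jj
    rw [← Real.rpow_mul two_pos.le, Real.rpow_def_of_pos two_pos]
    congr 1
    rw [hc]
    ring
  simp only [hbs]
  set m : ℤ := ⌊s⌋ with hm
  have hm1 : (m : ℝ) ≤ s := Int.floor_le s
  have hm2 : s < m + 1 := Int.lt_floor_add_one s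
  have hf0 : 0 ≤ s - m := by linarith
  have hf1 : s - m ≤ 1 := by linarith
  have e1 : ∀ τ ∈ uIoc 0 (s - m), Real.exp (c * ((m : ℝ) + τ)) = Real.exp (c * ((⌊s - τ⌋ : ℝ) + τ)) := by
    intro τ hτ
    rw [uIoc_of_le hf0] at hτ
    have h1 : ⌊s - τ⌋ = m := by
      rw [Int.floor_eq_iff]
      constructor
      · linarith [hτ.2]
      · linarith [hτ.1]
    rw [h1]
  have e2 : ∀ τ ∈ uIoc (s - m) 1, Real.exp (c * (((m : ℝ) - 1) + τ)) =
      Real.exp (c * ((⌊s - τ⌋ : ℝ) + τ)) := by
    intro τ hτ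
    rw [uIoc_of_le hf1] at hτ
    have h1 : ⌊s - τ⌋ = m - 1 := by
      rw [Int.floor_eq_iff]
      push_cast
      constructor
      · linarith [hτ.2]
      · linarith [hτ.1]
    rw [h1]
    push_cast
    rfl
  have i1 : IntervalIntegrable (fun τ : ℝ => Real.exp (c * ((⌊s - τ⌋ : ℝ) + τ))) volume 0 (s - m) := by
    refine IntervalIntegrable.congr_ae (f := fun τ : ℝ => Real.exp (c * ((m : ℝ) + τ))) ?_ ?_
    · exact (by fun_prop : Continuous fun τ : ℝ => Real.exp (c * ((m : ℝ) + τ))).intervalIntegrable _ _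
    · exact (ae_restrict_iff' measurableSet_uIoc).2 (Eventually.of_forall e1)
  have i2 : IntervalIntegrable (fun τ : ℝ => Real.exp (c * ((⌊s - τ⌋ : ℝ) + τ))) volume (s - m) 1 := by
    refine IntervalIntegrable.congr_ae (f := fun τ : ℝ => Real.exp (c * (((m : ℝ) - 1) + τ))) ?_ ?_
    · exact (by fun_prop : Continuous fun τ : ℝ =>
        Real.exp (c * (((m : ℝ) - 1) + τ))).intervalIntegrable _ _
    · exact (ae_restrict_iff' measurableSet_uIoc).2 (Eventually.of_forall e2)
  rw [← intervalIntegral.integral_add_adjacent_intervals i1 i2]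
  rw [← intervalIntegral.integral_congr_ae (Eventually.of_forall e1),
    ← intervalIntegral.integral_congr_ae (Eventually.of_forall e2), int_exp c _ _ _ hc0,
    int_exp c _ _ _ hc0]
  have h1 : |x| ^ q = Real.exp (c * s) := by
    rw [hcs, Real.rpow_def_of_pos hax, mul_comm]
  have h2 : (2 : ℝ) ^ (-q) = Real.exp (-c) := by
    rw [Real.rpow_def_of_pos two_pos, hc]
    congr 1
    ring
  rw [h1, h2, mul_sub, mul_one, ← Real.exp_add]
  have h3 : (m : ℝ) + (s - m) = s := by ring
  have h4 : (m : ℝ) - 1 + 1 = (m : ℝ) + 0 := by ring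
  have h5 : c * ((m : ℝ) - 1 + (s - m)) = c * s + -c := by ring
  rw [h3, h4, h5]
  ring

end Pool.Agent.Q295.PCR.TaskBsP
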