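import Mathlib

/-! Blueprint for MP_ee92c9_pr Q1 (YES): for `1/2 ≤ q < 1` there is a coupling of all laws on the line with
pairwise coupling ratio at most an absolute constant for the cost `|x-y|^q`.

Shells: `2^(j+τ) ≤ |x| < 2^(j+1+τ)`, `τ` uniform; the shell is cut in `L^i` cells of equal length at the level
`i`; `L^(1-q)` between `2` and `4`. `X 0` = quantile of `P` at `u 0`; `X (i+1)` = quantile at `u (i+1)` of `P`
conditioned on the cell (level `i`) of `X i`. -/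

set_option autoImplicit false

namespace Pool.Agent.Q295.PCR

open MeasureTheory Set Filter ProbabilityTheory Topology
open scoped ENNReal

noncomputable section

/-- uniform law -/
def unif : Measure ℝ := volume.restrict (Icc 0 1)

instance : IsProbabilityMeasure unif := ⟨by simp [unif]⟩

/-- quantile function -/
def Qf (μ : Measure ℝ) (u : ℝ) : ℝ := sInf {x | u ≤ μ.real (Iic x)}

/-- index of the shell -/
def jj (τ x : ℝ) : ℤ := ⌊Real.logb 2 |x| - τ⌋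

/-- the lower end of the shell -/
def bs (τ x : ℝ) : ℝ := (2 : ℝ) ^ ((jj τ x : ℝ) + τ)

/-- number of the cell -/
def kk (L i : ℕ) (τ x : ℝ) : ℤ := ⌊|x| / bs τ x * (L : ℝ) ^ i⌋

/-- `x` and `y` are in the same cell of level `i` -/
def Same (L i : ℕ) (τ x y : ℝ) : Prop :=
  SignType.sign x = SignType.sign y ∧ (x ≠ 0 → jj τ x = jj τ y ∧ kk L i τ x = kk L i τ y)

/-- the cell of `x` -/
def cell (L i : ℕ) (τ x : ℝ) : Set ℝ := {y | Same L i τ x y}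

/-- the length of the cell (`0` for `x = 0`) -/
def ms (L i : ℕ) (τ x : ℝ) : ℝ := if x = 0 then 0 else bs τ x / (L : ℝ) ^ i

/-- the function counting the cells of level `i`, with weight -/
def hh (q : ℝ) (L i : ℕ) (τ x : ℝ) : ℝ := (SignType.sign x : ℝ) * (ms L i τ x) ^ q * kk L i τ x

/-- the same for the shells: `|x'-y'|^q ≤ |gg x - gg y|` if `x'`, `x` and `y'`, `y` are in different shells -/
def gg (q : ℝ) (τ x : ℝ) : ℝ := if x = 0 then 0 else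
  (SignType.sign x : ℝ) * ((2 : ℝ) ^ q / (1 - (2 : ℝ) ^ (-q))) * (bs τ x) ^ q

/-- the approximations -/
def XX (L : ℕ) (P : Measure ℝ) (τ : ℝ) (u : ℕ → ℝ) : ℕ → ℝ
  | 0 => Qf P (u 0)
  | i + 1 => Qf (cond P (cell L i τ (XX L P τ u i))) (u (i + 1))

/-- the law of `u` -/
def UU : Measure (ℕ → ℝ) := Measure.infinitePi (fun _ : ℕ => unif)

instance : IsProbabilityMeasure UU := by unfold UU; infer_instance

/-- the limit -/
def XL (L : ℕ) (P : Measure ℝ) (τ : ℝ) (u : ℕ → ℝ) : ℝ := limsup (fun i => XX L P τ u i) atTop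

/-- the admissible parameters -/
structure Par (q : ℝ) (L : ℕ) : Prop where
  q1 : 1 / 2 ≤ q
  q2 : q < 1
  l1 : 2 ≤ (L : ℝ) ^ (1 - q)
  l2 : (L : ℝ) ^ (1 - q) ≤ 4
  l3 : 4 ≤ L

/-- `L = ⌈2^(1/(1-q))⌉`, note `2^(1/(1-q)) ≥ 4` and `⌈x⌉ ≤ 2 x`, `2^(1-q) ≤ 2` -/
def TaskPar : Prop := ∀ q : ℝ, 1 / 2 ≤ q → q < 1 → ∃ L : ℕ, Par q L

/-! ### quantiles -/

def TaskQf : Prop := ∀ (μ : Measure ℝ) [IsProbabilityMeasure μ],
  (∀ u ∈ Ioo (0 : ℝ) 1, ∀ x, Qf μ u ≤ x ↔ u ≤ μ.real (Iic x)) ∧ Measurable (Qf μ) ∧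
  Measure.map (Qf μ) unif = μ

/-- upper sets are `∅`, `univ`, `Ici x` or `Ioi x`; for `u ∈ (0,1)` the set of the `u` with `Qf μ u ∈ U` is
`(1 - μ U, 1)` up to one point -/
def TaskPair : Prop := ∀ (μ ν : Measure ℝ) [IsProbabilityMeasure μ] [IsProbabilityMeasure ν]
  (U : Set ℝ), IsUpperSet U →
  unif {u | ¬ (Qf μ u ∈ U ↔ Qf ν u ∈ U)} ≤ ENNReal.ofReal |μ.real U - ν.real U|

/-- layer cake `|a - b| = ∫ |1_(t < a) - 1_(t < b)| dt`, Tonelli and `TaskPair` for `U = {g > t}` -/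
def TaskW1 : Prop := ∀ (μ ν : Measure ℝ) [IsProbabilityMeasure μ]
  [IsProbabilityMeasure ν] (g : ℝ → ℝ) (γ : Measure (ℝ × ℝ)), Monotone g →
  γ.map Prod.fst = μ → γ.map Prod.snd = ν →
  ∫⁻ u, ENNReal.ofReal |g (Qf μ u) - g (Qf ν u)| ∂unif ≤ ∫⁻ z, ENNReal.ofReal |g z.1 - g z.2| ∂γ

/-- the same for conditional laws: layer cake, `TaskPair` for the conditional laws, and
`min p r |a / p - b / r| ≤ |a - b| + |p - r|` with `a = P (c ∩ U)`, `b = Q (c ∩ U)`, `p = P c`, `r = Q c`;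
`t` runs over an interval of length `M`; `|a - b| ≤ γ {exactly one of x, y in c ∩ U}`,
`|p - r| ≤ γ {exactly one in c}` -/
def TaskCond : Prop := ∀ (P Q : Measure ℝ) [IsProbabilityMeasure P]
  [IsProbabilityMeasure Q] (g : ℝ → ℝ) (c : Set ℝ) (M : ℝ) (γ : Measure (ℝ × ℝ)), MeasurableSet c →
  Monotone g → (∀ x ∈ c, ∀ y ∈ c, |g x - g y| ≤ M) → P c ≠ 0 → Q c ≠ 0 →
  γ.map Prod.fst = P → γ.map Prod.snd = Q →
  min (P c) (Q c) * ∫⁻ u, ENNReal.ofReal |g (Qf (cond P c) u) - g (Qf (cond Q c) u)| ∂unif ≤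
    (∫⁻ z in c ×ˢ c, ENNReal.ofReal |g z.1 - g z.2| ∂γ) +
      2 * ENNReal.ofReal M * γ {z | ¬ (z.1 ∈ c ↔ z.2 ∈ c)}

/-! ### cells -/

/-- basic facts: equivalence relation, refinement, size, countably many cells -/
def TaskSame : Prop := ∀ (L i : ℕ) (τ : ℝ), 1 ≤ L →
  (∀ x, Same L i τ x x) ∧ (∀ x y, Same L i τ x y → Same L i τ y x) ∧
  (∀ x y z, Same L i τ x y → Same L i τ y z → Same L i τ x z) ∧
  (∀ x y, Same L (i + 1) τ x y → Same L i τ x y)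

/-- `2^(jj+τ) ≤ |x| < 2^(jj+τ+1)`; the cell is `[k m, (k+1) m)` or its mirror image, `m = ms` -/
def TaskSize : Prop := ∀ (L i : ℕ) (τ : ℝ), 1 ≤ L →
  (∀ x, x ≠ 0 → bs τ x ≤ |x| ∧ |x| < 2 * bs τ x) ∧
  (∀ x y, Same L i τ x y → |x - y| ≤ ms L i τ x ∧ ms L i τ y = ms L i τ x) ∧
  (∀ x, 0 ≤ ms L i τ x ∧ ms L i τ x ≤ |x| / (L : ℝ) ^ i ∧ |x| / (2 * (L : ℝ) ^ i) ≤ ms L i τ x)

/-- countably many cells, they are intervals -/
def TaskCount : Prop := ∀ (L i : ℕ) (τ : ℝ), 1 ≤ L →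
  (∃ D : ℕ → ℝ, ∀ x, ∃ n, Same L i τ (D n) x) ∧ ∀ x, OrdConnected (cell L i τ x)

/-- on every cell of level `i` the function `hh` of level `i+1` agrees with a monotone function
(`t ↦ m^q ⌊t / m⌋`, or `- m^q ⌊- t / m⌋`), and it varies by at most `4 ms^q` -/
def TaskMono : Prop := ∀ (q : ℝ) (L i : ℕ) (τ x : ℝ), Par q L →
  ∃ g : ℝ → ℝ, Monotone g ∧ (∀ y ∈ cell L i τ x, g y = hh q L (i + 1) τ y) ∧
    ∀ y ∈ cell L i τ x, ∀ z ∈ cell L i τ x, |g y - g z| ≤ 4 * (ms L i τ x) ^ q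

/-- `gg` is monotone -/
def TaskGMono : Prop := ∀ (q τ : ℝ), 0 < q → Monotone (gg q τ)

/-- measurability in `(τ, x)` -/
def TaskMeas : Prop := (Measurable fun z : ℝ × ℝ => (jj z.1 z.2 : ℤ)) ∧
  (Measurable fun z : ℝ × ℝ => bs z.1 z.2) ∧
  (∀ L i, Measurable fun z : ℝ × ℝ => (kk L i z.1 z.2 : ℤ)) ∧
  (∀ L i, Measurable fun z : ℝ × ℝ => ms L i z.1 z.2) ∧
  (∀ q L i, Measurable fun z : ℝ × ℝ => hh q L i z.1 z.2) ∧
  (∀ q, Measurable fun z : ℝ × ℝ => gg q z.1 z.2) ∧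
  (∀ L i, MeasurableSet {z : ℝ × ℝ × ℝ | Same L i z.1 z.2.1 z.2.2})

/-! ### the random variables -/

/-- joint measurability of `Qf` of conditional laws: `Qf μ u ≤ x ↔ u ≤ μ (Iic x)` for `u ∈ (0,1)`, and
`μ (Iic x) = P (cell ∩ Iic x) / P cell`; other `u` are exceptional (`u ≤ 0`: value `0`; `u > 1`: value `0`;
`u = 1`: `sInf` of the intersection of a decreasing sequence); `cond P c = 0` if `P c = 0` -/
def TaskXMeas : Prop := ∀ (L : ℕ) (P : Measure ℝ) [IsProbabilityMeasure P] (i : ℕ),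
  ∃ f : ℝ → (ℕ → ℝ) → ℝ, Measurable (Function.uncurry f) ∧
    ∀ τ u, (∀ n, u n ∈ Ioo (0 : ℝ) 1) → f τ u = XX L P τ u i

/-- almost every `u` has all coordinates in `(0,1)` -/
def TaskIoo : Prop := ∀ᵐ u ∂UU, ∀ n, u n ∈ Ioo (0 : ℝ) 1

/-- independence of `u (i+1)` from a function of `u 0, …, u i` -/
def TaskIndep : Prop := ∀ (i : ℕ) (f : (ℕ → ℝ) → ℝ × ℝ) (G : (ℝ × ℝ) → ℝ → ℝ≥0∞), Measurable f →
  Measurable (Function.uncurry G) → (∀ u u' : ℕ → ℝ, (∀ n ≤ i, u n = u' n) → f u = f u') →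
  ∫⁻ u, G (f u) (u (i + 1)) ∂UU = ∫⁻ u, ∫⁻ v, G (f u) v ∂unif ∂UU

/-- law of `XX i` (induction: given the cell of `XX i`, the law of `XX (i+1)` is `P` conditioned on it; sum over
the countably many cells; cells of `P`-measure zero do not occur) -/
def TaskLaw : Prop := ∀ (L : ℕ) (P : Measure ℝ) [IsProbabilityMeasure P] (τ : ℝ) (i : ℕ), 1 ≤ L →
  (∀ A : Set ℝ, MeasurableSet A → UU {u | XX L P τ u i ∈ A} = P A) ∧
  ∀ᵐ u ∂UU, P (cell L i τ (XX L P τ u i)) ≠ 0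

/-- `XX (i+1)` is in the cell of `XX i` -/
def TaskStay : Prop := ∀ (L : ℕ) (P : Measure ℝ) [IsProbabilityMeasure P] (τ : ℝ), 1 ≤ L →
  ∀ᵐ u ∂UU, ∀ i, Same L i τ (XX L P τ u i) (XX L P τ u (i + 1))

/-- `|x (i+1) - x i| ≤ ms (i) (x i)`, all `x i` are in the same shell (or all are `0`), so the sequence converges -/
def TaskCauchy : Prop := ∀ (L : ℕ) (τ : ℝ) (x : ℕ → ℝ), 4 ≤ L →
  (∀ i, Same L i τ (x i) (x (i + 1))) → ∃ a, Tendsto x atTop (𝓝 a) ∧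
    (∀ i, |a - x i| ≤ 2 * ms L i τ (x i)) ∧ |a| ≤ 2 * bs τ (x 0) ∧ (x 0 = 0 → a = 0) ∧
    (∀ i, |a - x i| ≤ 2 * |x 0| / (L : ℝ) ^ i * 2)

/-- the law of the limit: bounded continuous functions, dominated convergence, `TaskLaw` -/
def TaskLimLaw : Prop := ∀ (L : ℕ) (P : Measure ℝ) [IsProbabilityMeasure P] (τ : ℝ), 4 ≤ L →
  ∀ A : Set ℝ, MeasurableSet A → UU {u | XL L P τ u ∈ A} = P A

/-- pathwise bound. If `x 0`, `y 0` are in different shells use `gg` (`|a| ≤ 2 bs`, `(s+t)^q ≤ s^q + t^q`).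
Otherwise let `i` be maximal with `Same i (x i) (y i)` (if there is none, the limits agree); then `x (i+1)`,
`y (i+1)` are in different cells of level `i+1` of a cell of level `i`, the limits are in the closures of these
cells, so `|a - b| ≤ (n+1) m` with `n = |kk x - kk y| ≥ 1`, `m = ms (i+1)`, and `(n+1)^q ≤ 2 n` -/
def TaskPath : Prop := ∀ (q : ℝ) (L : ℕ) (τ : ℝ) (x y : ℕ → ℝ)
  (a b : ℝ), Par q L → (∀ i, Same L i τ (x i) (x (i + 1))) → (∀ i, Same L i τ (y i) (y (i + 1))) →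
  Tendsto x atTop (𝓝 a) → Tendsto y atTop (𝓝 b) →
  ENNReal.ofReal (|a - b| ^ q) ≤ ENNReal.ofReal |gg q τ (x 0) - gg q τ (y 0)| +
    ∑' i : ℕ, open Classical in if Same L i τ (x i) (y i) then
      2 * ENNReal.ofReal |hh q L (i + 1) τ (x (i + 1)) - hh q L (i + 1) τ (y (i + 1))| else 0

/-- the cost of level `i` -/
def lev (q : ℝ) (L i : ℕ) (τ x y : ℝ) : ℝ≥0∞ := open Classical in
  if Same L i τ x y then ENNReal.ofReal |hh q L (i + 1) τ x - hh q L (i + 1) τ y|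
  else 8 * ENNReal.ofReal ((ms L i τ x) ^ q + (ms L i τ y) ^ q)

/-- level `0` (TaskW1 for `g = gg`), and level `i+1` given level `i`: sum over the cells `c` of
`P(XX i, YY i ∈ c) E|..| ≤ min (P c) (Q c) E|..|` and TaskCond with `M = 4 ms^q` -/
def TaskLevel : Prop := ∀ (q : ℝ) (L i : ℕ) (P Q : Measure ℝ) [IsProbabilityMeasure P] [IsProbabilityMeasure Q] (τ : ℝ)
  (γ : Measure (ℝ × ℝ)), Par q L → γ.map Prod.fst = P → γ.map Prod.snd = Q →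
  (open Classical in ∫⁻ u, (if Same L i τ (XX L P τ u i) (XX L Q τ u i) then
    ENNReal.ofReal |hh q L (i + 1) τ (XX L P τ u (i + 1)) - hh q L (i + 1) τ (XX L Q τ u (i + 1))|
    else 0) ∂UU) ≤ ∫⁻ z, lev q L i τ z.1 z.2 ∂γ

def TaskLevel0 : Prop := ∀ (q : ℝ) (L : ℕ) (P Q : Measure ℝ) [IsProbabilityMeasure P] [IsProbabilityMeasure Q] (τ : ℝ)
  (γ : Measure (ℝ × ℝ)), Par q L → γ.map Prod.fst = P → γ.map Prod.snd = Q →
  ∫⁻ u, ENNReal.ofReal |gg q τ (XX L P τ u 0) - gg q τ (XX L Q τ u 0)| ∂UU ≤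
    ∫⁻ z, ENNReal.ofReal |gg q τ z.1 - gg q τ z.2| ∂γ

/-! ### averages over the shift -/

/-- `∫_0^1 (⌊s - τ⌋) dτ = s - 1` and periodic functions of `s - τ` -/
def TaskFloor : Prop := ∀ s : ℝ, ∫ τ in (0 : ℝ)..1, (⌊s - τ⌋ : ℝ) = s - 1

/-- `∫_0^1 bs^q dτ = |x|^q (1 - 2^(-q)) / (q log 2)` for `x ≠ 0` (`log_2 bs` is uniform in
`(log_2 |x| - 1, log_2 |x|]`) -/
def TaskBs : Prop := ∀ (q x : ℝ), 0 < q → x ≠ 0 →
  ∫ τ in (0 : ℝ)..1, (bs τ x) ^ q = |x| ^ q * (1 - (2 : ℝ) ^ (-q)) / (q * Real.log 2)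

/-- from TaskBs, monotonicity, `q ≥ 1/2` and `|sgn(x)|x|^q - sgn(y)|y|^q| ≤ 2 |x-y|^q`;
`2^q / (q log 2) ≤ 6` -/
def TaskTauG : Prop := ∀ (q x y : ℝ), 1 / 2 ≤ q → q < 1 →
  ∫⁻ τ, ENNReal.ofReal |gg q τ x - gg q τ y| ∂unif ≤ 12 * ENNReal.ofReal (|x - y| ^ q)

/-- probability that `x`, `y` are separated at the level `i`: the number
`n(x) = L^i jj + kk - L^i = ∑_{k < L^i} ⌊log_2 |x| - log_2 (1 + k / L^i) - τ⌋ + (L^i - 1)` is monotone in `|x|`;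
`x`, `y` are separated iff the numbers differ; the mean of `n` is `L^i log_2 |x| + const` (TaskFloor) -/
def TaskSep : Prop := ∀ (L i : ℕ) (x y : ℝ), 1 ≤ L → 0 < x → x ≤ y →
  unif {τ | ¬ Same L i τ x y} ≤ ENNReal.ofReal ((L : ℝ) ^ i * (y - x) / (x * Real.log 2))

/-- the case `|y| ≤ |x| ≤ 8 |x - y|`: then all terms with `¬ Same` are at most `16 ms(x)^q`,
`∑ ms^q ≤ 2 |x|^q ≤ 2 * 8 |x-y|^q`; terms with `Same`: `|x - y| ≤ ms i x ≤ |x| / L^i` only for `i ≤ 1`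
(`i = 0`, or `i = 1` and `L ≤ 8`), each at most `4 ms^q` (TaskMono) -/
def TaskTauFar : Prop := ∀ (q : ℝ) (L : ℕ) (τ x y : ℝ), Par q L →
  |y| ≤ |x| → |x| ≤ 8 * |x - y| → ∑' i, lev q L i τ x y ≤ 10000 * ENNReal.ofReal (|x - y| ^ q)

/-- mirror images -/
def TaskMirror : Prop := ∀ (q : ℝ) (L i : ℕ) (τ x y : ℝ),
  lev q L i τ (-x) (-y) = lev q L i τ x y ∧ lev q L i τ x y = lev q L i τ y x

/-- the case `0 < x < y`, `8 (y - x) < y`, level `i` with `y ≤ 2 L^(i+1) (y - x)`, in this case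
`|hh x - hh y| ≤ 2 m^q (|x-y|/m) + m^q` is used for the smallest such `i`, and `4 ms^q` for the others; so the
sum over these levels is at most `C |x-y|^q` for every `τ` -/
def TaskTauLow : Prop := ∀ (q : ℝ) (L : ℕ) (τ x y : ℝ), Par q L →
  0 < x → x < y → 8 * (y - x) < y →
  (∑' i : ℕ, if y ≤ 2 * (L : ℝ) ^ i * (y - x) then lev q L i τ x y else 0) ≤
    10000 * ENNReal.ofReal (|x - y| ^ q)

/-- the case `0 < x < y`, `8 (y - x) < y`, level `i` with `2 L^i (y - x) < y`: the expectation is at most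
`C L^(-i q) y^q P(¬ Same i) + E|hh x - hh y|`, and `|hh x - hh y| ≤ m^q |kk x - kk y|`, `m = ms (i+1)`, where
`|kk x - kk y| ≤ 1` and zero if `Same (i+1)` in the case `2 L^(i+1) (y - x) < y`, and otherwise
`|kk x - kk y| ≤ 2 (y-x)/m + 1` -/
def TaskTauHigh : Prop := ∀ (q : ℝ) (L : ℕ) (x y : ℝ), Par q L → 0 < x → x < y → 8 * (y - x) < y →
  ∫⁻ τ, (∑' i : ℕ, if y ≤ 2 * (L : ℝ) ^ i * (y - x) then 0 else lev q L i τ x y) ∂unif ≤
    10000 * ENNReal.ofReal (|x - y| ^ q)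

/-- together -/
def TaskTau : Prop := ∀ (q : ℝ) (L : ℕ) (x y : ℝ), Par q L →
  ∫⁻ τ, (∑' i : ℕ, lev q L i τ x y) ∂unif ≤ 20000 * ENNReal.ofReal (|x - y| ^ q)

/-- for a fixed shift: TaskPath for the limits, TaskLevel0, TaskLevel (Tonelli for the sum over `i`) -/
def TaskCost : Prop := ∀ (q : ℝ) (L : ℕ) (P Q : Measure ℝ) [IsProbabilityMeasure P]
  [IsProbabilityMeasure Q] (τ : ℝ) (γ : Measure (ℝ × ℝ)), Par q L → γ.map Prod.fst = P →
  γ.map Prod.snd = Q → ∫⁻ u, ENNReal.ofReal (|XL L P τ u - XL L Q τ u| ^ q) ∂UU ≤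
    ∫⁻ z, (ENNReal.ofReal |gg q τ z.1 - gg q τ z.2| + 2 * ∑' i : ℕ, lev q L i τ z.1 z.2) ∂γ

/-- average over the shift (Tonelli, measurability from TaskMeas; TaskTauG, TaskTau) -/
def TaskAvg : Prop := ∀ (q : ℝ) (L : ℕ) (γ : Measure (ℝ × ℝ)) [IsProbabilityMeasure γ], Par q L →
  ∫⁻ τ, ∫⁻ z, (ENNReal.ofReal |gg q τ z.1 - gg q τ z.2| + 2 * ∑' i : ℕ, lev q L i τ z.1 z.2) ∂γ ∂unif ≤
    50000 * ∫⁻ z, ENNReal.ofReal (|z.1 - z.2| ^ q) ∂γ

/-- a measurable version of the coupling: there is a jointly measurable `F` with `F (τ, u) = XL L P τ u` if all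
`u n` are in `(0,1)` (`limsup` of the functions of TaskXMeas, `Measurable.limsup`) -/
def TaskXLMeas : Prop := ∀ (L : ℕ) (P : Measure ℝ) [IsProbabilityMeasure P],
  ∃ F : ℝ × (ℕ → ℝ) → ℝ, Measurable F ∧ ∀ τ u, (∀ n, u n ∈ Ioo (0 : ℝ) 1) → F (τ, u) = XL L P τ u

/-- measure preserving map from `[0,1]` (`MeasureTheory.Measure.exists_measurable_map_eq`) -/
def TaskSpace : Prop := ∃ f : ℝ → ℝ × (ℕ → ℝ), Measurable f ∧ Measure.map f unif = unif.prod UU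

end

end Pool.Agent.Q295.PCR
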