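import Mathlib
import Pool.Agent.Q295.PCR.Stmts

set_option autoImplicit false

namespace Pool.Agent.Q295.PCR.TaskCauchyP

open MeasureTheory Set Filter ProbabilityTheory Topology
open scoped ENNReal
open Pool.Agent.Q295.PCR

theorem main (hS : TaskSize) : Pool.Agent.Q295.PCR.TaskCauchy := by
  intro L τ x hL hx
  have hL1 : 1 ≤ L := by omega
  have hLr : (4 : ℝ) ≤ (L : ℝ) := by exact_mod_cast hL
  have hLpos : (0 : ℝ) < (L : ℝ) := by linarith
  by_cases h0 : x 0 = 0
  · have hz : ∀ i, x i = 0 := by
      intro i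
      induction i with
      | zero => exact h0
      | succ n ih =>
        have h1 := (hx n).1
        rw [ih, sign_zero] at h1
        exact sign_eq_zero_iff.mp h1.symm
    have hbs : 0 < bs τ (x 0) := by
      unfold bs
      positivity
    refine ⟨0, ?_, ?_, ?_, fun _ => rfl, ?_⟩
    · have : x = fun _ => 0 := funext hz
      rw [this]
      exact tendsto_const_nhds
    · intro i
      rw [hz i]
      have := (hS L i τ hL1).2.2 0
      simp only [sub_zero, abs_zero]
      linarith [this.1]
    · simp only [abs_zero]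
      linarith
    · intro i
      rw [hz i, h0]
      simp
  · have hnz : ∀ i, x i ≠ 0 ∧ jj τ (x i) = jj τ (x 0) := by
      intro i
      induction i with
      | zero => exact ⟨h0, rfl⟩
      | succ n ih =>
        have h1 := (hx n).1
        have h2 := (hx n).2 ih.1
        refine ⟨?_, h2.1.symm.trans ih.2⟩
        intro h3
        rw [h3, sign_zero] at h1
        exact ih.1 (sign_eq_zero_iff.mp h1)
    set b := bs τ (x 0) with hb
    have hbpos : 0 < b := by
      rw [hb]
      unfold bs
      positivity
    have hbi : ∀ i, bs τ (x i) = b := by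
      intro i
      rw [hb]
      unfold bs
      rw [(hnz i).2]
    have hms : ∀ i, ms L i τ (x i) = b * (1 / (L : ℝ)) ^ i := by
      intro i
      unfold ms
      rw [if_neg (hnz i).1, hbi i, one_div, inv_pow, div_eq_mul_inv]
    have hr : (1 / (L : ℝ)) < 1 := by
      rw [div_lt_one hLpos]
      linarith
    have hr4 : (1 / (L : ℝ)) ≤ 1 / 4 := one_div_le_one_div_of_le (by norm_num) hLr
    have hu : ∀ n, dist (x n) (x (n + 1)) ≤ b * (1 / (L : ℝ)) ^ n := by
      intro n
      rw [Real.dist_eq, ← hms n]
      exact ((hS L n τ hL1).2.1 _ _ (hx n)).1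
    obtain ⟨a, ha⟩ := cauchySeq_tendsto_of_complete (cauchySeq_of_le_geometric _ _ hr hu)
    have hd : ∀ i, |a - x i| ≤ 2 * ms L i τ (x i) := by
      intro i
      have h1 := dist_le_of_le_geometric_of_tendsto _ _ hr hu ha i
      rw [Real.dist_eq, abs_sub_comm, ← hms i] at h1
      have h2 : 0 ≤ ms L i τ (x i) := ((hS L i τ hL1).2.2 _).1
      refine h1.trans ?_
      rw [div_le_iff₀ (by linarith)]
      nlinarith
    refine ⟨a, ha, hd, ?_, fun h => absurd h h0, ?_⟩
    · have h1 : Tendsto (fun i => |x i|) atTop (𝓝 |a|) := ha.abs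
      refine le_of_tendsto h1 (Eventually.of_forall fun i => ?_)
      have h2 := ((hS L i τ hL1).1 (x i) (hnz i).1).2
      rw [hbi i] at h2
      exact h2.le
    · intro i
      refine (hd i).trans ?_
      rw [hms i, one_div, inv_pow, ← div_eq_mul_inv]
      have h2 := ((hS L 0 τ hL1).1 (x 0) h0).1
      have hp : (0 : ℝ) < (L : ℝ) ^ i := by positivity
      rw [mul_div_assoc, mul_assoc]
      have h3 : b / (L : ℝ) ^ i ≤ |x 0| / (L : ℝ) ^ i := div_le_div_of_nonneg_right h2 hp.le
      have h4 : 0 ≤ |x 0| / (L : ℝ) ^ i := by positivity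
      linarith

end Pool.Agent.Q295.PCR.TaskCauchyP
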