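import Pool.Agent.Q295.PCR.Stmts

set_option autoImplicit false

namespace Pool.Agent.Q295.PCR.TaskCondP

open MeasureTheory Set Filter ProbabilityTheory Topology Pool.Agent.Q295.PCR
open scoped ENNReal

theorem main (hW : TaskW1) : Pool.Agent.Q295.PCR.TaskCond := by
  intro P Q _ _ g c M γ hc hg hM hPc hQc hγP hγQ
  have hγ1 : γ univ = 1 := by
    have h := measure_univ (μ := P)
    rw [← hγP, Measure.map_apply measurable_fst MeasurableSet.univ] at h
    simpa using h
  have : IsProbabilityMeasure γ := ⟨hγ1⟩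
  have i1 : IsProbabilityMeasure (cond P c) := cond_isProbabilityMeasure hPc
  have i2 : IsProbabilityMeasure (cond Q c) := cond_isProbabilityMeasure hQc
  obtain ⟨w, hw⟩ : ∃ w, w = max (P c) (Q c) := ⟨_, rfl⟩
  have hPw : P c ≤ w := hw ▸ le_max_left _ _
  have hQw : Q c ≤ w := hw ▸ le_max_right _ _
  have hw0 : w ≠ 0 := fun h => hPc (le_antisymm (h ▸ hPw) zero_le)
  have hwt : w ≠ ⊤ := by
    rw [hw]; exact (max_lt (measure_lt_top P c) (measure_lt_top Q c)).ne
  have hS : MeasurableSet (c ×ˢ c) := hc.prod hc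
  obtain ⟨γ₀, hγ₀⟩ : ∃ γ₀ : Measure (ℝ × ℝ), γ₀ = w⁻¹ • γ.restrict (c ×ˢ c) := ⟨_, rfl⟩
  have hγ₀u : γ₀ univ = w⁻¹ * γ (c ×ˢ c) := by
    rw [hγ₀, Measure.smul_apply, smul_eq_mul, Measure.restrict_apply MeasurableSet.univ, univ_inter]
  have hfin : w⁻¹ * γ (c ×ˢ c) ≠ ⊤ :=
    ENNReal.mul_ne_top (ENNReal.inv_ne_top.mpr hw0) (measure_ne_top _ _)
  have : IsFiniteMeasure γ₀ := ⟨by rw [hγ₀u]; exact lt_top_iff_ne_top.mpr hfin⟩
  have hA : γ₀.map Prod.fst ≤ cond P c := by
    refine Measure.le_iff.mpr fun E hE => ?_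
    rw [Measure.map_apply measurable_fst hE, hγ₀, Measure.smul_apply, smul_eq_mul,
      Measure.restrict_apply (measurable_fst hE), cond_apply hc]
    refine mul_le_mul' (ENNReal.inv_le_inv.mpr hPw) ?_
    have h := Measure.map_apply (μ := γ) measurable_fst (hc.inter hE)
    rw [hγP] at h
    rw [h]
    exact measure_mono fun z hz => ⟨hz.2.1, hz.1⟩
  have hB : γ₀.map Prod.snd ≤ cond Q c := by
    refine Measure.le_iff.mpr fun E hE => ?_
    rw [Measure.map_apply measurable_snd hE, hγ₀, Measure.smul_apply, smul_eq_mul,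
      Measure.restrict_apply (measurable_snd hE), cond_apply hc]
    refine mul_le_mul' (ENNReal.inv_le_inv.mpr hQw) ?_
    have h := Measure.map_apply (μ := γ) measurable_snd (hc.inter hE)
    rw [hγQ] at h
    rw [h]
    exact measure_mono fun z hz => ⟨hz.2.2, hz.1⟩
  obtain ⟨R1, hR1⟩ : ∃ R1, R1 = cond P c - γ₀.map Prod.fst := ⟨_, rfl⟩
  obtain ⟨R2, hR2⟩ : ∃ R2, R2 = cond Q c - γ₀.map Prod.snd := ⟨_, rfl⟩
  have e1 : R1 + γ₀.map Prod.fst = cond P c := by rw [hR1]; exact Measure.sub_add_cancel_of_le hA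
  have e2 : R2 + γ₀.map Prod.snd = cond Q c := by rw [hR2]; exact Measure.sub_add_cancel_of_le hB
  have hm1 : R1 univ + w⁻¹ * γ (c ×ˢ c) = 1 := by
    have h := congrArg (fun μ : Measure ℝ => μ univ) e1
    simp only [Measure.add_apply, measure_univ] at h
    rw [Measure.map_apply measurable_fst MeasurableSet.univ, preimage_univ, hγ₀u] at h
    exact h
  have hm2 : R2 univ + w⁻¹ * γ (c ×ˢ c) = 1 := by
    have h := congrArg (fun μ : Measure ℝ => μ univ) e2
    simp only [Measure.add_apply, measure_univ] at h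
    rw [Measure.map_apply measurable_snd MeasurableSet.univ, preimage_univ, hγ₀u] at h
    exact h
  have hρ : R2 univ = R1 univ := (ENNReal.add_left_inj hfin).mp (hm2.trans hm1.symm)
  have hle1 : R1 ≤ cond P c := by rw [hR1]; exact Measure.sub_le
  have hle2 : R2 ≤ cond Q c := by rw [hR2]; exact Measure.sub_le
  have f1 : IsFiniteMeasure R1 := isFiniteMeasure_of_le _ hle1
  have f2 : IsFiniteMeasure R2 := isFiniteMeasure_of_le _ hle2
  have hs1 : R1 cᶜ = 0 := by
    refine le_antisymm ((hle1 _).trans ?_) zero_le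
    rw [cond_apply hc]; simp
  have hs2 : R2 cᶜ = 0 := by
    refine le_antisymm ((hle2 _).trans ?_) zero_le
    rw [cond_apply hc]; simp
  obtain ⟨ρ, hρdef⟩ : ∃ ρ, ρ = R1 univ := ⟨_, rfl⟩
  have hρt : ρ ≠ ⊤ := by rw [hρdef]; exact measure_ne_top _ _
  -- the bound of the residual mass
  obtain ⟨e, he⟩ : ∃ e, e = γ {z : ℝ × ℝ | ¬ (z.1 ∈ c ↔ z.2 ∈ c)} := ⟨_, rfl⟩
  have hwe : w ≤ γ (c ×ˢ c) + e := by
    rw [hw, he]
    refine max_le ?_ ?_
    · have h := Measure.map_apply (μ := γ) measurable_fst hc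
      rw [hγP] at h
      rw [h]
      refine (measure_mono ?_).trans (measure_union_le _ _)
      intro z hz
      by_cases h2 : z.2 ∈ c
      · exact Or.inl ⟨hz, h2⟩
      · exact Or.inr fun h3 => h2 (h3.mp hz)
    · have h := Measure.map_apply (μ := γ) measurable_snd hc
      rw [hγQ] at h
      rw [h]
      refine (measure_mono ?_).trans (measure_union_le _ _)
      intro z hz
      by_cases h2 : z.1 ∈ c
      · exact Or.inl ⟨h2, hz⟩
      · exact Or.inr fun h3 => h2 (h3.mpr hz)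
  have hwρ : w * ρ ≤ e := by
    have h1 : w * ρ + γ (c ×ˢ c) = w := by
      have h := congrArg (fun t => w * t) hm1
      simp only [mul_add, mul_one, ← mul_assoc, ENNReal.mul_inv_cancel hw0 hwt, one_mul] at h
      rw [hρdef]; exact h
    have h2 : γ (c ×ˢ c) + w * ρ ≤ γ (c ×ˢ c) + e := by rw [add_comm, h1]; exact hwe
    exact (ENNReal.add_le_add_iff_left (measure_ne_top _ _)).mp h2
  -- the coupling
  obtain ⟨γ', hγ'⟩ : ∃ γ' : Measure (ℝ × ℝ), γ' = γ₀ + ρ⁻¹ • R1.prod R2 := ⟨_, rfl⟩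
  have hzero : ρ = 0 → R1 = 0 ∧ R2 = 0 := by
    intro h
    exact ⟨Measure.measure_univ_eq_zero.mp (hρdef ▸ h), Measure.measure_univ_eq_zero.mp (by rw [hρ, ← hρdef, h])⟩
  have hfst : γ'.map Prod.fst = cond P c := by
    rw [hγ', Measure.map_add _ _ measurable_fst, Measure.map_smul, Measure.map_fst_prod, hρ, ← hρdef,
      ← e1, add_comm]
    congr 1
    by_cases h0 : ρ = 0
    · rw [(hzero h0).1]; simp
    · rw [smul_smul, ENNReal.inv_mul_cancel h0 hρt, one_smul]
  have hsnd : γ'.map Prod.snd = cond Q c := by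
    rw [hγ', Measure.map_add _ _ measurable_snd, Measure.map_smul, Measure.map_snd_prod, ← hρdef,
      ← e2, add_comm]
    congr 1
    by_cases h0 : ρ = 0
    · rw [(hzero h0).2]; simp
    · rw [smul_smul, ENNReal.inv_mul_cancel h0 hρt, one_smul]
  have key := hW (cond P c) (cond Q c) g γ' hg hfst hsnd
  have hcost : ∫⁻ z, ENNReal.ofReal |g z.1 - g z.2| ∂(R1.prod R2) ≤ ENNReal.ofReal M * (ρ * ρ) := by
    have hae : ∀ᵐ z ∂(R1.prod R2), ENNReal.ofReal |g z.1 - g z.2| ≤ ENNReal.ofReal M := by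
      have h1 : ∀ᵐ z ∂(R1.prod R2), z.1 ∈ c := by
        have : (R1.prod R2) (cᶜ ×ˢ univ) = 0 := by rw [Measure.prod_prod, hs1, zero_mul]
        refine measure_mono_null ?_ this
        intro z hz
        exact ⟨hz, trivial⟩
      have h2 : ∀ᵐ z ∂(R1.prod R2), z.2 ∈ c := by
        have : (R1.prod R2) (univ ×ˢ cᶜ) = 0 := by rw [Measure.prod_prod, hs2, mul_zero]
        refine measure_mono_null ?_ this
        intro z hz
        exact ⟨trivial, hz⟩
      filter_upwards [h1, h2] with z hz1 hz2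
      exact ENNReal.ofReal_le_ofReal (hM _ hz1 _ hz2)
    refine (lintegral_mono_ae hae).trans ?_
    rw [lintegral_const, ← univ_prod_univ, Measure.prod_prod, hρ, ← hρdef]
  rw [hγ', lintegral_add_measure, lintegral_smul_measure, hγ₀, lintegral_smul_measure] at key
  simp only [smul_eq_mul] at key
  have hmin : min (P c) (Q c) ≤ w := (min_le_left _ _).trans hPw
  calc min (P c) (Q c) * ∫⁻ u, ENNReal.ofReal |g (Qf (cond P c) u) - g (Qf (cond Q c) u)| ∂unif
      ≤ w * (w⁻¹ * ∫⁻ z in c ×ˢ c, ENNReal.ofReal |g z.1 - g z.2| ∂γ + ρ⁻¹ * (ENNReal.ofReal M * (ρ * ρ))) := by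
        refine mul_le_mul' hmin (key.trans ?_)
        gcongr
    _ = (∫⁻ z in c ×ˢ c, ENNReal.ofReal |g z.1 - g z.2| ∂γ) + ENNReal.ofReal M * (w * ρ) := by
        rw [mul_add, ← mul_assoc, ENNReal.mul_inv_cancel hw0 hwt, one_mul]
        congr 1
        by_cases h0 : ρ = 0
        · simp [h0]
        · rw [show ρ⁻¹ * (ENNReal.ofReal M * (ρ * ρ)) = (ρ⁻¹ * ρ) * (ENNReal.ofReal M * ρ) by ring,
            ENNReal.inv_mul_cancel h0 hρt, one_mul]
          ring
    _ ≤ (∫⁻ z in c ×ˢ c, ENNReal.ofReal |g z.1 - g z.2| ∂γ) + 2 * ENNReal.ofReal M * e := by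
        refine add_le_add le_rfl ?_
        calc ENNReal.ofReal M * (w * ρ) ≤ ENNReal.ofReal M * e := by gcongr
          _ ≤ 2 * ENNReal.ofReal M * e := by
            rw [mul_assoc]
            exact le_mul_of_one_le_left zero_le (by norm_num)
    _ = _ := by rw [he]

end Pool.Agent.Q295.PCR.TaskCondP
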