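import Pool.Agent.Q295.PCR.Stmts

set_option autoImplicit false

open MeasureTheory Set Filter ProbabilityTheory Topology
open scoped ENNReal

namespace Pool.Agent.Q295.PCR.TaskCostP

open Pool.Agent.Q295.PCR

theorem main (hMeas : TaskMeas) (hXMeas : TaskXMeas) (hIoo : TaskIoo) (hStay : TaskStay)
    (hCauchy : TaskCauchy) (hPath : TaskPath) (hLevel : TaskLevel) (hLevel0 : TaskLevel0) :
    Pool.Agent.Q295.PCR.TaskCost := by
  classical
  intro q L P Q _ _ τ γ hpar h1 h2
  have hL4 : 4 ≤ L := hpar.l3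
  have hL1 : 1 ≤ L := by omega
  have hgg' : Measurable (gg q τ) := (hMeas.2.2.2.2.2.1 q).comp measurable_prodMk_left
  have hhh' : ∀ i, Measurable (hh q L i τ) := fun i =>
    (hMeas.2.2.2.2.1 q L i).comp measurable_prodMk_left
  have hms' : ∀ i, Measurable (ms L i τ) := fun i =>
    (hMeas.2.2.2.1 L i).comp measurable_prodMk_left
  have hSame' : ∀ i, MeasurableSet {z : ℝ × ℝ | Same L i τ z.1 z.2} := fun i =>
    (hMeas.2.2.2.2.2.2 L i).preimage (measurable_prodMk_left : Measurable fun z : ℝ × ℝ => (τ, z))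
  have hX : ∀ (R : Measure ℝ) [IsProbabilityMeasure R] (i : ℕ),
      AEMeasurable (fun u => XX L R τ u i) UU := by
    intro R _ i
    obtain ⟨f, hf, hfe⟩ := hXMeas L R i
    refine ⟨f τ, hf.of_uncurry_left, ?_⟩
    filter_upwards [hIoo] with u hu
    exact (hfe τ u hu).symm
  obtain ⟨A, hA⟩ : ∃ A : (ℕ → ℝ) → ℝ≥0∞, A = fun u =>
    ENNReal.ofReal |gg q τ (XX L P τ u 0) - gg q τ (XX L Q τ u 0)| := ⟨_, rfl⟩
  obtain ⟨B, hB⟩ : ∃ B : ℕ → (ℕ → ℝ) → ℝ≥0∞, B = fun i u =>
    if Same L i τ (XX L P τ u i) (XX L Q τ u i) then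
      2 * ENNReal.ofReal |hh q L (i + 1) τ (XX L P τ u (i + 1)) -
        hh q L (i + 1) τ (XX L Q τ u (i + 1))| else 0 := ⟨_, rfl⟩
  have hae : ∀ᵐ u ∂UU, ENNReal.ofReal (|XL L P τ u - XL L Q τ u| ^ q) ≤ A u + ∑' i, B i u := by
    filter_upwards [hStay L P τ hL1, hStay L Q τ hL1] with u hu hv
    obtain ⟨a, ha, _⟩ := hCauchy L τ _ hL4 hu
    obtain ⟨b, hb, _⟩ := hCauchy L τ _ hL4 hv
    have ea : XL L P τ u = a := ha.limsup_eq
    have eb : XL L Q τ u = b := hb.limsup_eq
    rw [ea, eb, hA, hB]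
    have h := hPath q L τ _ _ a b hpar hu hv ha hb
    convert h using 4
  have hAm : AEMeasurable A UU := by
    rw [hA]
    exact ENNReal.measurable_ofReal.comp_aemeasurable
      ((hgg'.comp_aemeasurable (hX P 0)).sub (hgg'.comp_aemeasurable (hX Q 0))).abs
  have hBm : ∀ i, AEMeasurable (B i) UU := by
    intro i
    have hΦ : Measurable (fun z : (ℝ × ℝ) × (ℝ × ℝ) => if Same L i τ z.1.1 z.1.2 then
        2 * ENNReal.ofReal |hh q L (i + 1) τ z.2.1 - hh q L (i + 1) τ z.2.2| else 0) := by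
      refine Measurable.ite ?_ ?_ measurable_const
      · exact (hSame' i).preimage measurable_fst
      · refine Measurable.const_mul (ENNReal.measurable_ofReal.comp ?_) 2
        exact (((hhh' (i + 1)).comp (measurable_fst.comp measurable_snd)).sub
          ((hhh' (i + 1)).comp (measurable_snd.comp measurable_snd))).abs
    have h := hΦ.comp_aemeasurable
      (((hX P i).prodMk (hX Q i)).prodMk ((hX P (i + 1)).prodMk (hX Q (i + 1))))
    rw [hB]
    exact h
  have hlev : ∀ i, Measurable (fun z : ℝ × ℝ => lev q L i τ z.1 z.2) := by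
    intro i
    unfold lev
    refine Measurable.ite (hSame' i) ?_ ?_
    · refine ENNReal.measurable_ofReal.comp ?_
      exact (((hhh' (i + 1)).comp measurable_fst).sub ((hhh' (i + 1)).comp measurable_snd)).abs
    · refine Measurable.const_mul (ENNReal.measurable_ofReal.comp ?_) 8
      exact (((hms' i).comp measurable_fst).pow_const q).add
        (((hms' i).comp measurable_snd).pow_const q)
  have hBle : ∀ i, ∫⁻ u, B i u ∂UU ≤ 2 * ∫⁻ z, lev q L i τ z.1 z.2 ∂γ := by
    intro i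
    have e : ∀ u, B i u = 2 * (if Same L i τ (XX L P τ u i) (XX L Q τ u i) then
      ENNReal.ofReal |hh q L (i + 1) τ (XX L P τ u (i + 1)) -
        hh q L (i + 1) τ (XX L Q τ u (i + 1))| else 0) := by
      intro u
      rw [hB]
      simp only
      split_ifs <;> simp
    simp_rw [e]
    rw [lintegral_const_mul' _ _ (by norm_num)]
    refine mul_le_mul_right ?_ 2
    have h := hLevel q L i P Q τ γ hpar h1 h2
    convert h using 3
  calc ∫⁻ u, ENNReal.ofReal (|XL L P τ u - XL L Q τ u| ^ q) ∂UU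
      ≤ ∫⁻ u, (A u + ∑' i, B i u) ∂UU := lintegral_mono_ae hae
    _ = ∫⁻ u, A u ∂UU + ∑' i, ∫⁻ u, B i u ∂UU := by
        rw [lintegral_add_left' hAm, lintegral_tsum hBm]
    _ ≤ ∫⁻ z, ENNReal.ofReal |gg q τ z.1 - gg q τ z.2| ∂γ +
          ∑' i, 2 * ∫⁻ z, lev q L i τ z.1 z.2 ∂γ := by
        refine add_le_add ?_ (ENNReal.tsum_le_tsum hBle)
        rw [hA]
        exact hLevel0 q L P Q τ γ hpar h1 h2
    _ = ∫⁻ z, (ENNReal.ofReal |gg q τ z.1 - gg q τ z.2| + 2 * ∑' i : ℕ, lev q L i τ z.1 z.2) ∂γ := by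
        have hgm : Measurable (fun z : ℝ × ℝ => ENNReal.ofReal |gg q τ z.1 - gg q τ z.2|) := by
          refine ENNReal.measurable_ofReal.comp ?_
          exact ((hgg'.comp measurable_fst).sub (hgg'.comp measurable_snd)).abs
        rw [lintegral_add_left hgm, lintegral_const_mul' _ _ (by norm_num),
          lintegral_tsum fun i => (hlev i).aemeasurable, ENNReal.tsum_mul_left]

end Pool.Agent.Q295.PCR.TaskCostP
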