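import Pool.Agent.Q295.PCR.Stmts

set_option autoImplicit false

/-! MP_ee92c9_pr, blueprint of helper295: TaskCount (helper190). -/

namespace Pool.Agent.Q295.PCR.TaskCountP

open Pool.Agent.Q295.PCR MeasureTheory Set Filter ProbabilityTheory Topology

lemma key (L i : ℕ) (τ : ℝ) {y w z : ℝ} (hy : y ≠ 0) (h1 : |y| ≤ |w|) (h2 : |w| ≤ |z|)
    (hj : jj τ y = jj τ z) (hk : kk L i τ y = kk L i τ z) :
    jj τ w = jj τ y ∧ kk L i τ w = kk L i τ y := by
  have hy' : 0 < |y| := abs_pos.2 hy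
  have hw' : 0 < |w| := lt_of_lt_of_le hy' h1
  have j1 : jj τ y ≤ jj τ w := by
    unfold jj
    refine Int.floor_le_floor ?_
    have := Real.logb_le_logb_of_le (b := 2) (by norm_num) hy' h1
    linarith
  have j2 : jj τ w ≤ jj τ z := by
    unfold jj
    refine Int.floor_le_floor ?_
    have := Real.logb_le_logb_of_le (b := 2) (by norm_num) hw' h2
    linarith
  have hjw : jj τ w = jj τ y := by omega
  have b1 : bs τ w = bs τ y := by unfold bs; rw [hjw]
  have b2 : bs τ z = bs τ y := by unfold bs; rw [hj]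
  have bpos : 0 < bs τ y := by unfold bs; positivity
  have k1 : kk L i τ y ≤ kk L i τ w := by
    unfold kk
    rw [b1]
    refine Int.floor_le_floor ?_
    gcongr
  have k2 : kk L i τ w ≤ kk L i τ z := by
    unfold kk
    rw [b1, b2]
    refine Int.floor_le_floor ?_
    gcongr
  exact ⟨hjw, by omega⟩

theorem main : Pool.Agent.Q295.PCR.TaskCount := by
  intro L i τ _
  refine ⟨?_, fun x => ⟨fun y hy z hz w hw => ?_⟩⟩
  · classical
    obtain ⟨e, he⟩ := exists_surjective_nat (SignType × ℤ × ℤ)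
    refine ⟨fun n => if h : ∃ x : ℝ, (SignType.sign x, jj τ x, kk L i τ x) = e n then h.choose else 0, fun x => ?_⟩
    obtain ⟨n, hn⟩ := he (SignType.sign x, jj τ x, kk L i τ x)
    refine ⟨n, ?_⟩
    have h : ∃ x : ℝ, (SignType.sign x, jj τ x, kk L i τ x) = e n := ⟨x, hn.symm⟩
    simp only [dif_pos h]
    have h2 := h.choose_spec.trans hn
    simp only [Prod.mk.injEq] at h2
    exact ⟨h2.1, fun _ => ⟨h2.2.1, h2.2.2⟩⟩
  · obtain ⟨y1, y2⟩ := hy
    obtain ⟨z1, z2⟩ := hz
    obtain ⟨w1, w2⟩ := hw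
    rcases lt_trichotomy x 0 with hx | hx | hx
    · rw [sign_neg hx] at y1 z1
      have hy0 : y < 0 := sign_eq_neg_one_iff.1 y1.symm
      have hz0 : z < 0 := sign_eq_neg_one_iff.1 z1.symm
      have hw0 : w < 0 := lt_of_le_of_lt w2 hz0
      obtain ⟨a1, a2⟩ := y2 hx.ne
      obtain ⟨c1, c2⟩ := z2 hx.ne
      have hk := key L i τ (y := z) (w := w) (z := y) hz0.ne
        (by rw [abs_of_neg hz0, abs_of_neg hw0]; linarith)
        (by rw [abs_of_neg hy0, abs_of_neg hw0]; linarith) (c1.symm.trans a1) (c2.symm.trans a2)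
      refine ⟨?_, fun _ => ⟨?_, ?_⟩⟩
      · rw [sign_neg hx, sign_neg hw0]
      · rw [hk.1]; exact c1
      · rw [hk.2]; exact c2
    · subst hx
      rw [sign_zero] at y1 z1
      have hy0 : y = 0 := sign_eq_zero_iff.1 y1.symm
      have hz0 : z = 0 := sign_eq_zero_iff.1 z1.symm
      have hw0 : w = 0 := by subst hy0 hz0; exact le_antisymm w2 w1
      subst hw0
      exact ⟨rfl, fun h => absurd rfl h⟩
    · rw [sign_pos hx] at y1 z1
      have hy0 : 0 < y := sign_eq_one_iff.1 y1.symm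
      have hz0 : 0 < z := sign_eq_one_iff.1 z1.symm
      have hw0 : 0 < w := lt_of_lt_of_le hy0 w1
      obtain ⟨a1, a2⟩ := y2 hx.ne'
      obtain ⟨c1, c2⟩ := z2 hx.ne'
      have hk := key L i τ (y := y) (w := w) (z := z) hy0.ne'
        (by rw [abs_of_pos hy0, abs_of_pos hw0]; linarith)
        (by rw [abs_of_pos hz0, abs_of_pos hw0]; linarith) (a1.symm.trans c1) (a2.symm.trans c2)
      refine ⟨?_, fun _ => ⟨?_, ?_⟩⟩
      · rw [sign_pos hx, sign_pos hw0]
      · rw [hk.1]; exact a1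
      · rw [hk.2]; exact a2

end Pool.Agent.Q295.PCR.TaskCountP
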