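import Pool.Agent.Q295.PCR.Stmts

set_option autoImplicit false

open MeasureTheory Set

namespace Pool.Agent.Q295.PCR.TaskFloorP

theorem main : Pool.Agent.Q295.PCR.TaskFloor := by
  intro s
  have hf0 : 0 ≤ Int.fract s := Int.fract_nonneg s
  have hf1 : Int.fract s < 1 := Int.fract_lt_one s
  have hs : s = ⌊s⌋ + Int.fract s := (Int.floor_add_fract s).symm
  have h1 : ∀ τ ∈ Ioc (0 : ℝ) (Int.fract s), ((⌊s - τ⌋ : ℤ) : ℝ) = (⌊s⌋ : ℝ) := by
    intro τ hτ
    have : ⌊s - τ⌋ = ⌊s⌋ := by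
      rw [Int.floor_eq_iff]
      constructor
      · linarith [hτ.2]
      · linarith [hτ.1]
    rw [this]
  have h2 : ∀ τ ∈ Ioc (Int.fract s) 1, ((⌊s - τ⌋ : ℤ) : ℝ) = (⌊s⌋ : ℝ) - 1 := by
    intro τ hτ
    have : ⌊s - τ⌋ = ⌊s⌋ - 1 := by
      rw [Int.floor_eq_iff]
      push_cast
      constructor
      · linarith [hτ.2]
      · linarith [hτ.1]
    rw [this]
    push_cast
    ring
  have i1 : IntervalIntegrable (fun τ : ℝ => ((⌊s - τ⌋ : ℤ) : ℝ)) volume 0 (Int.fract s) := by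
    rw [intervalIntegrable_iff_integrableOn_Ioc_of_le hf0]
    have : IntegrableOn (fun _ : ℝ => (⌊s⌋ : ℝ)) (Ioc 0 (Int.fract s)) volume :=
      integrableOn_const (by simp)
    exact this.congr_fun (fun τ hτ => (h1 τ hτ).symm) measurableSet_Ioc
  have i2 : IntervalIntegrable (fun τ : ℝ => ((⌊s - τ⌋ : ℤ) : ℝ)) volume (Int.fract s) 1 := by
    rw [intervalIntegrable_iff_integrableOn_Ioc_of_le hf1.le]
    have : IntegrableOn (fun _ : ℝ => (⌊s⌋ : ℝ) - 1) (Ioc (Int.fract s) 1) volume :=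
      integrableOn_const (by simp)
    exact this.congr_fun (fun τ hτ => (h2 τ hτ).symm) measurableSet_Ioc
  rw [← intervalIntegral.integral_add_adjacent_intervals i1 i2,
    intervalIntegral.integral_of_le hf0, intervalIntegral.integral_of_le hf1.le,
    setIntegral_congr_fun measurableSet_Ioc h1, setIntegral_congr_fun measurableSet_Ioc h2,
    setIntegral_const, setIntegral_const, Real.volume_real_Ioc_of_le hf0,
    Real.volume_real_Ioc_of_le hf1.le, smul_eq_mul, smul_eq_mul]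
  conv_rhs => rw [hs]
  ring

end Pool.Agent.Q295.PCR.TaskFloorP
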