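import Pool.Agent.Q295.PCR.Stmts

set_option autoImplicit false

namespace Pool.Agent.Q295.PCR.TaskGMonoP

open Pool.Agent.Q295.PCR Set

theorem main : Pool.Agent.Q295.PCR.TaskGMono := by
  intro q τ hq x y hxy
  have h2 : (2 : ℝ) ^ (-q) < 1 := Real.rpow_lt_one_of_one_lt_of_neg (by norm_num) (by linarith)
  have hC : 0 < (2 : ℝ) ^ q / (1 - (2 : ℝ) ^ (-q)) :=
    div_pos (Real.rpow_pos_of_pos two_pos _) (sub_pos.2 h2)
  have bpos : ∀ x, 0 < bs τ x := fun x => Real.rpow_pos_of_pos two_pos _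
  have bmono : ∀ x y : ℝ, x ≠ 0 → |x| ≤ |y| → (bs τ x) ^ q ≤ (bs τ y) ^ q := by
    intro x y hx h
    refine Real.rpow_le_rpow (bpos x).le ?_ hq.le
    unfold bs
    refine Real.rpow_le_rpow_of_exponent_le (by norm_num) ?_
    have h3 : jj τ x ≤ jj τ y := by
      unfold jj
      refine Int.floor_le_floor ?_
      have := Real.logb_le_logb_of_le (b := 2) (by norm_num) (abs_pos.2 hx) h
      linarith
    have h4 : (jj τ x : ℝ) ≤ jj τ y := by exact_mod_cast h3
    linarith
  have ppos : ∀ x : ℝ, 0 < (bs τ x) ^ q := fun x => Real.rpow_pos_of_pos (bpos x) _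
  generalize hCC : (2 : ℝ) ^ q / (1 - (2 : ℝ) ^ (-q)) = C at hC
  have gpos : ∀ x : ℝ, 0 < x → gg q τ x = C * (bs τ x) ^ q := by
    intro x hx
    unfold gg
    rw [if_neg hx.ne', sign_pos hx, hCC]
    simp
  have gneg : ∀ x : ℝ, x < 0 → gg q τ x = -(C * (bs τ x) ^ q) := by
    intro x hx
    unfold gg
    rw [if_neg hx.ne, sign_neg hx, hCC]
    simp
  have gzero : gg q τ 0 = 0 := by simp [gg]
  rcases lt_trichotomy x 0 with hx | hx | hx
  · have k1 := mul_pos hC (ppos x)
    rcases lt_trichotomy y 0 with hy | hy | hy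
    · rw [gneg x hx, gneg y hy, neg_le_neg_iff]
      refine mul_le_mul_of_nonneg_left (bmono y x hy.ne ?_) hC.le
      rw [abs_of_neg hy, abs_of_neg hx]
      linarith
    · rw [gneg x hx, hy, gzero]
      linarith
    · have k2 := mul_pos hC (ppos y)
      rw [gneg x hx, gpos y hy]
      linarith
  · subst hx
    rcases hxy.lt_or_eq with hy | hy
    · have k2 := mul_pos hC (ppos y)
      rw [gzero, gpos y hy]
      exact k2.le
    · rw [← hy]
  · have hy : 0 < y := lt_of_lt_of_le hx hxy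
    rw [gpos x hx, gpos y hy]
    refine mul_le_mul_of_nonneg_left (bmono x y hx.ne' ?_) hC.le
    rw [abs_of_pos hx, abs_of_pos hy]
    exact hxy

end Pool.Agent.Q295.PCR.TaskGMonoP
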