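import Pool.Agent.Q295.PCR.Stmts

set_option autoImplicit false

namespace Pool.Agent.Q295.PCR.TaskIndepP

open MeasureTheory Set Filter ProbabilityTheory Topology
open scoped ENNReal
open Pool.Agent.Q295.PCR

theorem indep_all : iIndepFun (fun (n : ℕ) (u : ℕ → ℝ) => u n) UU :=
  iIndepFun_infinitePi (P := fun _ : ℕ => unif) (X := fun _ : ℕ => (id : ℝ → ℝ))
    (fun _ => measurable_id)

theorem main : Pool.Agent.Q295.PCR.TaskIndep := by
  intro i f G hf hG hdep
  classical
  set S : Finset ℕ := Finset.range (i + 1) with hS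
  set T : Finset ℕ := {i + 1} with hT
  have hST : Disjoint S T := by
    rw [hS, hT, Finset.disjoint_singleton_right]
    simp
  have h1 := indep_all.indepFun_finset S T hST (fun n => measurable_pi_apply n)
  -- extension by zero
  set ext : (S → ℝ) → (ℕ → ℝ) := fun w n => if h : n ∈ S then w ⟨n, h⟩ else 0 with hext
  have hextm : Measurable ext := by
    refine measurable_pi_lambda _ fun n => ?_
    by_cases h : n ∈ S
    · simp only [hext, h, dif_pos]
      exact measurable_pi_apply _
    · simp only [hext, h, dif_neg, not_false_iff]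
      exact measurable_const
  have hfe : f = fun u : ℕ → ℝ => (f ∘ ext) (fun j : S => u j) := by
    funext u
    apply hdep
    intro n hn
    have h : n ∈ S := by rw [hS, Finset.mem_range]; omega
    simp only [hext, h, dif_pos]
  have hTm : (i + 1) ∈ T := by rw [hT]; exact Finset.mem_singleton_self _
  have h2 : IndepFun f (fun u : ℕ → ℝ => u (i + 1)) UU := by
    have hpe : Measurable (fun w : T → ℝ => w ⟨i + 1, hTm⟩) :=
      measurable_pi_apply (⟨i + 1, hTm⟩ : T)
    have h3 := h1.comp (φ := f ∘ ext) (ψ := fun w : T → ℝ => w ⟨i + 1, hTm⟩)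
      (hf.comp hextm) hpe
    rw [hfe]
    exact h3
  have hev : Measurable (fun u : ℕ → ℝ => u (i + 1)) := measurable_pi_apply _
  have hmap : UU.map (fun u : ℕ → ℝ => u (i + 1)) = unif :=
    Measure.infinitePi_map_eval (fun _ : ℕ => unif) (i + 1)
  have h4 := (indepFun_iff_map_prod_eq_prod_map_map hf.aemeasurable hev.aemeasurable).1 h2
  rw [hmap] at h4
  have hpm : IsProbabilityMeasure (UU.map f) := Measure.isProbabilityMeasure_map hf.aemeasurable
  calc ∫⁻ u, G (f u) (u (i + 1)) ∂UU
      = ∫⁻ z, Function.uncurry G z ∂(UU.map (fun u => (f u, u (i + 1)))) := by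
        rw [lintegral_map hG (hf.prodMk hev)]
        rfl
    _ = ∫⁻ z, Function.uncurry G z ∂((UU.map f).prod unif) := by rw [h4]
    _ = ∫⁻ x, ∫⁻ v, G x v ∂unif ∂(UU.map f) := by
        rw [lintegral_prod _ hG.aemeasurable]
        rfl
    _ = ∫⁻ u, ∫⁻ v, G (f u) v ∂unif ∂UU := by
        have hm : Measurable (fun x : ℝ × ℝ => ∫⁻ v, G x v ∂unif) :=
          Measurable.lintegral_prod_right' (ν := unif) hG
        rw [lintegral_map hm hf]

end Pool.Agent.Q295.PCR.TaskIndepP
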