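import Pool.Agent.Q295.PCR.Stmts

set_option autoImplicit false

namespace Pool.Agent.Q295.PCR.TaskLawP

open Pool.Agent.Q295.PCR
open MeasureTheory Set Filter ProbabilityTheory Topology
open scoped ENNReal

theorem XX_local (L : ℕ) (P : Measure ℝ) (τ : ℝ) : ∀ (i : ℕ) (u u' : ℕ → ℝ),
    (∀ n ≤ i, u n = u' n) → XX L P τ u i = XX L P τ u' i := by
  intro i
  induction i with
  | zero =>
    intro u u' h
    show Qf P (u 0) = Qf P (u' 0)
    rw [h 0 le_rfl]
  | succ i ih =>
    intro u u' h
    show Qf (cond P (cell L i τ (XX L P τ u i))) (u (i + 1)) =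
      Qf (cond P (cell L i τ (XX L P τ u' i))) (u' (i + 1))
    rw [ih u u' (fun n hn => h n (by omega)), h (i + 1) le_rfl]

theorem exists_f1 (hXM : TaskXMeas) (hIoo : TaskIoo) (L : ℕ) (P : Measure ℝ)
    [IsProbabilityMeasure P] (τ : ℝ) (i : ℕ) :
    ∃ f1 : (ℕ → ℝ) → ℝ, Measurable f1 ∧
      (∀ u u' : ℕ → ℝ, (∀ n ≤ i, u n = u' n) → f1 u = f1 u') ∧
      ∀ᵐ u ∂UU, f1 u = XX L P τ u i := by
  obtain ⟨f, hf, hfe⟩ := hXM L P i
  classical
  let clip : (ℕ → ℝ) → (ℕ → ℝ) := fun u n => if n ≤ i ∧ u n ∈ Ioo (0 : ℝ) 1 then u n else 1 / 2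
  have hclip : Measurable clip := by
    refine measurable_pi_iff.2 fun n => ?_
    by_cases hn : n ≤ i
    · have : (fun u : ℕ → ℝ => clip u n) =
          fun u => if u n ∈ Ioo (0 : ℝ) 1 then u n else 1 / 2 := by
        funext u; simp [clip, hn]
      rw [this]
      exact Measurable.ite (measurable_pi_apply n measurableSet_Ioo) (measurable_pi_apply n)
        measurable_const
    · have : (fun u : ℕ → ℝ => clip u n) = fun _ => 1 / 2 := by
        funext u; simp [clip, hn]
      rw [this]
      exact measurable_const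
  have hmem : ∀ u n, clip u n ∈ Ioo (0 : ℝ) 1 := by
    intro u n
    show (if n ≤ i ∧ u n ∈ Ioo (0 : ℝ) 1 then u n else 1 / 2) ∈ Ioo (0 : ℝ) 1
    split_ifs with h
    · exact h.2
    · constructor <;> norm_num
  refine ⟨fun u => f τ (clip u), ?_, ?_, ?_⟩
  · exact hf.comp (measurable_const.prodMk hclip)
  · intro u u' h
    have : clip u = clip u' := by
      funext n
      by_cases hn : n ≤ i
      · simp only [clip, h n hn]
      · simp [clip, hn]
    show f τ (clip u) = f τ (clip u')
    rw [this]
  · filter_upwards [hIoo] with u hu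
    rw [hfe τ (clip u) (hmem u)]
    refine XX_local L P τ i _ _ fun n hn => ?_
    show (if n ≤ i ∧ u n ∈ Ioo (0 : ℝ) 1 then u n else 1 / 2) = u n
    rw [if_pos ⟨hn, hu n⟩]

theorem meas_cell (hM : TaskMeas) (L i : ℕ) (τ x : ℝ) : MeasurableSet (cell L i τ x) := by
  obtain ⟨-, -, -, -, -, -, h⟩ := hM
  have h2 : Measurable fun y : ℝ => ((τ, (x, y)) : ℝ × ℝ × ℝ) :=
    measurable_const.prodMk (measurable_const.prodMk measurable_id)
  exact h2 (h L i)

theorem cell_eq (hS : TaskSame) {L i : ℕ} {τ : ℝ} (hL : 1 ≤ L) {x y : ℝ}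
    (h : Same L i τ x y) : cell L i τ x = cell L i τ y := by
  obtain ⟨-, h2, h3, -⟩ := hS L i τ hL
  ext z
  exact ⟨fun hz => h3 _ _ _ (h2 _ _ h) hz, fun hz => h3 _ _ _ h hz⟩

/-- the points with a cell of measure zero are a set of measure zero -/
theorem null_cells (hS : TaskSame) (hC : TaskCount) (L i : ℕ) (P : Measure ℝ) (τ : ℝ)
    (hL : 1 ≤ L) : P {x | P (cell L i τ x) = 0} = 0 := by
  obtain ⟨⟨D, hD⟩, -⟩ := hC L i τ hL
  refine measure_mono_null (t := ⋃ n ∈ {n : ℕ | P (cell L i τ (D n)) = 0}, cell L i τ (D n)) ?_ ?_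
  · intro x hx
    obtain ⟨n, hn⟩ := hD x
    have h1 : cell L i τ (D n) = cell L i τ x := cell_eq hS hL hn
    refine mem_biUnion (show P (cell L i τ (D n)) = 0 by rw [h1]; exact hx) hn
  · exact (measure_biUnion_null_iff (Set.to_countable _)).2 fun n hn => hn

theorem meas_Qf (hQ : TaskQf) (P : Measure ℝ) [IsProbabilityMeasure P] (c : Set ℝ) :
    Measurable (Qf (cond P c)) := by
  by_cases h : P c = 0
  · have h1 : cond P c = 0 := cond_eq_zero_of_meas_eq_zero h
    rw [h1]
    have h2 : Qf (0 : Measure ℝ) = fun _ => 0 := by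
      funext u
      unfold Qf
      by_cases hu : u ≤ 0
      · have : {x : ℝ | u ≤ (0 : Measure ℝ).real (Iic x)} = univ := by
          ext x; simp [hu]
        rw [this, Real.sInf_univ]
      · have : {x : ℝ | u ≤ (0 : Measure ℝ).real (Iic x)} = ∅ := by
          ext x; simp [hu]
        rw [this, Real.sInf_empty]
    rw [h2]
    exact measurable_const
  · haveI : IsProbabilityMeasure (cond P c) := cond_isProbabilityMeasure h
    exact (hQ (cond P c)).2.1

theorem law (hQ : TaskQf) (hXM : TaskXMeas) (hIoo : TaskIoo) (hInd : TaskIndep)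
    (hS : TaskSame) (hM : TaskMeas) (hC : TaskCount) (L : ℕ) (P : Measure ℝ)
    [IsProbabilityMeasure P] (τ : ℝ) (hL : 1 ≤ L) : ∀ i : ℕ,
    ∀ A : Set ℝ, MeasurableSet A → UU {u | XX L P τ u i ∈ A} = P A := by
  intro i
  induction i with
  | zero =>
    intro A hA
    obtain ⟨-, h1, h2⟩ := hQ P
    have h3 : UU {u | XX L P τ u 0 ∈ A} = (UU.map (fun u : ℕ → ℝ => u 0)) (Qf P ⁻¹' A) := by
      rw [Measure.map_apply (measurable_pi_apply 0) (h1 hA)]
      rfl
    have h4 : UU.map (fun u : ℕ → ℝ => u 0) = unif :=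
      Measure.infinitePi_map_eval (fun _ : ℕ => unif) 0
    rw [h3, h4, ← Measure.map_apply h1 hA, h2]
  | succ i ih =>
    intro A hA
    obtain ⟨f1, hf1, hloc, hae⟩ := exists_f1 hXM hIoo L P τ i
    obtain ⟨⟨D, hD⟩, -⟩ := hC L i τ hL
    set C : ℕ → Set ℝ := fun n => cell L i τ (D n) with hCdef
    have hCm : ∀ n, MeasurableSet (C n) := fun n => meas_cell hM L i τ (D n)
    set S : ℕ → Set ℝ := disjointed C with hSdef
    have hSm : ∀ n, MeasurableSet (S n) := fun n => MeasurableSet.disjointed hCm n
    have hSd : Pairwise (Function.onFun Disjoint S) := disjoint_disjointed C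
    have hSC : ∀ n, S n ⊆ C n := fun n => disjointed_subset C n
    have hSU : ⋃ n, S n = univ := by
      rw [hSdef, iUnion_disjointed]
      exact eq_univ_of_forall fun x => mem_iUnion.2 (hD x)
    have hcell : ∀ n, ∀ x ∈ S n, cell L i τ x = C n := fun n x hx =>
      (cell_eq hS hL (hSC n hx)).symm
    -- the map of the law
    have hmap : UU.map f1 = P := by
      ext B hB
      rw [Measure.map_apply hf1 hB, ← ih B hB]
      refine measure_congr ?_
      filter_upwards [hae] with u hu
      exact propext (by show f1 u ∈ B ↔ XX L P τ u i ∈ B; rw [hu])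
    let G : ℝ × ℝ → ℝ → ℝ≥0∞ := fun z v =>
      ∑' n, (S n).indicator 1 z.1 * (Qf (cond P (C n)) ⁻¹' A).indicator 1 v
    have hWm : ∀ n, MeasurableSet (Qf (cond P (C n)) ⁻¹' A) := fun n => meas_Qf hQ P (C n) hA
    have hG : Measurable (Function.uncurry G) := by
      refine Measurable.ennreal_tsum fun n => ?_
      refine Measurable.mul ?_ ?_
      · exact (measurable_one.indicator (hSm n)).comp (measurable_fst.comp measurable_fst)
      · exact (measurable_one.indicator (hWm n)).comp measurable_snd
    have hGx : ∀ n, ∀ x ∈ S n, ∀ w v : ℝ, G (x, w) v = (Qf (cond P (C n)) ⁻¹' A).indicator 1 v := by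
      intro n x hx w v
      show ∑' m, (S m).indicator 1 x * (Qf (cond P (C m)) ⁻¹' A).indicator 1 v = _
      rw [tsum_eq_single n]
      · rw [indicator_of_mem hx]; simp
      · intro m hm
        have : x ∉ S m := fun h => (Set.disjoint_left.1 (hSd hm) h hx).elim
        rw [indicator_of_notMem this, zero_mul]
    -- first step
    have h1 : UU {u | XX L P τ u (i + 1) ∈ A} = ∫⁻ u, G (f1 u, 0) (u (i + 1)) ∂UU := by
      have hset : MeasurableSet {u : ℕ → ℝ | G (f1 u, 0) (u (i + 1)) = 1} := by
        have : Measurable fun u : ℕ → ℝ => G (f1 u, 0) (u (i + 1)) :=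
          hG.comp ((hf1.prodMk measurable_const).prodMk (measurable_pi_apply (i + 1)))
        exact this (measurableSet_singleton 1)
      have h2 : {u | XX L P τ u (i + 1) ∈ A} =ᵐ[UU] {u | G (f1 u, 0) (u (i + 1)) = 1} := by
        filter_upwards [hae] with u hu
        refine propext ?_
        show XX L P τ u (i + 1) ∈ A ↔ G (f1 u, 0) (u (i + 1)) = 1
        obtain ⟨n, hn⟩ := mem_iUnion.1 (hSU ▸ mem_univ (f1 u) : f1 u ∈ ⋃ n, S n)
        rw [hGx n _ hn]
        have h5 : XX L P τ u (i + 1) = Qf (cond P (C n)) (u (i + 1)) := by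
          show Qf (cond P (cell L i τ (XX L P τ u i))) (u (i + 1)) = _
          rw [← hu, hcell n _ hn]
        rw [h5]
        by_cases h6 : Qf (cond P (C n)) (u (i + 1)) ∈ A
        · rw [indicator_of_mem (show u (i + 1) ∈ Qf (cond P (C n)) ⁻¹' A from h6)]
          simp [h6]
        · rw [indicator_of_notMem (show u (i + 1) ∉ Qf (cond P (C n)) ⁻¹' A from h6)]
          simp [h6]
      rw [measure_congr h2, ← lintegral_indicator_one hset]
      refine lintegral_congr fun u => ?_
      obtain ⟨n, hn⟩ := mem_iUnion.1 (hSU ▸ mem_univ (f1 u) : f1 u ∈ ⋃ n, S n)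
      by_cases h6 : u (i + 1) ∈ Qf (cond P (C n)) ⁻¹' A
      · have h7 : G (f1 u, 0) (u (i + 1)) = 1 := by
          rw [hGx n _ hn, indicator_of_mem h6]; rfl
        rw [h7, indicator_of_mem (show u ∈ {u : ℕ → ℝ | G (f1 u, 0) (u (i + 1)) = 1} from h7)]
        rfl
      · have h7 : G (f1 u, 0) (u (i + 1)) = 0 := by
          rw [hGx n _ hn, indicator_of_notMem h6]
        rw [h7, indicator_of_notMem]
        show ¬ G (f1 u, 0) (u (i + 1)) = 1
        rw [h7]; exact zero_ne_one
    have h2 := hInd i (fun u => (f1 u, 0)) G (hf1.prodMk measurable_const) hG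
      (fun u u' h => by rw [hloc u u' h])
    rw [h1, h2]
    -- the inner integral
    have h3 : ∀ u : ℕ → ℝ, ∫⁻ v, G (f1 u, 0) v ∂unif =
        ∑' n, (S n).indicator 1 (f1 u) * unif (Qf (cond P (C n)) ⁻¹' A) := by
      intro u
      rw [lintegral_tsum]
      · refine tsum_congr fun n => ?_
        rw [lintegral_const_mul _ (measurable_one.indicator (hWm n)),
          lintegral_indicator_one (hWm n)]
      · intro n
        exact ((measurable_one.indicator (hWm n)).const_mul _).aemeasurable
    rw [lintegral_congr h3]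
    have h4 : ∫⁻ u, ∑' n, (S n).indicator 1 (f1 u) * unif (Qf (cond P (C n)) ⁻¹' A) ∂UU =
        ∫⁻ x, ∑' n, (S n).indicator 1 x * unif (Qf (cond P (C n)) ⁻¹' A) ∂P := by
      rw [← hmap, lintegral_map _ hf1]
      refine Measurable.ennreal_tsum fun n => ?_
      exact (measurable_one.indicator (hSm n)).mul_const _
    rw [h4, lintegral_tsum]
    · have h5 : ∀ n, ∫⁻ x, (S n).indicator 1 x * unif (Qf (cond P (C n)) ⁻¹' A) ∂P =
          P (S n ∩ A) := by
        intro n
        rw [lintegral_mul_const _ (measurable_one.indicator (hSm n)),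
          lintegral_indicator_one (hSm n)]
        by_cases h6 : P (S n) = 0
        · rw [h6, zero_mul]
          exact (measure_mono_null inter_subset_left h6).symm
        · have h7 : (S n).Nonempty := nonempty_of_measure_ne_zero h6
          have h8 : P (C n) ≠ 0 := fun h => h6 (measure_mono_null (hSC n) h)
          haveI : IsProbabilityMeasure (cond P (C n)) := cond_isProbabilityMeasure h8
          obtain ⟨-, h9, h10⟩ := hQ (cond P (C n))
          have h11 : unif (Qf (cond P (C n)) ⁻¹' A) = cond P (C n) A := by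
            rw [← Measure.map_apply h9 hA, h10]
          have h12 : S n = C n := by
            refine Subset.antisymm (hSC n) fun y hy => ?_
            obtain ⟨x, hx⟩ := h7
            obtain ⟨m, hm⟩ := mem_iUnion.1 (hSU ▸ mem_univ y : y ∈ ⋃ n, S n)
            have hxc := hcell n x hx
            have hyc := hcell m y hm
            obtain ⟨r1, r2, r3, -⟩ := hS L i τ hL
            -- the cells of `x` and `y` agree
            have hCC : C m = C n := by
              rw [← hyc]
              exact (cell_eq hS hL (show Same L i τ (D n) y from hy)).symm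
            by_contra hyn
            have hmn : m ≠ n := fun h => hyn (h ▸ hm)
            rcases lt_or_gt_of_ne hmn with hlt | hlt
            · -- `x ∈ S n` and `x ∈ C n = C m`, `m < n`
              have hx2 : x ∈ C m := hCC ▸ hSC n hx
              have : x ∉ S n := by
                rw [hSdef, disjointed_apply]
                intro hx3
                exact hx3.2 (by
                  simp only [Finset.sup_set_eq_biUnion, mem_iUnion, Finset.mem_Iio, exists_prop]
                  exact ⟨m, hlt, hx2⟩)
              exact this hx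
            · have hy2 : y ∈ C n := hy
              have : y ∉ S m := by
                rw [hSdef, disjointed_apply]
                intro hx3
                exact hx3.2 (by
                  simp only [Finset.sup_set_eq_biUnion, mem_iUnion, Finset.mem_Iio, exists_prop]
                  exact ⟨n, hlt, hy2⟩)
              exact this hm
          rw [h11, h12, mul_comm, cond_mul_eq_inter (hCm n)]
      rw [tsum_congr h5, ← measure_iUnion]
      · congr 1
        rw [← iUnion_inter, hSU, univ_inter]
      · intro m n hmn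
        exact (hSd hmn).mono inter_subset_left inter_subset_left
      · exact fun n => (hSm n).inter hA
    · intro n
      exact ((measurable_one.indicator (hSm n)).mul_const _).aemeasurable

theorem main (hQ : TaskQf) (hXM : TaskXMeas) (hIoo : TaskIoo) (hInd : TaskIndep)
    (hS : TaskSame) (hM : TaskMeas) (hC : TaskCount) : Pool.Agent.Q295.PCR.TaskLaw := by
  intro L P _ τ i hL
  have h := law hQ hXM hIoo hInd hS hM hC L P τ hL i
  refine ⟨h, ?_⟩
  have h1 := null_cells hS hC L i P τ hL
  obtain ⟨B, hB, hBm, hB0⟩ := exists_measurable_superset_of_null h1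
  have h2 := h B hBm
  rw [hB0] at h2
  rw [ae_iff]
  refine measure_mono_null ?_ h2
  intro u hu
  have hu' : P (cell L i τ (XX L P τ u i)) = 0 := by simpa using hu
  exact hB hu'

end Pool.Agent.Q295.PCR.TaskLawP
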