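import Pool.Agent.Q295.PCR.Stmts

set_option autoImplicit false

namespace Pool.Agent.Q295.PCR.TaskLevelP

open MeasureTheory Set Filter ProbabilityTheory Topology
open scoped ENNReal
open Pool.Agent.Q295.PCR

theorem dep (L : ℕ) (P : Measure ℝ) (τ : ℝ) (i : ℕ) (u u' : ℕ → ℝ) (h : ∀ n ≤ i, u n = u' n) :
    XX L P τ u i = XX L P τ u' i := by
  induction i with
  | zero => simp only [XX]; rw [h 0 le_rfl]
  | succ i ih => simp only [XX]; rw [ih fun n hn => h n (by omega), h (i + 1) le_rfl]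

theorem main (hQf : TaskQf) (hCond : TaskCond) (hSame : TaskSame) (hSize : TaskSize)
    (hCount : TaskCount) (hMono : TaskMono) (hMeas : TaskMeas) (hXM : TaskXMeas) (hIoo : TaskIoo)
    (hInd : TaskIndep) (hLaw : TaskLaw) : Pool.Agent.Q295.PCR.TaskLevel := by
  classical
  intro q L i P Q _ _ τ γ hpar h1 h2
  have hL : 1 ≤ L := by have := hpar.l3; omega
  obtain ⟨s1, s2, s3, -⟩ := hSame L i τ hL
  obtain ⟨⟨D, hD⟩, -⟩ := hCount L i τ hL
  obtain ⟨m1, m2, m3, m4, m5, m6, m7⟩ := hMeas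
  -- cells
  let C : ℕ → Set ℝ := fun n => if ∃ m < n, Same L i τ (D m) (D n) then ∅ else cell L i τ (D n)
  have hCs : ∀ n x, x ∈ C n → Same L i τ (D n) x ∧ ¬ ∃ m < n, Same L i τ (D m) (D n) := by
    intro n x hx
    by_cases h : ∃ m < n, Same L i τ (D m) (D n)
    · simp only [C, if_pos h] at hx; exact absurd hx (notMem_empty x)
    · simp only [C, if_neg h] at hx; exact ⟨hx, h⟩
  have hCe : ∀ x, ∃ n, x ∈ C n := by
    intro x
    refine ⟨Nat.find (hD x), ?_⟩
    have h : ¬ ∃ m < Nat.find (hD x), Same L i τ (D m) (D (Nat.find (hD x))) := by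
      rintro ⟨m, hm, hs⟩
      exact Nat.find_min (hD x) hm (s3 _ _ _ hs (Nat.find_spec (hD x)))
    simp only [C, if_neg h]
    exact Nat.find_spec (hD x)
  have hCu : ∀ n m x, x ∈ C n → x ∈ C m → n = m := by
    intro n m x hn hm
    obtain ⟨a1, a2⟩ := hCs n x hn
    obtain ⟨b1, b2⟩ := hCs m x hm
    rcases lt_trichotomy n m with h | h | h
    · exact absurd ⟨n, h, s3 _ _ _ a1 (s2 _ _ b1)⟩ b2
    · exact h
    · exact absurd ⟨m, h, s3 _ _ _ b1 (s2 _ _ a1)⟩ a2
  have hCc : ∀ n x, x ∈ C n → C n = cell L i τ x := by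
    intro n x hx
    obtain ⟨a1, a2⟩ := hCs n x hx
    simp only [C, if_neg a2]
    ext y
    exact ⟨fun h => s3 _ _ _ (s2 _ _ a1) h, fun h => s3 _ _ _ a1 h⟩
  have hCm : ∀ n, MeasurableSet (C n) := by
    intro n
    simp only [C]
    split_ifs
    · exact MeasurableSet.empty
    · exact (m7 L i).preimage (f := fun y : ℝ => (τ, D n, y)) (by fun_prop)
  -- measurable versions
  obtain ⟨fP, hfP, eP⟩ := hXM L P i
  obtain ⟨fQ, hfQ, eQ⟩ := hXM L Q i
  let cut : (ℕ → ℝ) → (ℕ → ℝ) := fun u n => if n ≤ i then u n else 1 / 2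
  have hcut : Measurable cut := by
    refine measurable_pi_lambda _ fun n => ?_
    by_cases hn : n ≤ i
    · simp only [cut, if_pos hn]; exact measurable_pi_apply n
    · simp only [cut, if_neg hn]; exact measurable_const
  let Φ : (ℕ → ℝ) → ℝ × ℝ := fun u => (fP τ (cut u), fQ τ (cut u))
  have hΦ : Measurable Φ := by
    have a1 : Measurable fun u : ℕ → ℝ => fP τ (cut u) := hfP.comp (measurable_const.prodMk hcut)
    have a2 : Measurable fun u : ℕ → ℝ => fQ τ (cut u) := hfQ.comp (measurable_const.prodMk hcut)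
    exact a1.prodMk a2
  have hΦd : ∀ u u' : ℕ → ℝ, (∀ n ≤ i, u n = u' n) → Φ u = Φ u' := by
    intro u u' h
    have : cut u = cut u' := by
      funext n
      by_cases hn : n ≤ i
      · simp only [cut, if_pos hn, h n hn]
      · simp only [cut, if_neg hn]
    simp only [Φ, this]
  have hΦe : ∀ᵐ u ∂UU, Φ u = (XX L P τ u i, XX L Q τ u i) := by
    filter_upwards [hIoo] with u hu
    have hc : ∀ n, cut u n ∈ Ioo (0 : ℝ) 1 := by
      intro n
      by_cases hn : n ≤ i
      · simp only [cut, if_pos hn]; exact hu n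
      · simp only [cut, if_neg hn]; constructor <;> norm_num
    have hd : ∀ n ≤ i, cut u n = u n := fun n hn => by simp only [cut, if_pos hn]
    simp only [Φ]
    rw [eP τ (cut u) hc, eQ τ (cut u) hc, dep L P τ i _ _ hd, dep L Q τ i _ _ hd]
  obtain ⟨lP, nP⟩ := hLaw L P τ i hL
  obtain ⟨lQ, nQ⟩ := hLaw L Q τ i hL
  let hn : ℕ → ℝ → ℝ≥0∞ := fun n v =>
    ENNReal.ofReal |hh q L (i + 1) τ (Qf (cond P (C n)) v) - hh q L (i + 1) τ (Qf (cond Q (C n)) v)|
  let T : ℕ → (ℕ → ℝ) → ℝ≥0∞ := fun n u => if P (C n) ≠ 0 ∧ Q (C n) ≠ 0 then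
    (C n ×ˢ C n).indicator 1 (Φ u) * hn n (u (i + 1)) else 0
  have hhm : Measurable fun x : ℝ => hh q L (i + 1) τ x :=
    (m5 q L (i + 1)).comp (measurable_const.prodMk measurable_id)
  have hprob : ∀ (R : Measure ℝ) [IsProbabilityMeasure R] n, R (C n) ≠ 0 →
      IsProbabilityMeasure (cond R (C n)) := fun R _ n h => cond_isProbabilityMeasure h
  have hnm : ∀ n, P (C n) ≠ 0 → Q (C n) ≠ 0 → Measurable (hn n) := by
    intro n hp hq
    have := hprob P n hp
    have := hprob Q n hq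
    have a1 := hhm.comp (hQf (cond P (C n))).2.1
    have a2 := hhm.comp (hQf (cond Q (C n))).2.1
    exact ENNReal.measurable_ofReal.comp ((a1.sub a2).abs)
  have hindm : ∀ n, Measurable ((C n ×ˢ C n).indicator (1 : ℝ × ℝ → ℝ≥0∞)) := fun n =>
    measurable_one.indicator ((hCm n).prod (hCm n))
  have hTm : ∀ n, Measurable (T n) := by
    intro n
    simp only [T]
    by_cases h : P (C n) ≠ 0 ∧ Q (C n) ≠ 0
    · simp only [if_pos h]
      exact ((hindm n).comp hΦ).mul ((hnm n h.1 h.2).comp (measurable_pi_apply (i + 1)))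
    · simp only [if_neg h]; exact measurable_const
  -- step A
  have stepA : (∫⁻ u, (if Same L i τ (XX L P τ u i) (XX L Q τ u i) then
      ENNReal.ofReal |hh q L (i + 1) τ (XX L P τ u (i + 1)) - hh q L (i + 1) τ (XX L Q τ u (i + 1))|
      else 0) ∂UU) ≤ ∫⁻ u, ∑' n, T n u ∂UU := by
    refine lintegral_mono_ae ?_
    filter_upwards [hΦe, nP, nQ] with u hu hp hq
    split_ifs with hs
    · obtain ⟨n, hX⟩ := hCe (XX L P τ u i)
      have hY : XX L Q τ u i ∈ C n := by rw [hCc n _ hX]; exact hs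
      have hcP := hCc n _ hX
      have hcQ := hCc n _ hY
      refine le_trans (le_of_eq ?_) (ENNReal.le_tsum n)
      have hpos : P (C n) ≠ 0 ∧ Q (C n) ≠ 0 := ⟨by rw [hcP]; exact hp, by rw [hcQ]; exact hq⟩
      simp only [T, if_pos hpos, hu]
      rw [indicator_of_mem (show (XX L P τ u i, XX L Q τ u i) ∈ C n ×ˢ C n from ⟨hX, hY⟩)]
      simp only [Pi.one_apply, one_mul, hn]
      show ENNReal.ofReal |hh q L (i + 1) τ (Qf (cond P (cell L i τ (XX L P τ u i))) (u (i + 1))) -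
        hh q L (i + 1) τ (Qf (cond Q (cell L i τ (XX L Q τ u i))) (u (i + 1)))| = _
      rw [← hcP, ← hcQ]
    · exact bot_le
  refine stepA.trans ?_
  rw [lintegral_tsum fun n => (hTm n).aemeasurable]
  -- the bounds
  let R : ℕ → ℝ × ℝ → ℝ≥0∞ := fun n z => (C n ×ˢ C n).indicator
      (fun z => ENNReal.ofReal |hh q L (i + 1) τ z.1 - hh q L (i + 1) τ z.2|) z +
    {z : ℝ × ℝ | ¬ (z.1 ∈ C n ↔ z.2 ∈ C n)}.indicator
      (fun _ => 2 * ENNReal.ofReal (4 * (ms L i τ (D n)) ^ q)) z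
  have hset : ∀ n, MeasurableSet {z : ℝ × ℝ | ¬ (z.1 ∈ C n ↔ z.2 ∈ C n)} := by
    intro n
    have a1 : MeasurableSet {z : ℝ × ℝ | z.1 ∈ C n} := measurable_fst (hCm n)
    have a2 : MeasurableSet {z : ℝ × ℝ | z.2 ∈ C n} := measurable_snd (hCm n)
    have : {z : ℝ × ℝ | ¬ (z.1 ∈ C n ↔ z.2 ∈ C n)} =
      ({z : ℝ × ℝ | z.1 ∈ C n} \ {z | z.2 ∈ C n}) ∪ ({z : ℝ × ℝ | z.2 ∈ C n} \ {z | z.1 ∈ C n}) := by
      ext z; simp only [mem_setOf_eq, mem_union, mem_diff]; tauto
    rw [this]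
    exact (a1.diff a2).union (a2.diff a1)
  have hhz : Measurable fun z : ℝ × ℝ => ENNReal.ofReal |hh q L (i + 1) τ z.1 - hh q L (i + 1) τ z.2| :=
    ENNReal.measurable_ofReal.comp (((hhm.comp measurable_fst).sub (hhm.comp measurable_snd)).abs)
  have hRm : ∀ n, Measurable (R n) := fun n =>
    (hhz.indicator ((hCm n).prod (hCm n))).add (measurable_const.indicator (hset n))
  have hTR : ∀ n, ∫⁻ u, T n u ∂UU ≤ ∫⁻ z, R n z ∂γ := by
    intro n
    by_cases hpos : P (C n) ≠ 0 ∧ Q (C n) ≠ 0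
    swap
    · simp only [T, if_neg hpos, lintegral_zero]; exact bot_le
    have iP := hprob P n hpos.1
    have iQ := hprob Q n hpos.2
    have e1 : ∫⁻ u, T n u ∂UU = ∫⁻ u, ∫⁻ v, (C n ×ˢ C n).indicator (1 : ℝ × ℝ → ℝ≥0∞) (Φ u) * hn n v ∂unif ∂UU := by
      simp only [T, if_pos hpos]
      exact hInd i Φ (fun z v => (C n ×ˢ C n).indicator (1 : ℝ × ℝ → ℝ≥0∞) z * hn n v) hΦ
        (((hindm n).comp measurable_fst).mul ((hnm n hpos.1 hpos.2).comp measurable_snd)) hΦd
    have e2 : ∫⁻ u, T n u ∂UU = UU (Φ ⁻¹' (C n ×ˢ C n)) * ∫⁻ v, hn n v ∂unif := by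
      rw [e1]
      simp_rw [lintegral_const_mul _ (hnm n hpos.1 hpos.2)]
      have hM : Measurable fun u => (C n ×ˢ C n).indicator (1 : ℝ × ℝ → ℝ≥0∞) (Φ u) := (hindm n).comp hΦ
      rw [lintegral_mul_const _ hM]
      congr 1
      have : (fun u => (C n ×ˢ C n).indicator (1 : ℝ × ℝ → ℝ≥0∞) (Φ u)) =
          (Φ ⁻¹' (C n ×ˢ C n)).indicator 1 := by
        funext u; rfl
      rw [this, lintegral_indicator_one (hΦ ((hCm n).prod (hCm n)))]
    have e3 : UU (Φ ⁻¹' (C n ×ˢ C n)) ≤ min (P (C n)) (Q (C n)) := by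
      refine le_min ?_ ?_
      · rw [← lP (C n) (hCm n)]
        refine measure_mono_ae ?_
        filter_upwards [hΦe] with u hu hm
        have hm' : Φ u ∈ C n ×ˢ C n := hm
        rw [hu] at hm'
        exact hm'.1
      · rw [← lQ (C n) (hCm n)]
        refine measure_mono_ae ?_
        filter_upwards [hΦe] with u hu hm
        have hm' : Φ u ∈ C n ×ˢ C n := hm
        rw [hu] at hm'
        exact hm'.2
    obtain ⟨g, hg, hgc, hgb⟩ := hMono q L i τ (D n) hpar
    have hsub : C n ⊆ cell L i τ (D n) := fun x hx => (hCs n x hx).1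
    have hin : ∀ (R : Measure ℝ) [IsProbabilityMeasure R] (_ : IsProbabilityMeasure (cond R (C n))),
        ∀ᵐ v ∂unif, Qf (cond R (C n)) v ∈ C n := by
      intro R _ _
      have a := hQf (cond R (C n))
      have b : (cond R (C n)) (C n)ᶜ = 0 := by
        rw [cond_apply (hCm n)]
        simp
      rw [← a.2.2, Measure.map_apply a.2.1 (hCm n).compl] at b
      rw [ae_iff]
      exact b
    have e4 : ∫⁻ v, hn n v ∂unif =
        ∫⁻ v, ENNReal.ofReal |g (Qf (cond P (C n)) v) - g (Qf (cond Q (C n)) v)| ∂unif := by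
      refine lintegral_congr_ae ?_
      filter_upwards [hin P iP, hin Q iQ] with v hv1 hv2
      simp only [hn]
      rw [hgc _ (hsub hv1), hgc _ (hsub hv2)]
    have e5 := hCond P Q g (C n) (4 * (ms L i τ (D n)) ^ q) γ (hCm n) hg
      (fun x hx y hy => hgb x (hsub hx) y (hsub hy)) hpos.1 hpos.2 h1 h2
    rw [e2, e4]
    refine (mul_le_mul_left e3 _).trans (e5.trans (le_of_eq ?_))
    simp only [R]
    rw [lintegral_add_left (hhz.indicator ((hCm n).prod (hCm n))),
      lintegral_indicator ((hCm n).prod (hCm n)), lintegral_indicator_const (hset n)]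
    congr 1
    refine setLIntegral_congr_fun ((hCm n).prod (hCm n)) fun z hz => ?_
    show ENNReal.ofReal |g z.1 - g z.2| = _
    rw [hgc _ (hsub hz.1), hgc _ (hsub hz.2)]
  refine (ENNReal.tsum_le_tsum hTR).trans ?_
  rw [← lintegral_tsum fun n => (hRm n).aemeasurable]
  refine lintegral_mono fun z => ?_
  obtain ⟨n1, hz1⟩ := hCe z.1
  obtain ⟨n2, hz2⟩ := hCe z.2
  have hms : ∀ n x, x ∈ C n → ms L i τ (D n) = ms L i τ x := fun n x hx =>
    (((hSize L i τ hL).2.1 _ _ (hCs n x hx).1).2).symm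
  show ∑' n, R n z ≤ lev q L i τ z.1 z.2
  unfold lev
  by_cases hnn : n1 = n2
  · subst hnn
    have hs : Same L i τ z.1 z.2 := by
      have : z.2 ∈ cell L i τ z.1 := by rw [← hCc n1 z.1 hz1]; exact hz2
      exact this
    rw [if_pos hs, tsum_eq_single n1]
    · simp only [R]
      rw [indicator_of_mem (show z ∈ C n1 ×ˢ C n1 from ⟨hz1, hz2⟩), indicator_of_notMem, add_zero]
      simp only [mem_setOf_eq, not_not]
      exact ⟨fun _ => hz2, fun _ => hz1⟩
    · intro n hne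
      have a1 : z.1 ∉ C n := fun h => hne (hCu n n1 _ h hz1)
      have a2 : z.2 ∉ C n := fun h => hne (hCu n n1 _ h hz2)
      simp only [R]
      rw [indicator_of_notMem (fun h => a1 h.1), indicator_of_notMem, add_zero]
      simp only [mem_setOf_eq, not_not]
      exact ⟨fun h => absurd h a1, fun h => absurd h a2⟩
  · have hs : ¬ Same L i τ z.1 z.2 := by
      intro h
      have : z.2 ∈ C n1 := by rw [hCc n1 z.1 hz1]; exact h
      exact hnn (hCu n1 n2 _ this hz2)
    rw [if_neg hs, tsum_eq_sum (s := {n1, n2})]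
    · rw [Finset.sum_pair hnn]
      have a1 : z.1 ∉ C n2 := fun h => hnn (hCu n1 n2 _ hz1 h)
      have a2 : z.2 ∉ C n1 := fun h => hnn (hCu n1 n2 _ h hz2)
      simp only [R]
      rw [indicator_of_notMem (s := C n1 ×ˢ C n1) (fun h => a2 h.2),
        indicator_of_notMem (s := C n2 ×ˢ C n2) (fun h => a1 h.1),
        indicator_of_mem (show z ∈ {z : ℝ × ℝ | ¬ (z.1 ∈ C n1 ↔ z.2 ∈ C n1)} from
          fun h => a2 (h.1 hz1)),
        indicator_of_mem (show z ∈ {z : ℝ × ℝ | ¬ (z.1 ∈ C n2 ↔ z.2 ∈ C n2)} from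
          fun h => a1 (h.2 hz2)), hms n1 _ hz1, hms n2 _ hz2, zero_add, zero_add]
      have p1 : 0 ≤ ms L i τ z.1 ^ q := Real.rpow_nonneg ((hSize L i τ hL).2.2 z.1).1 _
      have p2 : 0 ≤ ms L i τ z.2 ^ q := Real.rpow_nonneg ((hSize L i τ hL).2.2 z.2).1 _
      rw [ENNReal.ofReal_mul (by norm_num), ENNReal.ofReal_mul (by norm_num), ENNReal.ofReal_add p1 p2]
      refine le_of_eq ?_
      have : ENNReal.ofReal 4 = 4 := by norm_num
      rw [this]
      ring
    · intro n hne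
      simp only [Finset.mem_insert, Finset.mem_singleton, not_or] at hne
      have a1 : z.1 ∉ C n := fun h => hne.1 (hCu n n1 _ h hz1)
      have a2 : z.2 ∉ C n := fun h => hne.2 (hCu n n2 _ h hz2)
      simp only [R]
      rw [indicator_of_notMem (fun h => a1 h.1), indicator_of_notMem, add_zero]
      simp only [mem_setOf_eq, not_not]
      exact ⟨fun h => absurd h a1, fun h => absurd h a2⟩

end Pool.Agent.Q295.PCR.TaskLevelP
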