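import Pool.Agent.Q295.PCR.Stmts

set_option autoImplicit false

open MeasureTheory Set Filter ProbabilityTheory Topology
open scoped ENNReal

namespace Pool.Agent.Q295.PCR.TaskLevel0P

open Pool.Agent.Q295.PCR

theorem main (hQ : TaskQf) (hW : TaskW1) (hG : TaskGMono) : Pool.Agent.Q295.PCR.TaskLevel0 := by
  intro q L P Q _ _ τ γ hp h1 h2
  have hq : 0 < q := by have := hp.q1; linarith
  have hmono : Monotone (gg q τ) := hG q τ hq
  have hm : Measurable (gg q τ) := hmono.measurable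
  have hmp : MeasurePreserving (fun u : ℕ → ℝ => u 0) UU unif := by
    unfold UU
    exact measurePreserving_eval_infinitePi (fun _ : ℕ => unif) 0
  have hF : Measurable (fun v : ℝ => ENNReal.ofReal |gg q τ (Qf P v) - gg q τ (Qf Q v)|) := by
    have a1 := hm.comp (hQ P).2.1
    have a2 := hm.comp (hQ Q).2.1
    exact ENNReal.measurable_ofReal.comp (a1.sub a2).abs
  calc ∫⁻ u, ENNReal.ofReal |gg q τ (XX L P τ u 0) - gg q τ (XX L Q τ u 0)| ∂UU
      = ∫⁻ u, (fun v : ℝ => ENNReal.ofReal |gg q τ (Qf P v) - gg q τ (Qf Q v)|) (u 0) ∂UU := rfl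
    _ = ∫⁻ v, ENNReal.ofReal |gg q τ (Qf P v) - gg q τ (Qf Q v)| ∂unif := hmp.lintegral_comp hF
    _ ≤ ∫⁻ z, ENNReal.ofReal |gg q τ z.1 - gg q τ z.2| ∂γ := hW P Q (gg q τ) γ hmono h1 h2

end Pool.Agent.Q295.PCR.TaskLevel0P
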