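import Pool.Agent.Q295.PCR.Stmts

set_option autoImplicit false

namespace Pool.Agent.Q295.PCR.TaskLimLawP

open MeasureTheory Set Filter ProbabilityTheory Topology
open scoped ENNReal BoundedContinuousFunction
open Pool.Agent.Q295.PCR

theorem main (hX : Pool.Agent.Q295.PCR.TaskXMeas) (hI : Pool.Agent.Q295.PCR.TaskIoo)
    (hL : Pool.Agent.Q295.PCR.TaskLaw) (hS : Pool.Agent.Q295.PCR.TaskStay)
    (hC : Pool.Agent.Q295.PCR.TaskCauchy) : Pool.Agent.Q295.PCR.TaskLimLaw := by
  intro L P hP τ h4 A hA
  have h1 : 1 ≤ L := by omega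
  have hlim : ∀ᵐ u ∂UU, Tendsto (fun i => XX L P τ u i) atTop (𝓝 (XL L P τ u)) := by
    filter_upwards [hS L P τ h1] with u hu
    obtain ⟨a, ha, _⟩ := hC L τ (fun i => XX L P τ u i) h4 hu
    have : XL L P τ u = a := ha.limsup_eq
    rw [this]
    exact ha
  have hmeas : ∀ i, AEMeasurable (fun u => XX L P τ u i) UU := by
    intro i
    obtain ⟨f, hf, hfe⟩ := hX L P i
    refine ⟨fun u => f τ u, hf.comp (measurable_const.prodMk measurable_id), ?_⟩
    filter_upwards [hI] with u hu
    exact (hfe τ u hu).symm
  have hmXL : AEMeasurable (fun u => XL L P τ u) UU :=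
    aemeasurable_of_tendsto_metrizable_ae atTop hmeas hlim
  have hmap : ∀ i, Measure.map (fun u => XX L P τ u i) UU = P := by
    intro i
    ext B hB
    rw [Measure.map_apply_of_aemeasurable (hmeas i) hB]
    exact (hL L P τ i h1).1 B hB
  have hPm : IsProbabilityMeasure (Measure.map (fun u => XL L P τ u) UU) :=
    Measure.isProbabilityMeasure_map hmXL
  have hfin : Measure.map (fun u => XL L P τ u) UU = P := by
    refine ext_of_forall_integral_eq_of_IsFiniteMeasure (fun f => ?_)
    rw [integral_map hmXL f.continuous.aestronglyMeasurable]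
    have ht : Tendsto (fun i => ∫ u, f (XX L P τ u i) ∂UU) atTop
        (𝓝 (∫ u, f (XL L P τ u) ∂UU)) := by
      refine tendsto_integral_of_dominated_convergence (fun _ => ‖f‖) ?_ (integrable_const _) ?_ ?_
      · intro i
        exact (f.continuous.measurable.comp_aemeasurable (hmeas i)).aestronglyMeasurable
      · intro i
        exact Eventually.of_forall (fun u => f.norm_coe_le_norm _)
      · filter_upwards [hlim] with u hu
        exact (f.continuous.tendsto _).comp hu
    have hconst : ∀ i, ∫ u, f (XX L P τ u i) ∂UU = ∫ x, f x ∂P := by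
      intro i
      conv_rhs => rw [← hmap i]
      rw [integral_map (hmeas i) f.continuous.aestronglyMeasurable]
    simp only [hconst] at ht
    exact tendsto_nhds_unique ht tendsto_const_nhds |>.symm ▸ rfl
  have := Measure.map_apply_of_aemeasurable hmXL hA
  rw [hfin] at this
  exact this.symm

end Pool.Agent.Q295.PCR.TaskLimLawP
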