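import Pool.Agent.Q295.PCR.Stmts

set_option autoImplicit false

open MeasureTheory Set Filter ProbabilityTheory Topology
open scoped ENNReal

namespace Pool.Agent.Q295.PCR.TaskMeasP

lemma m_sign : Measurable fun x : ℝ => ((SignType.sign x : SignType) : ℝ) := by
  have h : (fun x : ℝ => ((SignType.sign x : SignType) : ℝ)) =
      fun x : ℝ => if 0 < x then (1 : ℝ) else if x < 0 then -1 else 0 := by
    funext x
    rcases lt_trichotomy x 0 with h | h | h
    · rw [sign_neg h, if_neg (not_lt.2 h.le), if_pos h]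
      simp
    · subst h
      simp
    · rw [sign_pos h, if_pos h]
      simp
  rw [h]
  exact Measurable.ite measurableSet_Ioi measurable_const
    (Measurable.ite measurableSet_Iio measurable_const measurable_const)

lemma sign_eq (x y : ℝ) : SignType.sign x = SignType.sign y ↔
    ((SignType.sign x : SignType) : ℝ) = ((SignType.sign y : SignType) : ℝ) := by
  constructor
  · intro h
    rw [h]
  · generalize SignType.sign x = a
    generalize SignType.sign y = b
    intro h
    cases a <;> cases b <;> first | rfl | (norm_num at h)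

lemma m_cast {α : Type*} [MeasurableSpace α] {f : α → ℤ} (hf : Measurable f) :
    Measurable fun x => (f x : ℝ) := (measurable_from_top (f := fun n : ℤ => (n : ℝ))).comp hf

lemma m_jj : Measurable fun z : ℝ × ℝ => (jj z.1 z.2 : ℤ) := by
  unfold jj
  apply Measurable.floor
  apply Measurable.sub _ measurable_fst
  unfold Real.logb
  exact (Real.measurable_log.comp (measurable_snd.abs)).div_const _

lemma m_bs : Measurable fun z : ℝ × ℝ => bs z.1 z.2 := by
  unfold bs
  exact measurable_const.pow ((m_cast m_jj).add measurable_fst)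

lemma m_kk (L i : ℕ) : Measurable fun z : ℝ × ℝ => (kk L i z.1 z.2 : ℤ) := by
  unfold kk
  apply Measurable.floor
  exact (measurable_snd.abs.div m_bs).mul_const _

lemma m_ms (L i : ℕ) : Measurable fun z : ℝ × ℝ => ms L i z.1 z.2 := by
  unfold ms
  exact Measurable.ite (measurableSet_eq_fun measurable_snd measurable_const) measurable_const
    (m_bs.div_const _)

lemma m_hh (q : ℝ) (L i : ℕ) : Measurable fun z : ℝ × ℝ => hh q L i z.1 z.2 := by
  unfold hh
  exact ((m_sign.comp measurable_snd).mul ((m_ms L i).pow_const q)).mul (m_cast (m_kk L i))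

lemma m_gg (q : ℝ) : Measurable fun z : ℝ × ℝ => gg q z.1 z.2 := by
  unfold gg
  exact Measurable.ite (measurableSet_eq_fun measurable_snd measurable_const) measurable_const
    (((m_sign.comp measurable_snd).mul_const _).mul (m_bs.pow_const q))

theorem main : Pool.Agent.Q295.PCR.TaskMeas := by
  refine ⟨m_jj, m_bs, m_kk, m_ms, m_hh, m_gg, ?_⟩
  intro L i
  have hx : Measurable fun z : ℝ × ℝ × ℝ => (z.1, z.2.1) :=
    measurable_fst.prodMk (measurable_fst.comp measurable_snd)
  have hy : Measurable fun z : ℝ × ℝ × ℝ => (z.1, z.2.2) :=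
    measurable_fst.prodMk (measurable_snd.comp measurable_snd)
  have h1 : MeasurableSet {z : ℝ × ℝ × ℝ | SignType.sign z.2.1 = SignType.sign z.2.2} := by
    have : {z : ℝ × ℝ × ℝ | SignType.sign z.2.1 = SignType.sign z.2.2} =
        {z : ℝ × ℝ × ℝ | ((SignType.sign z.2.1 : SignType) : ℝ) =
          ((SignType.sign z.2.2 : SignType) : ℝ)} := by
      ext z
      exact sign_eq _ _
    rw [this]
    exact measurableSet_eq_fun (m_sign.comp (measurable_fst.comp measurable_snd))
      (m_sign.comp (measurable_snd.comp measurable_snd))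
  have h2 : MeasurableSet {z : ℝ × ℝ × ℝ | z.2.1 = 0} :=
    measurableSet_eq_fun (measurable_fst.comp measurable_snd) measurable_const
  have h3 : MeasurableSet {z : ℝ × ℝ × ℝ | jj z.1 z.2.1 = jj z.1 z.2.2} := by
    have : {z : ℝ × ℝ × ℝ | jj z.1 z.2.1 = jj z.1 z.2.2} =
        {z : ℝ × ℝ × ℝ | ((jj z.1 z.2.1 : ℤ) : ℝ) = ((jj z.1 z.2.2 : ℤ) : ℝ)} := by
      ext z
      exact Int.cast_inj.symm
    rw [this]
    exact measurableSet_eq_fun (m_cast (m_jj.comp hx)) (m_cast (m_jj.comp hy))
  have h4 : MeasurableSet {z : ℝ × ℝ × ℝ | kk L i z.1 z.2.1 = kk L i z.1 z.2.2} := by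
    have : {z : ℝ × ℝ × ℝ | kk L i z.1 z.2.1 = kk L i z.1 z.2.2} =
        {z : ℝ × ℝ × ℝ | ((kk L i z.1 z.2.1 : ℤ) : ℝ) = ((kk L i z.1 z.2.2 : ℤ) : ℝ)} := by
      ext z
      exact Int.cast_inj.symm
    rw [this]
    exact measurableSet_eq_fun (m_cast ((m_kk L i).comp hx)) (m_cast ((m_kk L i).comp hy))
  have h5 : {z : ℝ × ℝ × ℝ | Same L i z.1 z.2.1 z.2.2} =
      {z : ℝ × ℝ × ℝ | SignType.sign z.2.1 = SignType.sign z.2.2} ∩
        ({z : ℝ × ℝ × ℝ | z.2.1 = 0} ∪ ({z : ℝ × ℝ × ℝ | jj z.1 z.2.1 = jj z.1 z.2.2} ∩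
          {z : ℝ × ℝ × ℝ | kk L i z.1 z.2.1 = kk L i z.1 z.2.2})) := by
    ext z
    simp only [Same, Set.mem_setOf_eq, Set.mem_inter_iff, Set.mem_union]
    constructor
    · rintro ⟨ha, hb⟩
      refine ⟨ha, ?_⟩
      by_cases h0 : z.2.1 = 0
      · exact Or.inl h0
      · exact Or.inr (hb h0)
    · rintro ⟨ha, hb⟩
      refine ⟨ha, fun h0 => ?_⟩
      rcases hb with hb | hb
      · exact absurd hb h0
      · exact hb
  rw [h5]
  exact h1.inter (h2.union (h3.inter h4))

end Pool.Agent.Q295.PCR.TaskMeasP
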