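import Pool.Agent.Q295.PCR.Stmts

set_option autoImplicit false

namespace Pool.Agent.Q295.PCR.TaskMirrorP

open Pool.Agent.Q295.PCR

theorem jj_neg (τ x : ℝ) : jj τ (-x) = jj τ x := by
  unfold jj; rw [abs_neg]

theorem bs_neg (τ x : ℝ) : bs τ (-x) = bs τ x := by
  unfold bs; rw [jj_neg]

theorem kk_neg (L i : ℕ) (τ x : ℝ) : kk L i τ (-x) = kk L i τ x := by
  unfold kk; rw [bs_neg, abs_neg]

theorem ms_neg (L i : ℕ) (τ x : ℝ) : ms L i τ (-x) = ms L i τ x := by
  unfold ms
  rw [bs_neg]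
  by_cases h : x = 0
  · simp [h]
  · rw [if_neg h, if_neg (neg_ne_zero.mpr h)]

theorem hh_neg (q : ℝ) (L i : ℕ) (τ x : ℝ) : hh q L i τ (-x) = - hh q L i τ x := by
  unfold hh
  rw [ms_neg, kk_neg]
  have : ((SignType.sign (-x) : SignType) : ℝ) = - ((SignType.sign x : SignType) : ℝ) := by
    rw [Left.sign_neg]
    rcases SignType.sign x with _ | _ | _ <;> simp
  rw [this]
  ring

theorem same_neg (L i : ℕ) (τ x y : ℝ) : Same L i τ (-x) (-y) ↔ Same L i τ x y := by
  unfold Same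
  rw [Left.sign_neg, Left.sign_neg, jj_neg, jj_neg, kk_neg, kk_neg, neg_inj, neg_ne_zero]

theorem same_symm (L i : ℕ) (τ x y : ℝ) (h : Same L i τ x y) : Same L i τ y x := by
  obtain ⟨h1, h2⟩ := h
  refine ⟨h1.symm, fun hy => ?_⟩
  have hx : x ≠ 0 := by
    rintro rfl
    rw [sign_zero] at h1
    exact hy (sign_eq_zero_iff.mp h1.symm)
  exact ⟨(h2 hx).1.symm, (h2 hx).2.symm⟩

theorem main : Pool.Agent.Q295.PCR.TaskMirror := by
  intro q L i τ x y
  classical
  constructor
  · unfold lev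
    by_cases hs : Same L i τ x y
    · rw [if_pos hs, if_pos ((same_neg L i τ x y).mpr hs), hh_neg, hh_neg]
      congr 1
      rw [← abs_neg]
      congr 1
      ring
    · rw [if_neg hs, if_neg (fun h => hs ((same_neg L i τ x y).mp h)), ms_neg, ms_neg]
  · unfold lev
    by_cases hs : Same L i τ x y
    · rw [if_pos hs, if_pos (same_symm L i τ x y hs), abs_sub_comm]
    · rw [if_neg hs, if_neg (fun h => hs (same_symm L i τ y x h)), add_comm]

end Pool.Agent.Q295.PCR.TaskMirrorP
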