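import Pool.Agent.Q295.PCR.Stmts

set_option autoImplicit false

namespace Pool.Agent.Q295.PCR.TaskMonoP

open Pool.Agent.Q295.PCR

theorem main : Pool.Agent.Q295.PCR.TaskMono := by
  intro q L i τ x hP
  have hL : (0 : ℝ) < L := by
    have h : (4 : ℝ) ≤ L := by exact_mod_cast hP.l3
    linarith
  by_cases hx : x = 0
  · refine ⟨fun _ => 0, monotone_const, ?_, ?_⟩
    · intro y hy
      have h1 : Same L i τ x y := hy
      have h2 := h1.1
      rw [hx, sign_zero] at h2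
      have hy0 : y = 0 := sign_eq_zero_iff.1 h2.symm
      simp [hh, hy0]
    · intro y _ z _
      simp only [sub_self, abs_zero]
      have : 0 ≤ ms L i τ x := by simp [ms, hx]
      positivity
  · set B := bs τ x with hB
    have hBpos : 0 < B := by simp only [hB, bs]; positivity
    set s : ℝ := (SignType.sign x : ℝ) with hs
    have hs1 : s = 1 ∨ s = -1 := by
      rcases lt_or_gt_of_ne hx with h | h
      · right; simp [hs, sign_neg h]
      · left; simp [hs, sign_pos h]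
    have hss : s * s = 1 := by rcases hs1 with h | h <;> rw [h] <;> norm_num
    have habs : |s| = 1 := by rcases hs1 with h | h <;> rw [h] <;> norm_num
    set m' : ℝ := B / (L : ℝ) ^ (i + 1) with hm'
    have hm'pos : 0 < m' := by positivity
    -- facts about the elements of the cell
    have hcell : ∀ y ∈ cell L i τ x, y ≠ 0 ∧ (SignType.sign y : ℝ) = s ∧ bs τ y = B ∧
        kk L i τ y = kk L i τ x ∧ |y| = s * y := by
      intro y hy
      have h1 : Same L i τ x y := hy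
      obtain ⟨h2, h3⟩ := h1
      obtain ⟨h4, h5⟩ := h3 hx
      have hy0 : y ≠ 0 := by
        rintro rfl
        rw [sign_zero] at h2
        exact hx (sign_eq_zero_iff.1 h2)
      have h6 : (SignType.sign y : ℝ) = s := by rw [hs, h2]
      refine ⟨hy0, h6, ?_, h5.symm, ?_⟩
      · simp only [hB, bs, h4]
      · rw [← h6]
        exact (sign_mul_self y).symm
    refine ⟨fun t => s * m' ^ q * (⌊s * t / B * (L : ℝ) ^ (i + 1)⌋ : ℤ), ?_, ?_, ?_⟩
    · intro t t' htt
      simp only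
      have hq0 : 0 ≤ m' ^ q := by positivity
      rcases hs1 with h | h
      · rw [h]
        have h7 : ⌊1 * t / B * (L : ℝ) ^ (i + 1)⌋ ≤ ⌊1 * t' / B * (L : ℝ) ^ (i + 1)⌋ := by
          apply Int.floor_le_floor
          gcongr
        have h8 : ((⌊1 * t / B * (L : ℝ) ^ (i + 1)⌋ : ℤ) : ℝ) ≤
            ((⌊1 * t' / B * (L : ℝ) ^ (i + 1)⌋ : ℤ) : ℝ) := by exact_mod_cast h7
        nlinarith
      · rw [h]
        have h7 : ⌊-1 * t' / B * (L : ℝ) ^ (i + 1)⌋ ≤ ⌊-1 * t / B * (L : ℝ) ^ (i + 1)⌋ := by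
          apply Int.floor_le_floor
          have : -1 * t' ≤ -1 * t := by linarith
          gcongr
        have h8 : ((⌊-1 * t' / B * (L : ℝ) ^ (i + 1)⌋ : ℤ) : ℝ) ≤
            ((⌊-1 * t / B * (L : ℝ) ^ (i + 1)⌋ : ℤ) : ℝ) := by exact_mod_cast h7
        nlinarith
    · intro y hy
      obtain ⟨hy0, h1, h2, h3, h4⟩ := hcell y hy
      simp only [hh, ms, if_neg hy0, kk, h1, h2, h4]
      rfl
    · intro y hy z hz
      obtain ⟨hy0, h1, h2, h3, h4⟩ := hcell y hy
      obtain ⟨hz0, g1, g2, g3, g4⟩ := hcell z hz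
      simp only
      have hkey : ∀ w ∈ cell L i τ x, ((kk L i τ x : ℤ) : ℝ) * L ≤
          ((⌊s * w / B * (L : ℝ) ^ (i + 1)⌋ : ℤ) : ℝ) ∧
          ((⌊s * w / B * (L : ℝ) ^ (i + 1)⌋ : ℤ) : ℝ) ≤ ((kk L i τ x : ℤ) : ℝ) * L + L := by
        intro w hw
        obtain ⟨hw0, w1, w2, w3, w4⟩ := hcell w hw
        have e1 : kk L i τ x = ⌊s * w / B * (L : ℝ) ^ i⌋ := by
          rw [← w3, kk, w2, w4]
        have e2 : ((kk L i τ x : ℤ) : ℝ) ≤ s * w / B * (L : ℝ) ^ i := by
          rw [e1]; exact Int.floor_le _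
        have e3 : s * w / B * (L : ℝ) ^ i < ((kk L i τ x : ℤ) : ℝ) + 1 := by
          rw [e1]; exact Int.lt_floor_add_one _
        have e4 : s * w / B * (L : ℝ) ^ (i + 1) = s * w / B * (L : ℝ) ^ i * L := by
          rw [pow_succ]; ring
        constructor
        · have e5 : ((kk L i τ x * (L : ℤ) : ℤ) : ℝ) ≤ s * w / B * (L : ℝ) ^ (i + 1) := by
            rw [e4]
            push_cast
            exact mul_le_mul_of_nonneg_right e2 hL.le
          have e6 : kk L i τ x * (L : ℤ) ≤ ⌊s * w / B * (L : ℝ) ^ (i + 1)⌋ := Int.le_floor.2 e5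
          have e7 : ((kk L i τ x * (L : ℤ) : ℤ) : ℝ) ≤
              ((⌊s * w / B * (L : ℝ) ^ (i + 1)⌋ : ℤ) : ℝ) := by exact_mod_cast e6
          push_cast at e7
          exact e7
        · have e5 := Int.floor_le (s * w / B * (L : ℝ) ^ (i + 1))
          have e6 : s * w / B * (L : ℝ) ^ (i + 1) ≤ (((kk L i τ x : ℤ) : ℝ) + 1) * L := by
            rw [e4]
            exact mul_le_mul_of_nonneg_right e3.le hL.le
          linarith
      obtain ⟨a1, a2⟩ := hkey y hy
      obtain ⟨b1, b2⟩ := hkey z hz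
      have hdiff : |((⌊s * y / B * (L : ℝ) ^ (i + 1)⌋ : ℤ) : ℝ) -
          ((⌊s * z / B * (L : ℝ) ^ (i + 1)⌋ : ℤ) : ℝ)| ≤ L := by
        rw [abs_le]
        constructor <;> linarith
      have hfac : s * m' ^ q * ((⌊s * y / B * (L : ℝ) ^ (i + 1)⌋ : ℤ) : ℝ) -
          s * m' ^ q * ((⌊s * z / B * (L : ℝ) ^ (i + 1)⌋ : ℤ) : ℝ) =
          s * (m' ^ q * (((⌊s * y / B * (L : ℝ) ^ (i + 1)⌋ : ℤ) : ℝ) -
          ((⌊s * z / B * (L : ℝ) ^ (i + 1)⌋ : ℤ) : ℝ))) := by ring
      have hq0 : 0 ≤ m' ^ q := by positivity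
      rw [hfac, abs_mul, habs, one_mul, abs_mul, abs_of_nonneg hq0]
      have hms : ms L i τ x = m' * L := by
        rw [ms, if_neg hx, hm', pow_succ]
        field_simp
        rfl
      have hmsq : (ms L i τ x) ^ q = m' ^ q * (L : ℝ) ^ q := by
        rw [hms, Real.mul_rpow hm'pos.le hL.le]
      have hLq : (L : ℝ) = (L : ℝ) ^ q * (L : ℝ) ^ (1 - q) := by
        rw [← Real.rpow_add hL]
        norm_num
      calc m' ^ q * |((⌊s * y / B * (L : ℝ) ^ (i + 1)⌋ : ℤ) : ℝ) -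
          ((⌊s * z / B * (L : ℝ) ^ (i + 1)⌋ : ℤ) : ℝ)| ≤ m' ^ q * L := by gcongr
        _ = m' ^ q * ((L : ℝ) ^ q * (L : ℝ) ^ (1 - q)) := by rw [← hLq]
        _ ≤ m' ^ q * ((L : ℝ) ^ q * 4) := by
            have := hP.l2
            gcongr
        _ = 4 * (ms L i τ x) ^ q := by rw [hmsq]; ring

end Pool.Agent.Q295.PCR.TaskMonoP
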