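import Pool.Agent.Q295.PCR.Stmts

set_option autoImplicit false

namespace Pool.Agent.Q295.PCR.TaskPairP

open MeasureTheory Set Filter ProbabilityTheory Topology
open scoped ENNReal
open Pool.Agent.Q295.PCR

theorem ae_Ioo : ∀ᵐ u ∂unif, u ∈ Ioo (0 : ℝ) 1 := by
  unfold unif
  rw [Measure.restrict_congr_set (Ioo_ae_eq_Icc (μ := volume) (a := (0 : ℝ)) (b := 1)).symm]
  exact ae_restrict_mem measurableSet_Ioo

theorem mono (μ : Measure ℝ)
    (h : ∀ u ∈ Ioo (0 : ℝ) 1, ∀ x, Qf μ u ≤ x ↔ u ≤ μ.real (Iic x)) (u v : ℝ)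
    (hu : u ∈ Ioo (0 : ℝ) 1) (hv : v ∈ Ioo (0 : ℝ) 1) (huv : u ≤ v) : Qf μ u ≤ Qf μ v :=
  (h u hu _).2 (huv.trans ((h v hv _).1 (le_refl _)))

theorem aux (hQ : TaskQf) (μ ν : Measure ℝ) [IsProbabilityMeasure μ] [IsProbabilityMeasure ν]
    (U : Set ℝ) (hU : IsUpperSet U)
    (hsub : ∀ u ∈ Ioo (0 : ℝ) 1, Qf μ u ∈ U → Qf ν u ∈ U) :
    unif {u | ¬ (Qf μ u ∈ U ↔ Qf ν u ∈ U)} ≤ ENNReal.ofReal |μ.real U - ν.real U| := by
  obtain ⟨hμ1, hμ2, hμ3⟩ := hQ μ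
  obtain ⟨hν1, hν2, hν3⟩ := hQ ν
  have hUm : MeasurableSet U := hU.ordConnected.measurableSet
  set A' : Set ℝ := {u | u ∈ Ioo (0 : ℝ) 1 ∧ Qf μ u ∈ U} with hA'
  set B' : Set ℝ := {u | u ∈ Ioo (0 : ℝ) 1 ∧ Qf ν u ∈ U} with hB'
  have hAm : MeasurableSet A' := measurableSet_Ioo.inter (hμ2 hUm)
  have hA : unif A' = μ U := by
    have h1 : unif (Qf μ ⁻¹' U) = μ U := by
      rw [← Measure.map_apply hμ2 hUm, hμ3]
    rw [← h1]
    apply measure_congr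
    filter_upwards [ae_Ioo] with u hu
    exact propext ⟨fun h => h.2, fun h => ⟨hu, h⟩⟩
  have hB : unif B' = ν U := by
    have h1 : unif (Qf ν ⁻¹' U) = ν U := by
      rw [← Measure.map_apply hν2 hUm, hν3]
    rw [← h1]
    apply measure_congr
    filter_upwards [ae_Ioo] with u hu
    exact propext ⟨fun h => h.2, fun h => ⟨hu, h⟩⟩
  have hAB : A' ⊆ B' := fun u hu => ⟨hu.1, hsub u hu.1 hu.2⟩
  have h1 : unif {u | ¬ (Qf μ u ∈ U ↔ Qf ν u ∈ U)} ≤ unif (B' \ A') := by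
    apply measure_mono_ae
    filter_upwards [ae_Ioo] with u hu
    intro h
    have h' : ¬ (Qf μ u ∈ U ↔ Qf ν u ∈ U) := h
    by_cases ha : Qf μ u ∈ U
    · exact absurd ⟨fun _ => hsub u hu ha, fun _ => ha⟩ h'
    · by_cases hb : Qf ν u ∈ U
      · exact ⟨⟨hu, hb⟩, fun hc => ha hc.2⟩
      · exact absurd ⟨fun hc => absurd hc ha, fun hc => absurd hc hb⟩ h'
  have h2 : unif (B' \ A') = ν U - μ U := by
    rw [measure_diff hAB hAm.nullMeasurableSet (measure_ne_top _ _), hA, hB]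
  refine h1.trans ?_
  rw [h2, ← ofReal_measureReal (μ := ν) (s := U), ← ofReal_measureReal (μ := μ) (s := U),
    ← ENNReal.ofReal_sub _ measureReal_nonneg]
  apply ENNReal.ofReal_le_ofReal
  rw [abs_sub_comm]
  exact le_abs_self _

theorem main (hQ : TaskQf) : Pool.Agent.Q295.PCR.TaskPair := by
  intro μ ν _ _ U hU
  by_cases h : ∀ u ∈ Ioo (0 : ℝ) 1, Qf μ u ∈ U → Qf ν u ∈ U
  · exact aux hQ μ ν U hU h
  · push Not at h
    obtain ⟨u0, hu0, h1, h2⟩ := h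
    have h3 : ∀ v ∈ Ioo (0 : ℝ) 1, Qf ν v ∈ U → Qf μ v ∈ U := by
      intro v hv hvU
      rcases le_total v u0 with h | h
      · exact absurd (hU (mono ν (hQ ν).1 v u0 hv hu0 h) hvU) h2
      · exact hU (mono μ (hQ μ).1 u0 v hu0 hv h) h1
    have h4 := aux hQ ν μ U hU h3
    rw [abs_sub_comm] at h4
    refine le_trans (le_of_eq ?_) h4
    congr 1
    ext u
    exact not_congr ⟨fun h => h.symm, fun h => h.symm⟩

end Pool.Agent.Q295.PCR.TaskPairP
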