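import Pool.Agent.Q295.PCR.Stmts

/-! `TaskPath` of the blueprint for `MP_ee92c9_pr` (helper7). -/

set_option autoImplicit false

namespace Pool.Agent.Q295.PCR.TaskPathP

open MeasureTheory Set Filter ProbabilityTheory Topology Pool.Agent.Q295.PCR
open scoped ENNReal

private theorem bs_pos (τ x : ℝ) : 0 < bs τ x := by
  unfold bs; positivity

private theorem Kpos {q : ℝ} (hq : 0 < q) : 0 < 1 - (2:ℝ) ^ (-q) ∧ 1 - (2:ℝ) ^ (-q) ≤ 1 := by
  have h1 : (2:ℝ) ^ (-q) < 1 := Real.rpow_lt_one_of_one_lt_of_neg (by norm_num) (by linarith)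
  have h2 : 0 < (2:ℝ) ^ (-q) := by positivity
  constructor <;> linarith

private theorem Kge {q : ℝ} (hq : 0 < q) : (2:ℝ) ^ q ≤ (2:ℝ) ^ q / (1 - (2:ℝ) ^ (-q)) := by
  obtain ⟨h1, h2⟩ := Kpos hq
  rw [le_div_iff₀ h1]
  have : (0:ℝ) < 2 ^ q := by positivity
  nlinarith

private theorem rb {q : ℝ} (hq : 0 < q) (c β : ℝ) (hβ : 0 < β) (h : |c| ≤ 2 * β) :
    |c| ^ q ≤ (2:ℝ) ^ q * β ^ q := by
  rw [← Real.mul_rpow (by norm_num) hβ.le]
  exact Real.rpow_le_rpow (abs_nonneg _) h hq.le

private theorem sgn_cases {u : ℝ} (hu : u ≠ 0) :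
    ((SignType.sign u : ℝ) = 1) ∨ ((SignType.sign u : ℝ) = -1) := by
  rcases lt_or_gt_of_ne hu with h | h
  · right; simp [sign_neg h]
  · left; simp [sign_pos h]

private theorem keyLt {q τ : ℝ} (hq : 0 < q) (u v a b : ℝ) (hu : u ≠ 0) (hv : v ≠ 0)
    (hs : (SignType.sign u : ℝ) = SignType.sign v) (hj : jj τ u < jj τ v)
    (ha : |a| ≤ 2 * bs τ u) (hb : |b| ≤ 2 * bs τ v)
    (hsa : (SignType.sign u : ℝ) * a = |a|) (hsb : (SignType.sign v : ℝ) * b = |b|) :
    |a - b| ^ q ≤ |gg q τ u - gg q τ v| := by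
  have hbs : 2 * bs τ u ≤ bs τ v := by
    unfold bs
    have h1 : ((jj τ u : ℝ) + τ) + 1 ≤ (jj τ v : ℝ) + τ := by
      have : (jj τ u : ℝ) + 1 ≤ jj τ v := by exact_mod_cast hj
      linarith
    have h2 : (2:ℝ) ^ (((jj τ u : ℝ) + τ) + 1) ≤ 2 ^ ((jj τ v : ℝ) + τ) :=
      Real.rpow_le_rpow_of_exponent_le (by norm_num) h1
    rw [Real.rpow_add (by norm_num), Real.rpow_one] at h2
    linarith
  have pu := bs_pos τ u
  have pv := bs_pos τ v
  have hab : |a - b| = abs (|a| - |b|) := by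
    rw [← hsa, ← hsb, hs, ← mul_sub, abs_mul]
    rcases sgn_cases hv with h | h <;> rw [h] <;> simp
  have hle : |a - b| ≤ 2 * bs τ v := by
    rw [hab, abs_le]
    have := abs_nonneg a
    have := abs_nonneg b
    constructor <;> linarith
  have h1 : |a - b| ^ q ≤ (2:ℝ) ^ q * (bs τ v) ^ q := by
    rw [← Real.mul_rpow (by norm_num) pv.le]
    exact Real.rpow_le_rpow (abs_nonneg _) hle hq.le
  obtain ⟨k1, k2⟩ := Kpos hq
  set K : ℝ := (2:ℝ) ^ q / (1 - (2:ℝ) ^ (-q)) with hK
  have hK0 : 0 < K := by positivity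
  have hB : (bs τ u) ^ q ≤ (2:ℝ) ^ (-q) * (bs τ v) ^ q := by
    have h2 : bs τ u ≤ 2⁻¹ * bs τ v := by linarith
    have h3 := Real.rpow_le_rpow pu.le h2 hq.le
    rw [Real.mul_rpow (by norm_num) pv.le, Real.inv_rpow (by norm_num), ← Real.rpow_neg (by norm_num)] at h3
    exact h3
  have e : |gg q τ u - gg q τ v| = K * ((bs τ v) ^ q - (bs τ u) ^ q) := by
    unfold gg
    rw [if_neg hu, if_neg hv, hs]
    have hnn : 0 ≤ (bs τ v) ^ q - (bs τ u) ^ q := by
      have : (bs τ u) ^ q ≤ (bs τ v) ^ q := Real.rpow_le_rpow pu.le (by linarith) hq.le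
      linarith
    rcases sgn_cases hv with h | h
    · rw [h, one_mul, ← mul_sub, abs_mul, abs_of_pos hK0, abs_sub_comm, abs_of_nonneg hnn]
    · rw [h]
      have : -1 * K * (bs τ u) ^ q - -1 * K * (bs τ v) ^ q = K * ((bs τ v) ^ q - (bs τ u) ^ q) := by ring
      rw [this, abs_of_nonneg (mul_nonneg hK0.le hnn)]
  rw [e]
  refine h1.trans ?_
  have hv0 : 0 < (bs τ v) ^ q := by positivity
  have h4 : K * (1 - (2:ℝ) ^ (-q)) = (2:ℝ) ^ q := by
    rw [hK]; field_simp
  calc (2:ℝ) ^ q * (bs τ v) ^ q = K * ((1 - (2:ℝ) ^ (-q)) * (bs τ v) ^ q) := by rw [← h4]; ring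
    _ ≤ K * ((bs τ v) ^ q - (bs τ u) ^ q) := by
        apply mul_le_mul_of_nonneg_left _ hK0.le
        linarith

private theorem ggabs {q τ : ℝ} (hq : 0 < q) (v : ℝ) (hv : v ≠ 0) :
    |gg q τ v| = (2:ℝ) ^ q / (1 - (2:ℝ) ^ (-q)) * (bs τ v) ^ q := by
  obtain ⟨k1, k2⟩ := Kpos hq
  have pv := bs_pos τ v
  unfold gg
  rw [if_neg hv]
  rcases sgn_cases hv with h | h
  · rw [h, one_mul, abs_of_nonneg (by positivity)]
  · rw [h]
    have : -1 * ((2:ℝ) ^ q / (1 - (2:ℝ) ^ (-q))) * (bs τ v) ^ q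
        = -((2:ℝ) ^ q / (1 - (2:ℝ) ^ (-q)) * (bs τ v) ^ q) := by ring
    rw [this, abs_neg, abs_of_nonneg (by positivity)]

private theorem key {q τ : ℝ} {L : ℕ} (hZ : TaskSize) (hL : 1 ≤ L) (hq : 0 < q) (hq1 : q < 1) (u v a b : ℝ)
    (hn : ¬ Same L 0 τ u v)
    (ha : |a| ≤ 2 * bs τ u) (hb : |b| ≤ 2 * bs τ v) (ha0 : u = 0 → a = 0) (hb0 : v = 0 → b = 0)
    (hsa : (SignType.sign u : ℝ) * a = |a|) (hsb : (SignType.sign v : ℝ) * b = |b|) :
    |a - b| ^ q ≤ |gg q τ u - gg q τ v| := by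
  have pu := bs_pos τ u
  have pv := bs_pos τ v
  by_cases hu : u = 0
  · by_cases hv : v = 0
    · exact absurd (by rw [hu, hv]; exact ⟨rfl, fun h => absurd rfl h⟩) hn
    · rw [ha0 hu, zero_sub, abs_neg]
      have e : gg q τ u = 0 := by unfold gg; rw [if_pos hu]
      rw [e, zero_sub, abs_neg, ggabs hq v hv]
      refine (rb hq b _ pv hb).trans ?_
      exact mul_le_mul_of_nonneg_right (Kge hq) (by positivity)
  · by_cases hv : v = 0
    · rw [hb0 hv, sub_zero]
      have e : gg q τ v = 0 := by unfold gg; rw [if_pos hv]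
      rw [e, sub_zero, ggabs hq u hu]
      refine (rb hq a _ pu ha).trans ?_
      exact mul_le_mul_of_nonneg_right (Kge hq) (by positivity)
    · by_cases hs : (SignType.sign u) = SignType.sign v
      · have hs' : (SignType.sign u : ℝ) = SignType.sign v := by rw [hs]
        have hjne : jj τ u ≠ jj τ v := by
          intro hj
          apply hn
          refine ⟨hs, fun _ => ⟨hj, ?_⟩⟩
          have hk : ∀ w : ℝ, w ≠ 0 → kk L 0 τ w = 1 := by
            intro w hw
            have h1 := (hZ L 0 τ hL).1 w hw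
            have pw := bs_pos τ w
            unfold kk
            rw [pow_zero, mul_one, Int.floor_eq_iff]
            constructor
            · rw [le_div_iff₀ pw]; push_cast; linarith [h1.1]
            · rw [div_lt_iff₀ pw]; push_cast; linarith [h1.2]
          rw [hk u hu, hk v hv]
        rcases lt_or_gt_of_ne hjne with hlt | hgt
        · exact keyLt hq u v a b hu hv hs' hlt ha hb hsa hsb
        · rw [abs_sub_comm, abs_sub_comm (gg q τ u)]
          exact keyLt hq v u b a hv hu hs'.symm hgt hb ha hsb hsa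
      · have hne : (SignType.sign u : ℝ) = -(SignType.sign v : ℝ) := by
          rcases lt_or_gt_of_ne hu with h1 | h1 <;> rcases lt_or_gt_of_ne hv with h2 | h2
          · exact absurd (by rw [sign_neg h1, sign_neg h2]) hs
          · simp [sign_neg h1, sign_pos h2]
          · simp [sign_pos h1, sign_neg h2]
          · exact absurd (by rw [sign_pos h1, sign_pos h2]) hs
        obtain ⟨k1, k2⟩ := Kpos hq
        have e : |gg q τ u - gg q τ v| = |gg q τ u| + |gg q τ v| := by
          rw [ggabs hq u hu, ggabs hq v hv]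
          unfold gg
          rw [if_neg hu, if_neg hv, hne]
          rcases sgn_cases hv with h | h
          · rw [h]
            have : -1 * ((2:ℝ) ^ q / (1 - (2:ℝ) ^ (-q))) * (bs τ u) ^ q
              - 1 * ((2:ℝ) ^ q / (1 - (2:ℝ) ^ (-q))) * (bs τ v) ^ q
              = -((2:ℝ) ^ q / (1 - (2:ℝ) ^ (-q)) * (bs τ u) ^ q
                + (2:ℝ) ^ q / (1 - (2:ℝ) ^ (-q)) * (bs τ v) ^ q) := by ring
            rw [this, abs_neg, abs_of_nonneg (by positivity)]
          · rw [h]
            have : - -1 * ((2:ℝ) ^ q / (1 - (2:ℝ) ^ (-q))) * (bs τ u) ^ q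
              - -1 * ((2:ℝ) ^ q / (1 - (2:ℝ) ^ (-q))) * (bs τ v) ^ q
              = ((2:ℝ) ^ q / (1 - (2:ℝ) ^ (-q)) * (bs τ u) ^ q
                + (2:ℝ) ^ q / (1 - (2:ℝ) ^ (-q)) * (bs τ v) ^ q) := by ring
            rw [this, abs_of_nonneg (by positivity)]
        rw [e, ggabs hq u hu, ggabs hq v hv]
        have h1 : |a - b| ^ q ≤ |a| ^ q + |b| ^ q := by
          have h2 : |a - b| ≤ |a| + |b| := abs_sub a b
          refine (Real.rpow_le_rpow (abs_nonneg _) h2 hq.le).trans ?_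
          exact Real.rpow_add_le_add_rpow (abs_nonneg _) (abs_nonneg _) hq.le hq1.le
        refine h1.trans (add_le_add ?_ ?_)
        · refine (rb hq a _ pu ha).trans ?_
          exact mul_le_mul_of_nonneg_right (Kge hq) (by positivity)
        · refine (rb hq b _ pv hb).trans ?_
          exact mul_le_mul_of_nonneg_right (Kge hq) (by positivity)

theorem main (hS : TaskSame) (hZ : TaskSize) (hC : TaskCauchy) : Pool.Agent.Q295.PCR.TaskPath := by
  classical
  intro q L τ x y a b hp hx hy hxa hyb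
  have hL1 : 1 ≤ L := le_trans (by norm_num) hp.l3
  have hq0 : 0 < q := lt_of_lt_of_le (by norm_num) hp.q1
  have R := fun i => hS L i τ hL1
  have mono : ∀ (i j : ℕ), i ≤ j → ∀ s t, Same L j τ s t → Same L i τ s t := by
    intro i j hij
    induction j, hij using Nat.le_induction with
    | base => intro s t h; exact h
    | succ j hij ih => intro s t h; exact ih s t ((R j).2.2.2 s t h)
  have chain : ∀ (z : ℕ → ℝ), (∀ i, Same L i τ (z i) (z (i+1))) →
      ∀ i j, i ≤ j → Same L i τ (z i) (z j) := by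
    intro z hz i j hij
    induction j, hij using Nat.le_induction with
    | base => exact (R i).1 _
    | succ j hij ih => exact (R i).2.2.1 _ _ _ ih (mono i j hij _ _ (hz j))
  have sgn : ∀ (z : ℕ → ℝ) (c : ℝ), (∀ i, Same L i τ (z i) (z (i+1))) →
      Tendsto z atTop (𝓝 c) → (SignType.sign (z 0) : ℝ) * c = |c| := by
    intro z c hz hc
    have h1 : ∀ j, (SignType.sign (z 0) : ℝ) * z j = |z j| := by
      intro j
      have h := (chain z hz 0 j (Nat.zero_le _)).1
      rw [h]; exact sign_mul_self (z j)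
    have t1 : Tendsto (fun j => (SignType.sign (z 0) : ℝ) * z j) atTop
      (𝓝 ((SignType.sign (z 0) : ℝ) * c)) := hc.const_mul _
    have t2 : Tendsto (fun j => |z j|) atTop (𝓝 |c|) := hc.abs
    exact tendsto_nhds_unique (t1.congr h1) t2
  have Ca : |a| ≤ 2 * bs τ (x 0) ∧ (x 0 = 0 → a = 0) := by
    obtain ⟨a', ha', -, ha2, ha3, -⟩ := hC L τ x hp.l3 hx
    obtain rfl := tendsto_nhds_unique ha' hxa
    exact ⟨ha2, ha3⟩
  have Cb : |b| ≤ 2 * bs τ (y 0) ∧ (y 0 = 0 → b = 0) := by
    obtain ⟨a', ha', -, ha2, ha3, -⟩ := hC L τ y hp.l3 hy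
    obtain rfl := tendsto_nhds_unique ha' hyb
    exact ⟨ha2, ha3⟩
  have hsa := sgn x a hx hxa
  have hsb := sgn y b hy hyb
  by_cases h0 : Same L 0 τ (x 0) (y 0)
  · by_cases hall : ∀ i, Same L i τ (x i) (y i)
    · have hLr : (1:ℝ) < L := by
        have : (4:ℝ) ≤ L := by exact_mod_cast hp.l3
        linarith
      have t : Tendsto (fun i : ℕ => |x i| * ((L:ℝ)⁻¹) ^ i) atTop (𝓝 (|a| * 0)) :=
        hxa.abs.mul (tendsto_pow_atTop_nhds_zero_of_lt_one (by positivity) (inv_lt_one_of_one_lt₀ hLr))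
      rw [mul_zero] at t
      have t2 : Tendsto (fun i => |x i - y i|) atTop (𝓝 |a - b|) := (hxa.sub hyb).abs
      have hle : |a - b| ≤ 0 := by
        refine le_of_tendsto_of_tendsto' t2 t fun i => ?_
        have h1 := ((hZ L i τ hL1).2.1 (x i) (y i) (hall i)).1
        have h2 := ((hZ L i τ hL1).2.2 (x i)).2.1
        refine h1.trans (h2.trans ?_)
        rw [inv_pow, div_eq_mul_inv]
      have hz : |a - b| = 0 := le_antisymm hle (abs_nonneg _)
      rw [hz, Real.zero_rpow hq0.ne', ENNReal.ofReal_zero]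
      exact zero_le
    · have hex : ∃ i, ¬ Same L i τ (x i) (y i) := not_forall.mp hall
      obtain ⟨i, hPi, hNi⟩ : ∃ i, Same L i τ (x i) (y i) ∧ ¬ Same L (i+1) τ (x (i+1)) (y (i+1)) := by
        have hf := Nat.find_spec hex
        rcases hN : Nat.find hex with _ | i
        · rw [hN] at hf; exact absurd h0 hf
        · refine ⟨i, ?_, ?_⟩
          · by_contra hc
            have := Nat.find_min' hex hc
            omega
          · rw [hN] at hf; exact hf
      refine le_trans ?_ (le_add_left (ENNReal.le_tsum i))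
      rw [if_pos hPi]
      -- the same cell of level `i`
      have hxy : Same L i τ (x (i+1)) (y (i+1)) :=
        (R i).2.2.1 _ _ _ ((R i).2.1 _ _ (hx i)) ((R i).2.2.1 _ _ _ hPi (hy i))
      have hx1 : x (i+1) ≠ 0 := by
        intro h
        apply hNi
        refine ⟨hxy.1, fun h' => absurd h h'⟩
      have hsx : SignType.sign (x 0) = SignType.sign (x (i+1)) := (chain x hx 0 (i+1) (Nat.zero_le _)).1
      have hsy : SignType.sign (y 0) = SignType.sign (y (i+1)) := (chain y hy 0 (i+1) (Nat.zero_le _)).1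
      have hy1 : y (i+1) ≠ 0 := by
        intro h
        have := hxy.1
        rw [h, sign_zero] at this
        exact hx1 (sign_eq_zero_iff.mp this)
      obtain ⟨hjj, -⟩ := hxy.2 hx1
      have hkk : kk L (i+1) τ (x (i+1)) ≠ kk L (i+1) τ (y (i+1)) := by
        intro h
        exact hNi ⟨hxy.1, fun _ => ⟨hjj, h⟩⟩
      set β := bs τ (x (i+1)) with hβ
      have hβy : bs τ (y (i+1)) = β := by
        rw [hβ]; unfold bs; rw [hjj]
      have pβ : 0 < β := bs_pos _ _
      have hLp : (0:ℝ) < (L:ℝ) ^ (i+1) := by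
        have : (0:ℝ) < L := by exact_mod_cast hL1
        positivity
      set m := β / (L:ℝ) ^ (i+1) with hm
      have pm : 0 < m := by positivity
      have lim : ∀ (z : ℕ → ℝ) (c : ℝ), (∀ i, Same L i τ (z i) (z (i+1))) → Tendsto z atTop (𝓝 c) →
          z (i+1) ≠ 0 → bs τ (z (i+1)) = β →
          m * kk L (i+1) τ (z (i+1)) ≤ |c| ∧ |c| ≤ m * (kk L (i+1) τ (z (i+1)) + 1) := by
        intro z c hz hc hz1 hbz
        have hev : ∀ᶠ j in atTop, m * kk L (i+1) τ (z (i+1)) ≤ |z j| ∧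
            |z j| ≤ m * (kk L (i+1) τ (z (i+1)) + 1) := by
          filter_upwards [eventually_ge_atTop (i+1)] with j hj
          obtain ⟨h1, h2⟩ := (chain z hz (i+1) j hj).2 hz1
          have hbj : bs τ (z j) = β := by
            rw [← hbz]; unfold bs; rw [h1]
          have hfl : kk L (i+1) τ (z j) = kk L (i+1) τ (z (i+1)) := h2.symm
          have hfl2 := hfl
          unfold kk at hfl2
          rw [hbj] at hfl2
          have h3 := Int.floor_eq_iff.mp hfl2
          rw [hbz] at h3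
          have h4 : |z j| = m * (|z j| / β * (L:ℝ) ^ (i+1)) := by
            rw [hm]; field_simp
          have e5 : (kk L (i+1) τ (z (i+1)) : ℝ) = ((⌊|z (i+1)| / β * (L:ℝ) ^ (i+1)⌋ : ℤ) : ℝ) := by
            unfold kk; rw [hbz]
          rw [e5]
          constructor
          · rw [h4]; exact mul_le_mul_of_nonneg_left h3.1 pm.le
          · rw [h4]; exact mul_le_mul_of_nonneg_left h3.2.le pm.le
        exact ⟨ge_of_tendsto hc.abs (hev.mono fun j h => h.1), le_of_tendsto hc.abs (hev.mono fun j h => h.2)⟩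
      obtain ⟨la1, la2⟩ := lim x a hx hxa hx1 rfl
      obtain ⟨lb1, lb2⟩ := lim y b hy hyb hy1 hβy
      set kx := kk L (i+1) τ (x (i+1)) with hkx
      set ky := kk L (i+1) τ (y (i+1)) with hky
      have hsign : (SignType.sign (x 0) : ℝ) = SignType.sign (y 0) := by
        rw [hsx, hsy, hxy.1]
      have hab : |a - b| = abs (|a| - |b|) := by
        rw [← hsa, ← hsb, hsign, ← mul_sub, abs_mul]
        rw [hsy]
        rcases sgn_cases hy1 with h | h <;> rw [h] <;> simp
      have hn1 : (1:ℝ) ≤ |(kx:ℝ) - ky| := by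
        have : (1:ℤ) ≤ |kx - ky| := Int.one_le_abs (sub_ne_zero.mpr hkk)
        exact_mod_cast this
      have hle : |a - b| ≤ (|(kx:ℝ) - ky| + 1) * m := by
        rw [hab, abs_le]
        have h1 := le_abs_self ((kx:ℝ) - ky)
        have h2 := neg_abs_le ((kx:ℝ) - ky)
        constructor
        · nlinarith
        · nlinarith
      have hms : ms L (i+1) τ (x (i+1)) = m := by
        unfold ms; rw [if_neg hx1]
      have hms2 : ms L (i+1) τ (y (i+1)) = m := by
        unfold ms; rw [if_neg hy1, hβy]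
      have hh1 : |hh q L (i+1) τ (x (i+1)) - hh q L (i+1) τ (y (i+1))| = m ^ q * |(kx:ℝ) - ky| := by
        unfold hh
        rw [hms, hms2, hxy.1, ← hkx, ← hky]
        have : (SignType.sign (y (i+1)) : ℝ) * m ^ q * kx - (SignType.sign (y (i+1)) : ℝ) * m ^ q * ky
          = (SignType.sign (y (i+1)) : ℝ) * (m ^ q * ((kx:ℝ) - ky)) := by ring
        rw [this, abs_mul, abs_mul, abs_of_nonneg (by positivity : (0:ℝ) ≤ m ^ q)]
        rcases sgn_cases hy1 with h | h <;> rw [h] <;> simp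
      rw [hh1]
      have fin : |a - b| ^ q ≤ 2 * (m ^ q * |(kx:ℝ) - ky|) := by
        have h1 : |a - b| ^ q ≤ ((|(kx:ℝ) - ky| + 1) * m) ^ q := Real.rpow_le_rpow (abs_nonneg _) hle hq0.le
        rw [Real.mul_rpow (by positivity) pm.le] at h1
        have h2 : (|(kx:ℝ) - ky| + 1) ^ q ≤ |(kx:ℝ) - ky| + 1 := by
          have := Real.rpow_le_rpow_of_exponent_le (x := |(kx:ℝ) - ky| + 1) (by linarith) hp.q2.le
          rwa [Real.rpow_one] at this
        have pmq : 0 < m ^ q := by positivity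
        nlinarith
      calc ENNReal.ofReal (|a - b| ^ q) ≤ ENNReal.ofReal (2 * (m ^ q * |(kx:ℝ) - ky|)) :=
            ENNReal.ofReal_le_ofReal fin
        _ = 2 * ENNReal.ofReal (m ^ q * |(kx:ℝ) - ky|) := by
            rw [ENNReal.ofReal_mul (by norm_num), ENNReal.ofReal_ofNat]
  · refine le_trans (ENNReal.ofReal_le_ofReal ?_) le_self_add
    exact key hZ hL1 hq0 hp.q2 (x 0) (y 0) a b h0 Ca.1 Cb.1 Ca.2 Cb.2 hsa hsb

end Pool.Agent.Q295.PCR.TaskPathP
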