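import Pool.Agent.Q295.PCR.Stmts

namespace Pool.Agent.Q295.PCR.TaskQfP
open Pool.Agent.Q295.PCR
open MeasureTheory Set Filter ProbabilityTheory Topology
open scoped ENNReal

theorem key (μ : Measure ℝ) [IsProbabilityMeasure μ] (u : ℝ) (hu : u ∈ Ioo (0 : ℝ) 1) (x : ℝ) :
    Qf μ u ≤ x ↔ u ≤ μ.real (Iic x) := by
  have hF : ∀ y, μ.real (Iic y) = cdf μ y := fun y => (cdf_eq_real μ y).symm
  have hbdd : BddBelow {y | u ≤ μ.real (Iic y)} := by
    have h := (tendsto_cdf_atBot μ).eventually (gt_mem_nhds hu.1)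
    obtain ⟨b, hb⟩ := h.exists
    refine ⟨b, fun y hy => ?_⟩
    by_contra hlt
    push Not at hlt
    have := monotone_cdf μ hlt.le
    simp only [mem_setOf_eq, hF] at hy
    linarith
  have hne : {y | u ≤ μ.real (Iic y)}.Nonempty := by
    have h := (tendsto_cdf_atTop μ).eventually (lt_mem_nhds hu.2)
    obtain ⟨b, hb⟩ := h.exists
    refine ⟨b, ?_⟩
    simp only [mem_setOf_eq, hF]
    exact hb.le
  constructor
  · intro h
    rw [hF]
    have ht : Tendsto (cdf μ) (𝓝[>] x) (𝓝 (cdf μ x)) :=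
      ((cdf μ).right_continuous x).mono_left (nhdsWithin_mono x Ioi_subset_Ici_self)
    refine ge_of_tendsto ht ?_
    filter_upwards [self_mem_nhdsWithin] with y hy
    obtain ⟨s, hs, hsy⟩ := exists_lt_of_csInf_lt hne (lt_of_le_of_lt h hy)
    simp only [mem_setOf_eq, hF] at hs
    exact hs.trans (monotone_cdf μ hsy.le)
  · intro h
    exact csInf_le hbdd h

theorem meas (μ : Measure ℝ) [IsProbabilityMeasure μ] : Measurable (Qf μ) := by
  refine measurable_of_Iic fun x => ?_
  have h0 : ∀ u ≤ (0 : ℝ), Qf μ u = 0 := by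
    intro u hu
    have : {x | u ≤ μ.real (Iic x)} = univ := by
      ext y
      simp only [mem_setOf_eq, mem_univ, iff_true]
      exact hu.trans measureReal_nonneg
    rw [Qf, this, Real.sInf_univ]
  have h1 : ∀ u > (1 : ℝ), Qf μ u = 0 := by
    intro u hu
    have : {x | u ≤ μ.real (Iic x)} = ∅ := by
      ext y
      simp only [mem_setOf_eq, mem_empty_iff_false, iff_false, not_le]
      exact lt_of_le_of_lt measureReal_le_one hu
    rw [Qf, this, Real.sInf_empty]
  have h2 : Qf μ ⁻¹' Iic x = (Ioo 0 1 ∩ Iic (μ.real (Iic x))) ∪ (Qf μ ⁻¹' Iic x ∩ {1}) ∪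
      ({u | (u ≤ 0 ∨ 1 < u)} ∩ {_u | 0 ≤ x}) := by
    ext u
    simp only [mem_preimage, mem_Iic, mem_union, mem_inter_iff, mem_singleton_iff, mem_setOf_eq,
      mem_Ioo]
    rcases le_or_gt u 0 with hu | hu
    · rw [h0 u hu]
      constructor
      · intro h
        right
        exact ⟨Or.inl hu, h⟩
      · rintro ((⟨⟨h, _⟩, _⟩ | ⟨h, _⟩) | ⟨_, h⟩)
        · linarith
        · exact h
        · exact h
    · rcases lt_trichotomy u 1 with hu1 | hu1 | hu1
      · rw [key μ u ⟨hu, hu1⟩]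
        constructor
        · intro h
          left
          left
          exact ⟨⟨hu, hu1⟩, h⟩
        · rintro ((⟨_, h⟩ | ⟨h, h'⟩) | ⟨h, _⟩)
          · exact h
          · exact h
          · rcases h with h | h <;> linarith
      · constructor
        · intro h
          left
          right
          exact ⟨h, hu1⟩
        · rintro ((⟨⟨_, h⟩, _⟩ | ⟨h, _⟩) | ⟨h, _⟩)
          · linarith
          · exact h
          · rcases h with h | h <;> linarith
      · rw [h1 u hu1]
        constructor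
        · intro h
          right
          exact ⟨Or.inr hu1, h⟩
        · rintro ((⟨⟨_, h⟩, _⟩ | ⟨h, _⟩) | ⟨_, h⟩)
          · linarith
          · exact h
          · exact h
  rw [h2]
  refine ((measurableSet_Ioo.inter measurableSet_Iic).union ?_).union ?_
  · exact (Set.subsingleton_singleton.anti inter_subset_right).measurableSet
  · exact (measurableSet_Iic.union measurableSet_Ioi).inter (MeasurableSet.const _)

theorem mp (μ : Measure ℝ) [IsProbabilityMeasure μ] : Measure.map (Qf μ) unif = μ := by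
  haveI : IsProbabilityMeasure (Measure.map (Qf μ) unif) :=
    Measure.isProbabilityMeasure_map (meas μ).aemeasurable
  refine Measure.ext_of_Iic _ _ fun x => ?_
  rw [Measure.map_apply (meas μ) measurableSet_Iic]
  have hle : μ.real (Iic x) ≤ 1 := measureReal_le_one
  unfold unif
  rw [Measure.restrict_apply ((meas μ) measurableSet_Iic)]
  have h3 : (Qf μ ⁻¹' Iic x ∩ Icc 0 1 : Set ℝ) =ᵐ[volume] Icc 0 (μ.real (Iic x)) := by
    have ha : ∀ᵐ u : ℝ ∂volume, u ≠ 0 := Measure.ae_ne volume 0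
    have hb : ∀ᵐ u : ℝ ∂volume, u ≠ 1 := Measure.ae_ne volume 1
    refine eventuallyEq_set.2 ?_
    filter_upwards [ha, hb] with u hu0 hu1
    simp only [mem_preimage, mem_Iic, mem_inter_iff, mem_Icc]
    constructor
    · rintro ⟨h, h4, h5⟩
      exact ⟨h4, (key μ u ⟨lt_of_le_of_ne h4 (Ne.symm hu0), lt_of_le_of_ne h5 hu1⟩ x).1 h⟩
    · rintro ⟨h4, h5⟩
      have h6 : u ≤ 1 := h5.trans hle
      exact ⟨(key μ u ⟨lt_of_le_of_ne h4 (Ne.symm hu0), lt_of_le_of_ne h6 hu1⟩ x).2 h5, h4, h6⟩
  rw [measure_congr h3, Real.volume_Icc, sub_zero]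
  exact ENNReal.ofReal_toReal (measure_ne_top _ _)

theorem main : TaskQf := fun μ _ => ⟨fun u hu x => key μ u hu x, meas μ, mp μ⟩

end Pool.Agent.Q295.PCR.TaskQfP
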