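import Pool.Agent.Q295.PCR.Stmts

set_option autoImplicit false

namespace Pool.Agent.Q295.PCR.TaskSameP

open Pool.Agent.Q295.PCR

lemma ne_zero_of_sign {x y : ℝ} (h : SignType.sign x = SignType.sign y) (hy : y ≠ 0) : x ≠ 0 := by
  intro hx
  subst hx
  rw [sign_zero] at h
  exact hy (sign_eq_zero_iff.1 h.symm)

lemma floor_div_aux (A : ℝ) (L : ℕ) (hL : 1 ≤ L) : ⌊A / (L : ℝ)⌋ = ⌊A⌋ / (L : ℤ) := by
  have hL0 : (0 : ℝ) < L := by exact_mod_cast hL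
  rw [Int.floor_eq_iff]
  have h1 : (L : ℤ) * (⌊A⌋ / (L : ℤ)) ≤ ⌊A⌋ := Int.mul_ediv_self_le (by positivity)
  have h2 : ⌊A⌋ < (L : ℤ) * (⌊A⌋ / (L : ℤ)) + L := Int.lt_mul_ediv_self_add (by exact_mod_cast hL)
  constructor
  · rw [le_div_iff₀ hL0]
    have h3 : (((L : ℤ) * (⌊A⌋ / (L : ℤ)) : ℤ) : ℝ) ≤ (⌊A⌋ : ℝ) := by exact_mod_cast h1
    have h4 := Int.floor_le A
    push_cast at h3
    nlinarith
  · rw [div_lt_iff₀ hL0]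
    have h3 : (⌊A⌋ : ℤ) + 1 ≤ (L : ℤ) * (⌊A⌋ / (L : ℤ)) + L := h2
    have h5 : ((⌊A⌋ : ℝ)) + 1 ≤ (L : ℝ) * ((⌊A⌋ / (L : ℤ) : ℤ) : ℝ) + L := by exact_mod_cast h3
    have h4 := Int.lt_floor_add_one A
    nlinarith

theorem main : Pool.Agent.Q295.PCR.TaskSame := by
  intro L i τ hL
  refine ⟨fun x => ⟨rfl, fun _ => ⟨rfl, rfl⟩⟩, ?_, ?_, ?_⟩
  · rintro x y ⟨h1, h2⟩
    refine ⟨h1.symm, fun hy => ?_⟩
    obtain ⟨h3, h4⟩ := h2 (ne_zero_of_sign h1 hy)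
    exact ⟨h3.symm, h4.symm⟩
  · rintro x y z ⟨h1, h2⟩ ⟨h3, h4⟩
    refine ⟨h1.trans h3, fun hx => ?_⟩
    obtain ⟨h5, h6⟩ := h2 hx
    obtain ⟨h7, h8⟩ := h4 (ne_zero_of_sign h1.symm hx)
    exact ⟨h5.trans h7, h6.trans h8⟩
  · rintro x y ⟨h1, h2⟩
    refine ⟨h1, fun hx => ?_⟩
    obtain ⟨h3, h4⟩ := h2 hx
    refine ⟨h3, ?_⟩
    have hL0 : (L : ℝ) ≠ 0 := by
      have : (0 : ℝ) < L := by exact_mod_cast hL
      exact this.ne'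
    have key : ∀ t : ℝ, kk L i τ t = kk L (i + 1) τ t / (L : ℤ) := by
      intro t
      unfold kk
      rw [← floor_div_aux _ L hL]
      congr 1
      rw [pow_succ]
      field_simp
    rw [key x, key y, h4]

end Pool.Agent.Q295.PCR.TaskSameP
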