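import Pool.Agent.Q295.PCR.Stmts

/-!
Probability that two points are separated by the cells (blueprint of helper295 for MP_ee92c9_pr).
-/

set_option autoImplicit false

namespace Pool.Agent.Q295.PCR.TaskSepP

open Pool.Agent.Q295.PCR
open MeasureTheory Set Filter Topology
open scoped ENNReal

lemma anti (s : ℝ) : Antitone fun τ : ℝ => ((⌊s - τ⌋ : ℤ) : ℝ) := by
  intro a b hab
  have h : ⌊s - b⌋ ≤ ⌊s - a⌋ := Int.floor_le_floor (by linarith)
  have h2 : ((⌊s - b⌋ : ℤ) : ℝ) ≤ ((⌊s - a⌋ : ℤ) : ℝ) := Int.cast_le.2 h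
  exact h2

lemma one (hF : TaskFloor) (s t : ℝ) (hst : s ≤ t) :
    unif {τ | ⌊s - τ⌋ ≠ ⌊t - τ⌋} ≤ ENNReal.ofReal (t - s) := by
  have hs : IntervalIntegrable (fun τ : ℝ => ((⌊s - τ⌋ : ℤ) : ℝ)) volume 0 1 :=
    (anti s).intervalIntegrable
  have ht : IntervalIntegrable (fun τ : ℝ => ((⌊t - τ⌋ : ℤ) : ℝ)) volume 0 1 :=
    (anti t).intervalIntegrable
  have hval : ∫ τ in (0 : ℝ)..1, (((⌊t - τ⌋ : ℤ) : ℝ) - ((⌊s - τ⌋ : ℤ) : ℝ)) = t - s := by
    rw [intervalIntegral.integral_sub ht hs, hF t, hF s]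
    ring
  have hint : Integrable (fun τ : ℝ => ((⌊t - τ⌋ : ℤ) : ℝ) - ((⌊s - τ⌋ : ℤ) : ℝ)) unif := by
    have h := (intervalIntegrable_iff_integrableOn_Icc_of_le (zero_le_one' ℝ)).1 (ht.sub hs)
    exact h
  have hle : ∀ τ : ℝ, ⌊s - τ⌋ ≤ ⌊t - τ⌋ := fun τ => Int.floor_le_floor (by linarith)
  have hval2 : ∫ τ, (((⌊t - τ⌋ : ℤ) : ℝ) - ((⌊s - τ⌋ : ℤ) : ℝ)) ∂unif = t - s := by
    rw [← hval, intervalIntegral.integral_of_le zero_le_one, ← integral_Icc_eq_integral_Ioc]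
    rfl
  have hl : ∫⁻ τ, ENNReal.ofReal (((⌊t - τ⌋ : ℤ) : ℝ) - ((⌊s - τ⌋ : ℤ) : ℝ)) ∂unif =
      ENNReal.ofReal (t - s) := by
    rw [← hval2, ofReal_integral_eq_lintegral_ofReal hint]
    refine Filter.Eventually.of_forall fun τ => ?_
    have : ((⌊s - τ⌋ : ℤ) : ℝ) ≤ ((⌊t - τ⌋ : ℤ) : ℝ) := by exact_mod_cast hle τ
    change (0 : ℝ) ≤ _
    linarith
  have hmk := mul_meas_ge_le_lintegral₀ (μ := unif) (f := fun τ : ℝ =>
    ENNReal.ofReal (((⌊t - τ⌋ : ℤ) : ℝ) - ((⌊s - τ⌋ : ℤ) : ℝ))) hint.1.aemeasurable.ennreal_ofReal 1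
  rw [one_mul, hl] at hmk
  refine (measure_mono ?_).trans hmk
  intro τ hτ
  have h1 : ⌊s - τ⌋ + 1 ≤ ⌊t - τ⌋ := by
    have := hle τ
    have h2 : ⌊s - τ⌋ ≠ ⌊t - τ⌋ := hτ
    omega
  change (1 : ℝ≥0∞) ≤ ENNReal.ofReal _
  rw [ENNReal.one_le_ofReal]
  have h3 : ((⌊s - τ⌋ : ℤ) : ℝ) + 1 ≤ ((⌊t - τ⌋ : ℤ) : ℝ) := by exact_mod_cast h1
  linarith

lemma core (K : ℕ) (hK : 1 ≤ K) (τ x y : ℝ) (hx : 0 < x) (hxy : x ≤ y)
    (h : ∀ k < K, ⌊Real.logb 2 x - Real.logb 2 (1 + (k : ℝ) / K) - τ⌋ =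
      ⌊Real.logb 2 y - Real.logb 2 (1 + (k : ℝ) / K) - τ⌋) :
    jj τ x = jj τ y ∧ ⌊|x| / bs τ x * (K : ℝ)⌋ = ⌊|y| / bs τ y * (K : ℝ)⌋ := by
  have hy : 0 < y := hx.trans_le hxy
  have hK0 : (0 : ℝ) < K := by exact_mod_cast hK
  have hj : jj τ x = jj τ y := by
    have h0 := h 0 hK
    unfold jj
    rw [abs_of_pos hx, abs_of_pos hy]
    simpa using h0
  refine ⟨hj, ?_⟩
  have hbs : bs τ y = bs τ x := by unfold bs; rw [hj]
  rw [hbs, abs_of_pos hx, abs_of_pos hy]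
  have hb : 0 < bs τ x := by unfold bs; positivity
  obtain ⟨b, hbdef⟩ : ∃ b, b = bs τ x := ⟨_, rfl⟩
  rw [← hbdef] at hb ⊢
  have hlb : Real.logb 2 b = (jj τ x : ℝ) + τ := by
    rw [hbdef]; unfold bs
    rw [Real.logb_rpow (by norm_num) (by norm_num)]
  have hjx : ((jj τ x : ℤ) : ℝ) ≤ Real.logb 2 x - τ := by
    have := Int.floor_le (Real.logb 2 |x| - τ)
    rw [abs_of_pos hx] at this
    unfold jj
    rw [abs_of_pos hx]
    exact this
  have hjy : Real.logb 2 y - τ < ((jj τ x : ℤ) : ℝ) + 1 := by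
    rw [hj]
    have := Int.lt_floor_add_one (Real.logb 2 |y| - τ)
    rw [abs_of_pos hy] at this
    unfold jj
    rw [abs_of_pos hy]
    exact this
  have hbx : b ≤ x := by
    have h1 : Real.logb 2 b ≤ Real.logb 2 x := by rw [hlb]; linarith
    exact (Real.logb_le_logb (by norm_num) hb hx).1 h1
  have hyb : y < 2 * b := by
    have h1 : Real.logb 2 y < Real.logb 2 (2 * b) := by
      rw [Real.logb_mul (by norm_num) hb.ne', hlb, Real.logb_self_eq_one (by norm_num)]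
      linarith
    exact (Real.logb_lt_logb_iff (by norm_num) hy (by positivity)).1 h1
  have hle : ⌊x / b * (K : ℝ)⌋ ≤ ⌊y / b * (K : ℝ)⌋ := by
    apply Int.floor_le_floor
    have : x / b ≤ y / b := div_le_div_of_nonneg_right hxy hb.le
    exact mul_le_mul_of_nonneg_right this hK0.le
  by_contra hne
  have hlt : ⌊x / b * (K : ℝ)⌋ < ⌊y / b * (K : ℝ)⌋ := lt_of_le_of_ne hle hne
  obtain ⟨n, hn⟩ : ∃ n, n = ⌊y / b * (K : ℝ)⌋ := ⟨_, rfl⟩
  rw [← hn] at hlt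
  have hnK : (K : ℤ) ≤ n := by
    have h1 : (K : ℤ) ≤ ⌊x / b * (K : ℝ)⌋ := by
      rw [Int.le_floor]
      have : 1 ≤ x / b := (one_le_div hb).2 hbx
      push_cast
      nlinarith
    omega
  have hn2 : n < 2 * (K : ℤ) := by
    rw [hn, Int.floor_lt]
    have : y / b < 2 := (div_lt_iff₀ hb).2 hyb
    push_cast
    nlinarith
  obtain ⟨k, hk⟩ : ∃ k : ℕ, (k : ℤ) = n - K := ⟨(n - K).toNat, Int.toNat_of_nonneg (by omega)⟩
  have hkK : k < K := by omega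
  have hkr : (k : ℝ) = (n : ℝ) - K := by
    have : ((k : ℤ) : ℝ) = ((n - K : ℤ) : ℝ) := by rw [hk]
    push_cast at this
    exact this
  have hfrac : 1 + (k : ℝ) / K = (n : ℝ) / K := by
    rw [hkr]; field_simp; ring
  have hnpos : (0 : ℝ) < n := by
    have : 0 < n := by omega
    exact_mod_cast this
  have h1 := h k hkK
  rw [hfrac] at h1
  have hny : (n : ℝ) ≤ y / b * K := by rw [hn]; exact Int.floor_le _
  have hnx : x / b * K < n := by
    have := Int.floor_lt.1 hlt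
    exact this
  have hy2 : (n : ℝ) / K * b ≤ y := by
    rw [div_mul_eq_mul_div, div_le_iff₀ hK0]
    have h2 : y / b * K * b = y * K := by field_simp
    have h3 := mul_le_mul_of_nonneg_right hny hb.le
    linarith
  have hx2 : x < (n : ℝ) / K * b := by
    rw [div_mul_eq_mul_div, lt_div_iff₀ hK0]
    have h2 : x / b * K * b = x * K := by field_simp
    have h3 := mul_lt_mul_of_pos_right hnx hb
    linarith
  have hnK0 : (0 : ℝ) < (n : ℝ) / K := by positivity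
  have hly : Real.logb 2 ((n : ℝ) / K) + ((jj τ x : ℝ) + τ) ≤ Real.logb 2 y := by
    rw [← hlb, ← Real.logb_mul hnK0.ne' hb.ne']
    exact (Real.logb_le_logb (by norm_num) (by positivity) hy).2 hy2
  have hlx : Real.logb 2 x < Real.logb 2 ((n : ℝ) / K) + ((jj τ x : ℝ) + τ) := by
    rw [← hlb, ← Real.logb_mul hnK0.ne' hb.ne']
    exact (Real.logb_lt_logb_iff (by norm_num) hx (by positivity)).2 hx2
  have hfy : jj τ x ≤ ⌊Real.logb 2 y - Real.logb 2 ((n : ℝ) / K) - τ⌋ := by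
    rw [Int.le_floor]; linarith
  have hfx : ⌊Real.logb 2 x - Real.logb 2 ((n : ℝ) / K) - τ⌋ < jj τ x := by
    rw [Int.floor_lt]; linarith
  omega

theorem main (hF : TaskFloor) : Pool.Agent.Q295.PCR.TaskSep := by
  intro L i x y hL hx hxy
  have hy : 0 < y := hx.trans_le hxy
  obtain ⟨K, hK⟩ : ∃ K : ℕ, K = L ^ i := ⟨_, rfl⟩
  have hK1 : 1 ≤ K := by rw [hK]; exact Nat.one_le_pow _ _ hL
  have hKr : ((K : ℕ) : ℝ) = (L : ℝ) ^ i := by rw [hK]; push_cast; rfl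
  have hsub : {τ | ¬ Same L i τ x y} ⊆ ⋃ k ∈ Finset.range K,
      {τ | ⌊(Real.logb 2 x - Real.logb 2 (1 + (k : ℝ) / K)) - τ⌋ ≠
        ⌊(Real.logb 2 y - Real.logb 2 (1 + (k : ℝ) / K)) - τ⌋} := by
    intro τ hτ
    by_contra hcon
    apply hτ
    have hall : ∀ k < K, ⌊Real.logb 2 x - Real.logb 2 (1 + (k : ℝ) / K) - τ⌋ =
        ⌊Real.logb 2 y - Real.logb 2 (1 + (k : ℝ) / K) - τ⌋ := by
      intro k hk
      by_contra hne
      exact hcon (mem_biUnion (x := k) (by simpa using hk) hne)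
    have hc := core K hK1 τ x y hx hxy hall
    refine ⟨by rw [sign_pos hx, sign_pos hy], fun _ => ⟨hc.1, ?_⟩⟩
    unfold kk
    rw [← hKr]
    exact hc.2
  refine (measure_mono hsub).trans ((measure_biUnion_finset_le _ _).trans ?_)
  have hlog : Real.logb 2 x ≤ Real.logb 2 y := (Real.logb_le_logb (by norm_num) hx hy).2 hxy
  have hone : ∀ k ∈ Finset.range K, unif {τ | ⌊(Real.logb 2 x - Real.logb 2 (1 + (k : ℝ) / K)) - τ⌋ ≠
        ⌊(Real.logb 2 y - Real.logb 2 (1 + (k : ℝ) / K)) - τ⌋} ≤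
      ENNReal.ofReal (Real.logb 2 y - Real.logb 2 x) := by
    intro k _
    refine (one hF _ _ (by linarith)).trans (le_of_eq ?_)
    congr 1
    ring
  refine (Finset.sum_le_sum hone).trans ?_
  rw [Finset.sum_const, Finset.card_range, nsmul_eq_mul, ← ENNReal.ofReal_natCast,
    ← ENNReal.ofReal_mul (by positivity)]
  refine ENNReal.ofReal_le_ofReal ?_
  rw [hKr]
  have hlog2 : 0 < Real.log 2 := Real.log_pos (by norm_num)
  have h1 : Real.logb 2 y - Real.logb 2 x ≤ (y - x) / (x * Real.log 2) := by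
    unfold Real.logb
    rw [← sub_div, ← Real.log_div hy.ne' hx.ne', div_le_div_iff₀ hlog2 (by positivity)]
    have h2 := Real.log_le_sub_one_of_pos (div_pos hy hx)
    have h3 : x * Real.log (y / x) ≤ y - x := by
      have h4 := mul_le_mul_of_nonneg_left h2 hx.le
      have h5 : x * (y / x - 1) = y - x := by field_simp
      linarith
    nlinarith
  have h6 := mul_le_mul_of_nonneg_left h1 (show (0 : ℝ) ≤ (L : ℝ) ^ i by positivity)
  refine h6.trans (le_of_eq ?_)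
  ring

end Pool.Agent.Q295.PCR.TaskSepP
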