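import Pool.Agent.Q295.PCR.Stmts
set_option autoImplicit false

namespace Pool.Agent.Q295.PCR.TaskSizeP
open Pool.Agent.Q295.PCR MeasureTheory Set

theorem bs_pos (τ x : ℝ) : 0 < bs τ x := Real.rpow_pos_of_pos two_pos _

theorem bs_le (τ x : ℝ) (hx : x ≠ 0) : bs τ x ≤ |x| ∧ |x| < 2 * bs τ x := by
  have hx' : 0 < |x| := abs_pos.2 hx
  have h1 : ((jj τ x : ℤ) : ℝ) ≤ Real.logb 2 |x| - τ := Int.floor_le _
  have h2 : Real.logb 2 |x| - τ < ((jj τ x : ℤ) : ℝ) + 1 := Int.lt_floor_add_one _
  have h3 : (2 : ℝ) ^ (Real.logb 2 |x|) = |x| :=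
    Real.rpow_logb two_pos (by norm_num) hx'
  constructor
  · conv_rhs => rw [← h3]
    exact Real.rpow_le_rpow_of_exponent_le (by norm_num) (by linarith)
  · conv_lhs => rw [← h3]
    have h4 : 2 * bs τ x = (2 : ℝ) ^ ((jj τ x : ℝ) + τ + 1) := by
      rw [Real.rpow_add_one two_ne_zero, mul_comm]; rfl
    rw [h4]
    exact Real.rpow_lt_rpow_of_exponent_lt (by norm_num) (by linarith)

theorem main : Pool.Agent.Q295.PCR.TaskSize := by
  intro L i τ hL
  have hLi : (0 : ℝ) < (L : ℝ) ^ i := pow_pos (by exact_mod_cast hL) i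
  refine ⟨fun x hx => bs_le τ x hx, ?_, ?_⟩
  · rintro x y ⟨hs, hk⟩
    by_cases hx : x = 0
    · subst hx
      rw [sign_zero] at hs
      have hy : y = 0 := sign_eq_zero_iff.1 hs.symm
      subst hy
      simp [ms]
    · obtain ⟨hj, hk⟩ := hk hx
      have hy : y ≠ 0 := by
        rintro rfl
        rw [sign_zero] at hs
        exact hx (sign_eq_zero_iff.1 hs)
      have hb : bs τ y = bs τ x := by unfold bs; rw [hj]
      have hms : ms L i τ y = ms L i τ x := by
        unfold ms; rw [if_neg hx, if_neg hy, hb]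
      refine ⟨?_, hms⟩
      have h1 : |(|x| / bs τ x * (L : ℝ) ^ i) - (|y| / bs τ x * (L : ℝ) ^ i)| < 1 := by
        apply Int.abs_sub_lt_one_of_floor_eq_floor
        unfold kk at hk
        rw [hb] at hk
        exact hk
      have hbp := bs_pos τ x
      have h2 : (|x| / bs τ x * (L : ℝ) ^ i) - (|y| / bs τ x * (L : ℝ) ^ i) =
          (|x| - |y|) / (bs τ x / (L : ℝ) ^ i) := by
        field_simp
      rw [h2, abs_div, abs_of_pos (div_pos hbp hLi), div_lt_one (div_pos hbp hLi)] at h1
      have h3 : |x - y| = |(|x| - |y|)| := by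
        rcases lt_or_gt_of_ne hx with hxn | hxp
        · have hyn : y < 0 := by
            rw [sign_neg hxn] at hs
            exact sign_eq_neg_one_iff.1 hs.symm
          rw [abs_of_neg hxn, abs_of_neg hyn, ← abs_neg (x - y)]
          ring_nf
        · have hyp : 0 < y := by
            rw [sign_pos hxp] at hs
            exact sign_eq_one_iff.1 hs.symm
          rw [abs_of_pos hxp, abs_of_pos hyp]
      rw [h3]
      unfold ms
      rw [if_neg hx]
      exact h1.le
  · intro x
    by_cases hx : x = 0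
    · subst hx
      simp [ms]
    · obtain ⟨h1, h2⟩ := bs_le τ x hx
      have hbp := bs_pos τ x
      unfold ms
      rw [if_neg hx]
      refine ⟨by positivity, by gcongr, ?_⟩
      rw [div_le_div_iff₀ (by positivity) hLi]
      nlinarith

end Pool.Agent.Q295.PCR.TaskSizeP
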