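import Pool.Agent.Q295.PCR.Stmts

/-! # `TaskSpace` -/

set_option autoImplicit false

namespace Pool.Agent.Q295.PCR.TaskSpaceP

open MeasureTheory Set Filter ProbabilityTheory Topology
open Pool.Agent.Q295.PCR

theorem main : Pool.Agent.Q295.PCR.TaskSpace := by
  obtain ⟨f, hf, hmap⟩ := MeasureTheory.Measure.exists_measurable_map_eq (unif.prod UU)
  have hval : MeasurePreserving (Subtype.val : unitInterval → ℝ) volume (volume.restrict (Icc 0 1)) := by
    refine ⟨measurable_subtype_coe, ?_⟩
    exact map_comap_subtype_coe measurableSet_Icc volume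
  have hproj : MeasurePreserving (fun x : ℝ => (projIcc (0 : ℝ) 1 zero_le_one x : unitInterval))
      unif volume := by
    refine ⟨continuous_projIcc.measurable, ?_⟩
    unfold unif
    rw [← hval.map_eq, Measure.map_map continuous_projIcc.measurable measurable_subtype_coe]
    have : (fun x : ℝ => (projIcc (0 : ℝ) 1 zero_le_one x : unitInterval)) ∘
        (Subtype.val : unitInterval → ℝ) = id := by
      funext x
      exact projIcc_val zero_le_one x
    rw [this, Measure.map_id]
  refine ⟨fun x => f (projIcc (0 : ℝ) 1 zero_le_one x), hf.comp continuous_projIcc.measurable, ?_⟩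
  rw [← hmap, ← hproj.map_eq, Measure.map_map hf hproj.measurable]
  rfl

end Pool.Agent.Q295.PCR.TaskSpaceP
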