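import Pool.Agent.Q295.PCR.Stmts

set_option autoImplicit false

namespace Pool.Agent.Q295.PCR.TaskStayP

open MeasureTheory Set Filter ProbabilityTheory Topology Pool.Agent.Q295.PCR
open scoped ENNReal

/-- if `μ` lives on an interval, all the quantiles are in the interval -/
theorem qf_mem (hQ : TaskQf) (μ : Measure ℝ) [IsProbabilityMeasure μ] (c : Set ℝ)
    (hc : c.OrdConnected) (h0 : μ cᶜ = 0) (u : ℝ) (hu : u ∈ Ioo (0 : ℝ) 1) : Qf μ u ∈ c := by
  by_contra hz
  have hq := (hQ μ).1 u hu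
  generalize Qf μ u = z at hz hq
  have hcases : c ⊆ Iio z ∨ c ⊆ Ioi z := by
    by_contra hcon
    rw [not_or] at hcon
    obtain ⟨h1, h2⟩ := hcon
    obtain ⟨a, ha, ha'⟩ := Set.not_subset.1 h1
    obtain ⟨b, hb, hb'⟩ := Set.not_subset.1 h2
    exact hz (hc.out hb ha ⟨not_lt.1 hb', not_lt.1 ha'⟩)
  rcases hcases with h | h
  · have hm : μ c = 1 := (prob_compl_eq_zero_iff hc.measurableSet).1 h0
    have h1 : 1 ≤ μ (Iio z) := by
      rw [← hm]
      exact measure_mono h
    have h3 : (⋃ n : ℕ, Iic (z - 1 / ((n : ℝ) + 1))) = Iio z := by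
      ext x
      simp only [mem_iUnion, mem_Iic, mem_Iio]
      constructor
      · rintro ⟨n, hn⟩
        have : (0 : ℝ) < 1 / ((n : ℝ) + 1) := by positivity
        linarith
      · intro hx
        obtain ⟨n, hn⟩ := exists_nat_one_div_lt (show (0 : ℝ) < z - x by linarith)
        exact ⟨n, by linarith⟩
    have hmono : Monotone (fun n : ℕ => Iic (z - 1 / ((n : ℝ) + 1))) := by
      intro n m hnm
      apply Iic_subset_Iic.2
      have : 1 / ((m : ℝ) + 1) ≤ 1 / ((n : ℝ) + 1) := by
        apply one_div_le_one_div_of_le (by positivity)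
        have : (n : ℝ) ≤ m := by exact_mod_cast hnm
        linarith
      linarith
    have h4 : μ (Iio z) ≤ ENNReal.ofReal u := by
      rw [← h3, hmono.measure_iUnion]
      refine iSup_le (fun n => ?_)
      have hn : (0 : ℝ) < 1 / ((n : ℝ) + 1) := by positivity
      have h5 : ¬ (u ≤ μ.real (Iic (z - 1 / ((n : ℝ) + 1)))) := by
        rw [← hq]
        intro h6
        linarith
      rw [← ofReal_measureReal (measure_ne_top μ _)]
      exact ENNReal.ofReal_le_ofReal (not_le.1 h5).le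
    have h6 : (1 : ENNReal) ≤ ENNReal.ofReal u := h1.trans h4
    rw [ENNReal.one_le_ofReal] at h6
    exact absurd hu.2 (not_lt.2 h6)
  · have hsub : Iic z ⊆ cᶜ := by
      intro x hx hxc
      have h5 : z < x := h hxc
      have h6 : x ≤ z := hx
      exact absurd h5 (not_lt.2 h6)
    have h1 : μ (Iic z) = 0 := measure_mono_null hsub h0
    have h2 := (hq z).1 le_rfl
    rw [measureReal_def, h1, ENNReal.toReal_zero] at h2
    exact absurd hu.1 (not_lt.2 h2)

theorem main (hQ : TaskQf) (hC : TaskCount) (hI : TaskIoo) (hL : TaskLaw) :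
    Pool.Agent.Q295.PCR.TaskStay := by
  intro L P _ τ hL1
  have h1 : ∀ᵐ u ∂UU, ∀ i, P (cell L i τ (XX L P τ u i)) ≠ 0 :=
    ae_all_iff.2 (fun i => (hL L P τ i hL1).2)
  have h2 : ∀ᵐ u ∂UU, ∀ n, u n ∈ Ioo (0 : ℝ) 1 := hI
  filter_upwards [h1, h2] with u hu hu' i
  have hoc : (cell L i τ (XX L P τ u i)).OrdConnected := (hC L i τ hL1).2 _
  have hms : MeasurableSet (cell L i τ (XX L P τ u i)) := hoc.measurableSet
  haveI : IsProbabilityMeasure (cond P (cell L i τ (XX L P τ u i))) :=
    cond_isProbabilityMeasure (hu i)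
  have h0 : (cond P (cell L i τ (XX L P τ u i))) (cell L i τ (XX L P τ u i))ᶜ = 0 := by
    rw [cond_apply hms, inter_compl_self, measure_empty, mul_zero]
  exact qf_mem hQ _ _ hoc h0 (u (i + 1)) (hu' (i + 1))

end Pool.Agent.Q295.PCR.TaskStayP
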