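import Pool.Agent.Q295.PCR.Stmts

set_option autoImplicit false

namespace Pool.Agent.Q295.PCR.TaskTauP

open Pool.Agent.Q295.PCR
open MeasureTheory Set Filter ProbabilityTheory Topology
open scoped ENNReal

theorem pos (hLow : TaskTauLow) (hHigh : TaskTauHigh) (q : ℝ) (L : ℕ) (x y : ℝ) (hP : Par q L)
    (hx : 0 < x) (hxy : x < y) (h8 : 8 * (y - x) < y) :
    ∫⁻ τ, (∑' i : ℕ, lev q L i τ x y) ∂unif ≤ 20000 * ENNReal.ofReal (|x - y| ^ q) := by
  set c := ENNReal.ofReal (|x - y| ^ q) with hc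
  have hsplit : ∀ τ : ℝ, (∑' i : ℕ, lev q L i τ x y) ≤
      10000 * c + ∑' i : ℕ, if y ≤ 2 * (L : ℝ) ^ i * (y - x) then 0 else lev q L i τ x y := by
    intro τ
    have h1 := hLow q L τ x y hP hx hxy h8
    have h2 : (∑' i : ℕ, lev q L i τ x y) =
        (∑' i : ℕ, if y ≤ 2 * (L : ℝ) ^ i * (y - x) then lev q L i τ x y else 0) +
        ∑' i : ℕ, if y ≤ 2 * (L : ℝ) ^ i * (y - x) then 0 else lev q L i τ x y := by
      rw [← ENNReal.tsum_add]
      refine tsum_congr fun i => ?_
      split_ifs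
      · rw [add_zero]
      · rw [zero_add]
    rw [h2]
    exact add_le_add h1 le_rfl
  calc ∫⁻ τ, (∑' i : ℕ, lev q L i τ x y) ∂unif
      ≤ ∫⁻ τ, (10000 * c + ∑' i : ℕ, if y ≤ 2 * (L : ℝ) ^ i * (y - x) then 0
          else lev q L i τ x y) ∂unif := lintegral_mono hsplit
    _ = 10000 * c + ∫⁻ τ, (∑' i : ℕ, if y ≤ 2 * (L : ℝ) ^ i * (y - x) then 0
          else lev q L i τ x y) ∂unif := by
        rw [lintegral_add_left measurable_const, lintegral_const, measure_univ, mul_one]
    _ ≤ 10000 * c + 10000 * c := add_le_add le_rfl (hHigh q L x y hP hx hxy h8)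
    _ = 20000 * c := by rw [← add_mul]; norm_num

theorem symm (hM : TaskMirror) (q : ℝ) (L : ℕ) (x y : ℝ) (hP : Par q L)
    (h : ∫⁻ τ, (∑' i : ℕ, lev q L i τ x y) ∂unif ≤ 20000 * ENNReal.ofReal (|x - y| ^ q)) :
    ∫⁻ τ, (∑' i : ℕ, lev q L i τ y x) ∂unif ≤ 20000 * ENNReal.ofReal (|y - x| ^ q) := by
  rw [abs_sub_comm y x]
  refine le_trans (le_of_eq ?_) h
  refine lintegral_congr fun τ => tsum_congr fun i => ?_
  exact ((hM q L i τ x y).2).symm

theorem neg (hM : TaskMirror) (q : ℝ) (L : ℕ) (x y : ℝ) (hP : Par q L)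
    (h : ∫⁻ τ, (∑' i : ℕ, lev q L i τ (-x) (-y)) ∂unif ≤
      20000 * ENNReal.ofReal (|(-x) - (-y)| ^ q)) :
    ∫⁻ τ, (∑' i : ℕ, lev q L i τ x y) ∂unif ≤ 20000 * ENNReal.ofReal (|x - y| ^ q) := by
  have e : |(-x) - (-y)| = |x - y| := by
    rw [← abs_neg]
    congr 1
    ring
  rw [e] at h
  refine le_trans (le_of_eq ?_) h
  refine lintegral_congr fun τ => tsum_congr fun i => ?_
  exact ((hM q L i τ x y).1).symm

theorem aux (hM : TaskMirror) (hFar : TaskTauFar) (hLow : TaskTauLow) (hHigh : TaskTauHigh)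
    (q : ℝ) (L : ℕ) (x y : ℝ) (hP : Par q L) (h : |y| ≤ |x|) :
    ∫⁻ τ, (∑' i : ℕ, lev q L i τ x y) ∂unif ≤ 20000 * ENNReal.ofReal (|x - y| ^ q) := by
  by_cases h8 : |x| ≤ 8 * |x - y|
  · calc ∫⁻ τ, (∑' i : ℕ, lev q L i τ x y) ∂unif
        ≤ ∫⁻ _τ, 10000 * ENNReal.ofReal (|x - y| ^ q) ∂unif :=
          lintegral_mono fun τ => hFar q L τ x y hP h h8
      _ = 10000 * ENNReal.ofReal (|x - y| ^ q) := by
          rw [lintegral_const, measure_univ, mul_one]
      _ ≤ 20000 * ENNReal.ofReal (|x - y| ^ q) := by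
          gcongr
          norm_num
  · push Not at h8
    by_cases hxy : x = y
    · subst hxy
      have h0 : ∀ (τ : ℝ) (i : ℕ), lev q L i τ x x = 0 := by
        intro τ i
        unfold lev
        rw [if_pos ⟨rfl, fun _ => ⟨rfl, rfl⟩⟩]
        simp
      simp [h0]
    · rcases lt_trichotomy x 0 with hx | hx | hx
      · -- negative
        rw [abs_of_neg hx] at h h8
        have h1 : -y ≤ -x := le_trans (neg_le_abs y) h
        have h2 : y ≠ x := fun h => hxy h.symm
        have h3 : x < y := lt_of_le_of_ne (by linarith) hxy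
        have h4 : |x - y| = y - x := by rw [abs_of_neg (by linarith)]; ring
        rw [h4] at h8
        refine neg hM q L x y hP (symm hM q L (-y) (-x) hP ?_)
        exact pos hLow hHigh q L (-y) (-x) hP (by linarith) (by linarith) (by linarith)
      · rw [hx] at h8
        have := abs_nonneg (0 - y)
        rw [abs_zero] at h8
        linarith
      · rw [abs_of_pos hx] at h h8
        have h1 : y ≤ x := le_trans (le_abs_self y) h
        have h3 : y < x := lt_of_le_of_ne h1 (fun h => hxy h.symm)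
        have h4 : |x - y| = x - y := abs_of_pos (by linarith)
        rw [h4] at h8
        refine symm hM q L y x hP ?_
        exact pos hLow hHigh q L y x hP (by linarith) h3 (by linarith)

theorem main (hFar : TaskTauFar) (hM : TaskMirror) (hLow : TaskTauLow) (hHigh : TaskTauHigh) :
    Pool.Agent.Q295.PCR.TaskTau := by
  intro q L x y hP
  rcases le_total |y| |x| with h | h
  · exact aux hM hFar hLow hHigh q L x y hP h
  · exact symm hM q L y x hP (aux hM hFar hLow hHigh q L y x hP h)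

end Pool.Agent.Q295.PCR.TaskTauP
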