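import Pool.Agent.Q295.PCR.Stmts

set_option autoImplicit false

namespace Pool.Agent.Q295.PCR.TaskTauGP

open MeasureTheory Set Filter ProbabilityTheory Topology
open scoped ENNReal

theorem sub_add (q : ℝ) (hq0 : 0 < q) (hq1 : q ≤ 1) (a b : ℝ) (ha : 0 ≤ a) (hab : a ≤ b) :
    b ^ q - a ^ q ≤ (b - a) ^ q := by
  have h := NNReal.rpow_add_le_add_rpow (⟨a, ha⟩ : NNReal) (⟨b - a, by linarith⟩ : NNReal)
    hq0.le hq1
  have h' : (a + (b - a)) ^ q ≤ a ^ q + (b - a) ^ q := by exact_mod_cast h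
  rw [add_sub_cancel] at h'
  linarith

theorem sgn_ineq (q : ℝ) (hq0 : 0 < q) (hq1 : q ≤ 1) (x y : ℝ) (hxy : x ≤ y) :
    (SignType.sign y : ℝ) * |y| ^ q - (SignType.sign x : ℝ) * |x| ^ q ≤ 2 * |x - y| ^ q := by
  have hd : |x - y| = y - x := by rw [abs_sub_comm, abs_of_nonneg (by linarith)]
  rw [hd]
  have hpos : 0 ≤ (y - x) ^ q := Real.rpow_nonneg (by linarith) q
  have h0q : (0 : ℝ) ^ q = 0 := Real.zero_rpow hq0.ne'
  rcases lt_trichotomy x 0 with hx | hx | hx
  · rcases lt_trichotomy y 0 with hy | hy | hy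
    · have h1 := sub_add q hq0 hq1 (-y) (-x) (by linarith) (by linarith)
      rw [sign_neg hx, sign_neg hy, abs_of_neg hx, abs_of_neg hy]
      have h2 : -x - -y = y - x := by ring
      rw [h2] at h1
      simp only [SignType.coe_neg_one]
      linarith
    · subst hy
      rw [sign_neg hx, abs_of_neg hx]
      simp only [sign_zero, SignType.coe_zero, abs_zero, SignType.coe_neg_one]
      have h2 : (0 : ℝ) - x = -x := by ring
      rw [h2] at hpos ⊢
      linarith
    · rw [sign_neg hx, sign_pos hy, abs_of_neg hx, abs_of_pos hy]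
      simp only [SignType.coe_neg_one, SignType.coe_one]
      have h1 : y ^ q ≤ (y - x) ^ q := Real.rpow_le_rpow hy.le (by linarith) hq0.le
      have h2 : (-x) ^ q ≤ (y - x) ^ q := Real.rpow_le_rpow (by linarith) (by linarith) hq0.le
      linarith
  · subst hx
    rcases eq_or_lt_of_le hxy with hy | hy
    · rw [← hy]
      simp [h0q]
    · rw [sign_pos hy, abs_of_pos hy]
      simp only [sign_zero, SignType.coe_zero, SignType.coe_one, sub_zero, zero_mul] at hpos ⊢
      linarith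
  · have hy : 0 < y := lt_of_lt_of_le hx hxy
    have h1 := sub_add q hq0 hq1 x y hx.le hxy
    rw [sign_pos hx, sign_pos hy, abs_of_pos hx, abs_of_pos hy]
    simp only [SignType.coe_one]
    linarith

theorem bs_pos (τ x : ℝ) : 0 < bs τ x := Real.rpow_pos_of_pos (by norm_num) _

theorem gg_integrable (hM : TaskMeas) (hS : TaskSize) (q : ℝ) (hq : 0 < q) (x : ℝ) :
    Integrable (fun τ => gg q τ x) unif := by
  have hm : Measurable (fun τ : ℝ => gg q τ x) :=
    (hM.2.2.2.2.2.1 q).comp (measurable_id.prodMk measurable_const)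
  refine Integrable.of_bound (C := |(2 : ℝ) ^ q / (1 - (2 : ℝ) ^ (-q))| * |x| ^ q)
    hm.aestronglyMeasurable (Eventually.of_forall fun τ => ?_)
  unfold gg
  split_ifs with h
  · rw [norm_zero]
    positivity
  · rw [norm_mul, norm_mul, Real.norm_eq_abs, Real.norm_eq_abs, Real.norm_eq_abs]
    have h1 : |((SignType.sign x : SignType) : ℝ)| ≤ 1 := by
      rcases lt_trichotomy x 0 with hx | hx | hx
      · rw [sign_neg hx]; simp
      · exact absurd hx h
      · rw [sign_pos hx]; simp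
    have h2 : |bs τ x ^ q| ≤ |x| ^ q := by
      rw [abs_of_nonneg (Real.rpow_nonneg (bs_pos τ x).le q)]
      exact Real.rpow_le_rpow (bs_pos τ x).le ((hS 1 0 τ le_rfl).1 x h).1 hq.le
    calc |((SignType.sign x : SignType) : ℝ)| * |(2 : ℝ) ^ q / (1 - (2 : ℝ) ^ (-q))| * |bs τ x ^ q|
        ≤ 1 * |(2 : ℝ) ^ q / (1 - (2 : ℝ) ^ (-q))| * |x| ^ q := by gcongr
      _ = _ := by ring

theorem gg_integral (hB : TaskBs) (q : ℝ) (hq : 0 < q) (x : ℝ) :
    ∫ τ, gg q τ x ∂unif = (SignType.sign x : ℝ) * |x| ^ q * ((2 : ℝ) ^ q / (q * Real.log 2)) := by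
  by_cases h : x = 0
  · subst h
    simp [gg]
  · have h1 : (2 : ℝ) ^ (-q) < 1 := Real.rpow_lt_one_of_one_lt_of_neg (by norm_num) (by linarith)
    have h2 : (1 : ℝ) - (2 : ℝ) ^ (-q) ≠ 0 := by linarith
    have h3 : Real.log 2 ≠ 0 := (Real.log_pos (by norm_num)).ne'
    have hb := hB q x hq h
    rw [intervalIntegral.integral_of_le zero_le_one] at hb
    have e1 : ∫ τ, gg q τ x ∂unif = ∫ τ in Ioc (0 : ℝ) 1,
        (SignType.sign x : ℝ) * ((2 : ℝ) ^ q / (1 - (2 : ℝ) ^ (-q))) * (bs τ x) ^ q := by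
      unfold unif
      rw [integral_Icc_eq_integral_Ioc]
      simp only [gg, if_neg h]
    rw [e1, integral_const_mul, hb]
    field_simp

theorem main (hM : TaskMeas) (hS : TaskSize) (hG : TaskGMono) (hB : TaskBs) : TaskTauG := by
  have key : ∀ (q x y : ℝ), 1 / 2 ≤ q → q < 1 → x ≤ y →
      ∫⁻ τ, ENNReal.ofReal |gg q τ x - gg q τ y| ∂unif ≤ 12 * ENNReal.ofReal (|x - y| ^ q) := by
    intro q x y hq hq1 hxy
    have hq0 : 0 < q := by linarith
    have e1 : ∀ τ, |gg q τ x - gg q τ y| = gg q τ y - gg q τ x := fun τ => by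
      rw [abs_sub_comm, abs_of_nonneg (sub_nonneg.2 (hG q τ hq0 hxy))]
    simp only [e1]
    have hi : Integrable (fun τ => gg q τ y - gg q τ x) unif :=
      (gg_integrable hM hS q hq0 y).sub (gg_integrable hM hS q hq0 x)
    rw [← ofReal_integral_eq_lintegral_ofReal hi
      (Eventually.of_forall fun τ => sub_nonneg.2 (hG q τ hq0 hxy))]
    rw [integral_sub (gg_integrable hM hS q hq0 y) (gg_integrable hM hS q hq0 x),
      gg_integral hB q hq0 y, gg_integral hB q hq0 x, ← sub_mul]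
    have hl : (0.6931471803 : ℝ) < Real.log 2 := Real.log_two_gt_d9
    have hc : (2 : ℝ) ^ q / (q * Real.log 2) ≤ 6 := by
      rw [div_le_iff₀ (by positivity)]
      have h2 : (2 : ℝ) ^ q ≤ 2 := by
        calc (2 : ℝ) ^ q ≤ (2 : ℝ) ^ (1 : ℝ) :=
              Real.rpow_le_rpow_of_exponent_le (by norm_num) hq1.le
          _ = 2 := Real.rpow_one 2
      nlinarith
    have hc0 : 0 ≤ (2 : ℝ) ^ q / (q * Real.log 2) := by positivity
    have hs := sgn_ineq q hq0 hq1.le x y hxy
    have hp : 0 ≤ |x - y| ^ q := by positivity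
    have hfin : ((SignType.sign y : ℝ) * |y| ^ q - (SignType.sign x : ℝ) * |x| ^ q) *
        ((2 : ℝ) ^ q / (q * Real.log 2)) ≤ 12 * |x - y| ^ q := by
      calc ((SignType.sign y : ℝ) * |y| ^ q - (SignType.sign x : ℝ) * |x| ^ q) *
            ((2 : ℝ) ^ q / (q * Real.log 2))
          ≤ (2 * |x - y| ^ q) * ((2 : ℝ) ^ q / (q * Real.log 2)) :=
            mul_le_mul_of_nonneg_right hs hc0
        _ ≤ (2 * |x - y| ^ q) * 6 := mul_le_mul_of_nonneg_left hc (by positivity)
        _ = 12 * |x - y| ^ q := by ring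
    calc ENNReal.ofReal (((SignType.sign y : ℝ) * |y| ^ q - (SignType.sign x : ℝ) * |x| ^ q) *
            ((2 : ℝ) ^ q / (q * Real.log 2)))
        ≤ ENNReal.ofReal (12 * |x - y| ^ q) := ENNReal.ofReal_le_ofReal hfin
      _ = 12 * ENNReal.ofReal (|x - y| ^ q) := by
          rw [ENNReal.ofReal_mul (by norm_num)]
          norm_num
  intro q x y hq hq1
  rcases le_total x y with h | h
  · exact key q x y hq hq1 h
  · have := key q y x hq hq1 h
    rw [abs_sub_comm y x] at this
    refine le_trans (le_of_eq ?_) this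
    refine lintegral_congr fun τ => ?_
    rw [abs_sub_comm]

end Pool.Agent.Q295.PCR.TaskTauGP
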