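import Pool.Agent.Q295.PCR.Stmts

set_option autoImplicit false

namespace Pool.Agent.Q295.PCR.TaskTauHighP

open Pool.Agent.Q295.PCR
open MeasureTheory Set Filter ProbabilityTheory Topology
open scoped ENNReal

noncomputable section

lemma prob_term (q x y d Li K : ℝ) (hLi : 0 < Li) (hx : 0 < x) (hy : 0 < y)
    (hd : 0 < d) (hxy : y ≤ 8 / 7 * x) (hK : 0 ≤ K) :
    K * (y / Li) ^ q * (Li * d / (x * Real.log 2)) ≤
      2 * K * ((Li * d / y) ^ (1 - q) * d ^ q) := by
  have hlog : (0.69 : ℝ) < Real.log 2 := by linarith [Real.log_two_gt_d9]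
  have hlog0 : (0 : ℝ) < Real.log 2 := by linarith
  have hρ : 0 < Li * d / y := by positivity
  have h1 : Li * d / (x * Real.log 2) ≤ 2 * (Li * d / y) := by
    rw [← mul_div_assoc, div_le_div_iff₀ (by positivity) hy]
    have h3 : y ≤ 2 * (x * Real.log 2) := by nlinarith
    have h4 := mul_le_mul_of_nonneg_left h3 (mul_pos hLi hd).le
    linarith
  have h2 : (y / Li) ^ q * (Li * d / y) = (Li * d / y) ^ (1 - q) * d ^ q := by
    have e1 : y / Li = d / (Li * d / y) := by field_simp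
    have hq : (Li * d / y) ^ q ≠ 0 := (Real.rpow_pos_of_pos hρ q).ne'
    rw [e1, Real.div_rpow hd.le hρ.le, Real.rpow_sub hρ, Real.rpow_one]
    generalize (Li * d / y) ^ q = w at hq ⊢
    field_simp
  calc K * (y / Li) ^ q * (Li * d / (x * Real.log 2))
      ≤ K * (y / Li) ^ q * (2 * (Li * d / y)) :=
        mul_le_mul_of_nonneg_left h1 (mul_nonneg hK (Real.rpow_nonneg (by positivity) _))
    _ = 2 * K * ((y / Li) ^ q * (Li * d / y)) := by ring
    _ = _ := by rw [h2]

lemma sum_b (ρ : ℕ → ℝ) (s L : ℝ) (hs : 0 ≤ s) (hL : 1 ≤ L) (hLs : 2 ≤ L ^ s)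
    (hρ : ∀ i, 0 < ρ i) (hstep : ∀ i, ρ (i + 1) = L * ρ i) (n : ℕ) :
    ∑ i ∈ Finset.range n, (if 2 * ρ i < 1 then (ρ i) ^ s else 0) ≤ (ρ n) ^ s ∧
    ∑ i ∈ Finset.range n, (if 2 * ρ i < 1 then (ρ i) ^ s else 0) ≤ 2 := by
  induction n with
  | zero => simpa using Real.rpow_nonneg (hρ 0).le s
  | succ n ih =>
    have h2 : 2 * (ρ n) ^ s ≤ (ρ (n + 1)) ^ s := by
      rw [hstep, Real.mul_rpow (by linarith) (hρ n).le]
      exact mul_le_mul_of_nonneg_right hLs (Real.rpow_nonneg (hρ n).le s)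
    have h0 : 0 ≤ (ρ n) ^ s := Real.rpow_nonneg (hρ n).le s
    rw [Finset.sum_range_succ]
    split_ifs with h
    · have h1 : (ρ n) ^ s ≤ 1 := Real.rpow_le_one (hρ n).le (by linarith) hs
      constructor <;> linarith [ih.1, ih.2]
    · constructor <;> linarith [ih.1, ih.2]

lemma sum_d (ρ : ℕ → ℝ) (L : ℝ) (hL : 1 ≤ L)
    (hρ : ∀ i, 0 < ρ i) (hstep : ∀ i, ρ (i + 1) = L * ρ i) (n : ℕ) :
    ∑ i ∈ Finset.range n, (if 2 * ρ i < 1 ∧ 1 ≤ 2 * ρ (i + 1) then (1 : ℝ) else 0) ≤
      if 2 * ρ n < 1 then 0 else 1 := by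
  induction n with
  | zero => simp only [Finset.range_zero, Finset.sum_empty]; split_ifs <;> norm_num
  | succ n ih =>
    rw [Finset.sum_range_succ]
    have hmono : ρ n ≤ ρ (n + 1) := by rw [hstep]; nlinarith [hρ n]
    by_cases h1 : 2 * ρ n < 1
    · rw [if_pos h1] at ih
      by_cases h2 : 2 * ρ (n + 1) < 1
      · rw [if_neg (fun h => absurd h2 (not_lt.mpr h.2)), if_pos h2]; linarith
      · rw [if_pos ⟨h1, not_lt.mp h2⟩, if_neg h2]; linarith
    · rw [if_neg h1] at ih
      rw [if_neg (fun h => h1 h.1), if_neg (fun h => h1 (by linarith))]; linarith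

lemma hh_diff (hsize : TaskSize) (q : ℝ) (L i : ℕ) (τ x y : ℝ) (hL : 1 ≤ L) (hx : 0 < x)
    (hxy : x < y) (hS : Same L i τ x y) :
    ∃ B, 0 < B ∧ B ≤ x ∧ y < 2 * B ∧ |hh q L (i + 1) τ x - hh q L (i + 1) τ y| ≤
      (B / (L : ℝ) ^ (i + 1)) ^ q * ((y - x) / (B / (L : ℝ) ^ (i + 1)) + 1) := by
  have hy : 0 < y := hx.trans hxy
  obtain ⟨hj, -⟩ := hS.2 hx.ne'
  have hbs : bs τ x = bs τ y := by unfold bs; rw [hj]
  have hB : 0 < bs τ x := by unfold bs; positivity
  have s1 := ((hsize L i τ hL).1 x hx.ne').1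
  have s2 := ((hsize L i τ hL).1 y hy.ne').2
  rw [abs_of_pos hx] at s1
  rw [abs_of_pos hy, ← hbs] at s2
  refine ⟨bs τ x, hB, s1, s2, ?_⟩
  have hL0 : (0 : ℝ) < (L : ℝ) ^ (i + 1) := by
    have : (0 : ℝ) < L := by exact_mod_cast hL
    positivity
  have hm : 0 < bs τ x / (L : ℝ) ^ (i + 1) := by positivity
  unfold hh ms kk
  rw [if_neg hx.ne', if_neg hy.ne', sign_pos hx, sign_pos hy, ← hbs, abs_of_pos hx, abs_of_pos hy]
  have e : ∀ a b c : ℝ, ((1 : SignType) : ℝ) * a * b - ((1 : SignType) : ℝ) * a * c = a * (b - c) := by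
    intro a b c; simp; ring
  rw [e, abs_mul, abs_of_nonneg (Real.rpow_nonneg hm.le q)]
  refine mul_le_mul_of_nonneg_left ?_ (Real.rpow_nonneg hm.le q)
  set m := bs τ x / (L : ℝ) ^ (i + 1) with hmdef
  have ex : ∀ z : ℝ, z / bs τ x * (L : ℝ) ^ (i + 1) = z / m := by
    intro z; rw [hmdef]; field_simp
  rw [ex, ex]
  have hle : x / m ≤ y / m := div_le_div_of_nonneg_right hxy.le hm.le
  have hfl : ((⌊x / m⌋ : ℤ) : ℝ) ≤ (⌊y / m⌋ : ℤ) := by exact_mod_cast Int.floor_le_floor hle
  rw [abs_sub_comm, abs_of_nonneg (by linarith)]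
  have h1 := Int.floor_le (y / m)
  have h2 := Int.lt_floor_add_one (x / m)
  rw [sub_div]
  linarith

lemma same_hh (q : ℝ) (L i : ℕ) (τ x y : ℝ) (hx : 0 < x) (hxy : x < y)
    (hS : Same L i τ x y) : hh q L i τ x = hh q L i τ y := by
  have hy : 0 < y := hx.trans hxy
  obtain ⟨hj, hk⟩ := hS.2 hx.ne'
  have hbs : bs τ x = bs τ y := by unfold bs; rw [hj]
  unfold hh ms
  rw [if_neg hx.ne', if_neg hy.ne', hS.1, hbs, hk]

lemma caseB (q m d L : ℝ) (h1 : 1 / 2 ≤ q) (h2 : q < 1) (hm : 0 < m) (hd : 0 < d) (hL : 0 < L)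
    (hL4 : L ^ (1 - q) ≤ 4) (hm2 : m ≤ 2 * d) (hmd : d ≤ m * L) :
    m ^ q * (d / m + 1) ≤ 7 * d ^ q := by
  have hdq : 0 < d ^ q := Real.rpow_pos_of_pos hd q
  have a1 : m ^ q ≤ 2 * d ^ q := by
    calc m ^ q ≤ (2 * d) ^ q := Real.rpow_le_rpow hm.le hm2 (by linarith)
      _ = 2 ^ q * d ^ q := Real.mul_rpow (by norm_num) hd.le
      _ ≤ 2 * d ^ q := by
        refine mul_le_mul_of_nonneg_right ?_ hdq.le
        calc (2 : ℝ) ^ q ≤ 2 ^ (1 : ℝ) := Real.rpow_le_rpow_of_exponent_le (by norm_num) h2.le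
          _ = 2 := Real.rpow_one 2
  have hdm : 0 < d / m := by positivity
  have a2 : m ^ q * (d / m) ≤ 4 * d ^ q := by
    have e1 : d / m = (d / m) ^ q * (d / m) ^ (1 - q) := by
      rw [← Real.rpow_add hdm]; simp
    have e2 : m ^ q * (d / m) ^ q = d ^ q := by
      rw [← Real.mul_rpow hm.le hdm.le]; congr 1; field_simp
    have e3 : (d / m) ^ (1 - q) ≤ 4 := by
      refine le_trans (Real.rpow_le_rpow hdm.le ?_ (by linarith)) hL4
      rw [div_le_iff₀ hm]; linarith
    calc m ^ q * (d / m) = m ^ q * ((d / m) ^ q * (d / m) ^ (1 - q)) := by rw [← e1]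
      _ = d ^ q * (d / m) ^ (1 - q) := by rw [← mul_assoc, e2]
      _ ≤ d ^ q * 4 := mul_le_mul_of_nonneg_left e3 hdq.le
      _ = 4 * d ^ q := by ring
  rw [mul_add, mul_one]
  linarith

theorem main (hsize : TaskSize) (hmeas : TaskMeas) (hsep : TaskSep) :
    Pool.Agent.Q295.PCR.TaskTauHigh := by
  classical
  intro q L x y hP hx hxy h8
  have hL4 := hP.l3
  have hL1 : 1 ≤ L := by omega
  have hLR : (4 : ℝ) ≤ L := by exact_mod_cast hL4
  have hL0 : (0 : ℝ) < L := by linarith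
  have hq1 := hP.q1
  have hq2 := hP.q2
  have hy : 0 < y := hx.trans hxy
  obtain ⟨d, hd⟩ : ∃ d, d = y - x := ⟨_, rfl⟩
  have hd0 : 0 < d := by rw [hd]; linarith
  have habs : |x - y| = d := by rw [abs_sub_comm, abs_of_pos (by linarith), hd]
  rw [habs, ← hd]
  have h87 : y ≤ 8 / 7 * x := by linarith
  have hdq : 0 < d ^ q := Real.rpow_pos_of_pos hd0 q
  let ρ : ℕ → ℝ := fun i => (L : ℝ) ^ i * d / y
  have hρ : ∀ i, 0 < ρ i := fun i => by positivity
  have hstep : ∀ i, ρ (i + 1) = L * ρ i := fun i => by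
    show (L : ℝ) ^ (i + 1) * d / y = L * ((L : ℝ) ^ i * d / y)
    rw [pow_succ]; ring
  have hρlt : ∀ i, 2 * ρ i < 1 ↔ ¬ y ≤ 2 * (L : ℝ) ^ i * d := by
    intro i
    show 2 * ((L : ℝ) ^ i * d / y) < 1 ↔ _
    rw [not_le, ← mul_div_assoc, div_lt_one hy, mul_assoc]
  let N : ℕ → Set ℝ := fun i => {τ | ¬ Same L i τ x y}
  have hN : ∀ i, MeasurableSet (N i) := by
    intro i
    have h := hmeas.2.2.2.2.2.2 L i
    have hf : Measurable (fun τ : ℝ => ((τ, x, y) : ℝ × ℝ × ℝ)) := by fun_prop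
    exact (hf h).compl
  let c : ℕ → ℝ≥0∞ := fun i => if 2 * ρ i < 1 then ENNReal.ofReal (16 * (y / (L : ℝ) ^ i) ^ q) else 0
  let e : ℕ → ℝ≥0∞ := fun i => if 2 * ρ i < 1 ∧ 1 ≤ 2 * ρ (i + 1) then ENNReal.ofReal (7 * d ^ q) else 0
  let G : ℕ → ℝ → ℝ≥0∞ := fun i τ =>
    (N i).indicator (fun _ => c i) τ + (N (i + 1)).indicator (fun _ => c (i + 1)) τ + e i
  -- pointwise bound
  have hpt : ∀ i τ, (if y ≤ 2 * (L : ℝ) ^ i * d then 0 else lev q L i τ x y) ≤ G i τ := by
    intro i τ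
    by_cases hi : y ≤ 2 * (L : ℝ) ^ i * d
    · rw [if_pos hi]; exact bot_le
    rw [if_neg hi]
    have hi' := (hρlt i).mpr hi
    have hLi : (0 : ℝ) < (L : ℝ) ^ i := by positivity
    have hLi1 : (0 : ℝ) < (L : ℝ) ^ (i + 1) := by positivity
    by_cases hS : Same L i τ x y
    · have hlev : lev q L i τ x y = ENNReal.ofReal |hh q L (i + 1) τ x - hh q L (i + 1) τ y| := by
        unfold lev; rw [if_pos hS]
      rw [hlev]
      by_cases hS1 : Same L (i + 1) τ x y
      · rw [same_hh q L (i + 1) τ x y hx hxy hS1, sub_self, abs_zero, ENNReal.ofReal_zero]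
        exact bot_le
      obtain ⟨B, hB, hBx, hyB, hdiff⟩ := hh_diff hsize q L i τ x y hL1 hx hxy hS
      rw [← hd] at hdiff
      have hm : 0 < B / (L : ℝ) ^ (i + 1) := by positivity
      have hmy : B / (L : ℝ) ^ (i + 1) ≤ y / (L : ℝ) ^ (i + 1) :=
        div_le_div_of_nonneg_right (by linarith) hLi1.le
      by_cases hA : 2 * ρ (i + 1) < 1
      · have hA' := not_le.mp ((hρlt (i + 1)).mp hA)
        have hdm : d / (B / (L : ℝ) ^ (i + 1)) ≤ 1 := by
          rw [div_le_one hm, le_div_iff₀ hLi1]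
          nlinarith
        have hfin : |hh q L (i + 1) τ x - hh q L (i + 1) τ y| ≤
            16 * (y / (L : ℝ) ^ (i + 1)) ^ q := by
          have t1 : (B / (L : ℝ) ^ (i + 1)) ^ q ≤ (y / (L : ℝ) ^ (i + 1)) ^ q :=
            Real.rpow_le_rpow hm.le hmy (by linarith)
          have t0 : 0 ≤ (B / (L : ℝ) ^ (i + 1)) ^ q := Real.rpow_nonneg hm.le q
          nlinarith
        calc ENNReal.ofReal |hh q L (i + 1) τ x - hh q L (i + 1) τ y|
            ≤ ENNReal.ofReal (16 * (y / (L : ℝ) ^ (i + 1)) ^ q) := ENNReal.ofReal_le_ofReal hfin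
          _ = (N (i + 1)).indicator (fun _ => c (i + 1)) τ := by
            rw [Set.indicator_of_mem (show τ ∈ N (i + 1) from hS1)]
            show _ = if 2 * ρ (i + 1) < 1 then _ else _
            rw [if_pos hA]
          _ ≤ G i τ := by
            show _ ≤ _ + _ + _
            exact le_trans le_add_self le_self_add
      · have hA' := not_lt.mp hA
        have hA2 : y ≤ 2 * (L : ℝ) ^ (i + 1) * d := by
          by_contra hcon
          exact hA ((hρlt (i + 1)).mpr hcon)
        have hi2 := not_le.mp hi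
        have hfin : |hh q L (i + 1) τ x - hh q L (i + 1) τ y| ≤ 7 * d ^ q := by
          refine hdiff.trans (caseB q _ d L hq1 hq2 hm hd0 hL0 hP.l2 ?_ ?_)
          · refine hmy.trans ?_
            rw [div_le_iff₀ hLi1]; linarith
          · rw [pow_succ, div_mul_eq_mul_div, le_div_iff₀ (by positivity)]
            have : (L : ℝ) ^ i * d ≤ B := by nlinarith
            nlinarith
        calc ENNReal.ofReal |hh q L (i + 1) τ x - hh q L (i + 1) τ y|
            ≤ ENNReal.ofReal (7 * d ^ q) := ENNReal.ofReal_le_ofReal hfin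
          _ = e i := by
            show _ = if 2 * ρ i < 1 ∧ 1 ≤ 2 * ρ (i + 1) then _ else _
            rw [if_pos ⟨hi', hA'⟩]
          _ ≤ G i τ := le_add_self
    · have hlev : lev q L i τ x y = 8 * ENNReal.ofReal ((ms L i τ x) ^ q + (ms L i τ y) ^ q) := by
        unfold lev; rw [if_neg hS]
      have hs := (hsize L i τ hL1).2.2
      have m1 : (ms L i τ x) ^ q ≤ (y / (L : ℝ) ^ i) ^ q := by
        refine Real.rpow_le_rpow (hs x).1 ((hs x).2.1.trans ?_) (by linarith)
        rw [abs_of_pos hx]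
        exact div_le_div_of_nonneg_right hxy.le hLi.le
      have m2 : (ms L i τ y) ^ q ≤ (y / (L : ℝ) ^ i) ^ q := by
        refine Real.rpow_le_rpow (hs y).1 ((hs y).2.1.trans ?_) (by linarith)
        rw [abs_of_pos hy]
      calc lev q L i τ x y = ENNReal.ofReal (8 * ((ms L i τ x) ^ q + (ms L i τ y) ^ q)) := by
            rw [hlev, ENNReal.ofReal_mul (by norm_num)]; norm_num
        _ ≤ ENNReal.ofReal (16 * (y / (L : ℝ) ^ i) ^ q) := ENNReal.ofReal_le_ofReal (by linarith)
        _ = (N i).indicator (fun _ => c i) τ := by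
            rw [Set.indicator_of_mem (show τ ∈ N i from hS)]
            show _ = if 2 * ρ i < 1 then _ else _
            rw [if_pos hi']
        _ ≤ G i τ := by
            show _ ≤ _ + _ + _
            exact le_trans le_self_add le_self_add
  have hGm : ∀ i, Measurable (G i) := by
    intro i
    exact ((measurable_const.indicator (hN i)).add (measurable_const.indicator (hN (i + 1)))).add
      measurable_const
  -- the probabilities
  have hb : ∀ i, c i * unif (N i) ≤ ENNReal.ofReal (32 * (d ^ q *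
      (if 2 * ρ i < 1 then (ρ i) ^ (1 - q) else 0))) := by
    intro i
    show (if 2 * ρ i < 1 then _ else _) * _ ≤ _
    by_cases hi : 2 * ρ i < 1
    · rw [if_pos hi, if_pos hi]
      have hs := hsep L i x y hL1 hx hxy.le
      rw [← hd] at hs
      have hLi : (0 : ℝ) < (L : ℝ) ^ i := by positivity
      calc ENNReal.ofReal (16 * (y / (L : ℝ) ^ i) ^ q) * unif (N i)
          ≤ ENNReal.ofReal (16 * (y / (L : ℝ) ^ i) ^ q) *
            ENNReal.ofReal ((L : ℝ) ^ i * d / (x * Real.log 2)) := by gcongr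
        _ = ENNReal.ofReal (16 * (y / (L : ℝ) ^ i) ^ q * ((L : ℝ) ^ i * d / (x * Real.log 2))) :=
            (ENNReal.ofReal_mul (by positivity)).symm
        _ ≤ _ := ENNReal.ofReal_le_ofReal (by
            have := prob_term q x y d ((L : ℝ) ^ i) 16 hLi hx hy hd0 h87 (by norm_num)
            calc _ ≤ _ := this
              _ = 32 * (d ^ q * ((L : ℝ) ^ i * d / y) ^ (1 - q)) := by ring
              _ = _ := rfl)
    · rw [if_neg hi]; simp
  let b : ℕ → ℝ := fun i => if 2 * ρ i < 1 then (ρ i) ^ (1 - q) else 0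
  let δ : ℕ → ℝ := fun i => if 2 * ρ i < 1 ∧ 1 ≤ 2 * ρ (i + 1) then 1 else 0
  have hb0 : ∀ i, 0 ≤ b i := by
    intro i
    show 0 ≤ if 2 * ρ i < 1 then _ else _
    split_ifs
    · exact Real.rpow_nonneg (hρ i).le _
    · exact le_refl _
  have hδ0 : ∀ i, 0 ≤ δ i := by
    intro i
    show (0 : ℝ) ≤ if _ then _ else _
    split_ifs <;> norm_num
  have hint : ∀ i, ∫⁻ τ, G i τ ∂unif ≤
      ENNReal.ofReal (d ^ q * (32 * b i + 32 * b (i + 1) + 7 * δ i)) := by
    intro i
    have m1 : Measurable (fun τ => (N i).indicator (fun _ => c i) τ) :=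
      measurable_const.indicator (hN i)
    have m2 : Measurable (fun τ => (N (i + 1)).indicator (fun _ => c (i + 1)) τ) :=
      measurable_const.indicator (hN (i + 1))
    have e1 : ∫⁻ τ, G i τ ∂unif = c i * unif (N i) + c (i + 1) * unif (N (i + 1)) + e i := by
      show ∫⁻ τ, ((N i).indicator (fun _ => c i) τ + (N (i + 1)).indicator (fun _ => c (i + 1)) τ + e i)
        ∂unif = _
      rw [lintegral_add_right _ measurable_const, lintegral_add_right _ m2,
        lintegral_indicator_const (hN i), lintegral_indicator_const (hN (i + 1))]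
      simp
    have e2 : e i = ENNReal.ofReal (7 * (d ^ q * δ i)) := by
      show (if _ then _ else _) = ENNReal.ofReal (7 * (d ^ q * (if _ then _ else _)))
      split_ifs <;> simp
    rw [e1, e2]
    calc _ ≤ ENNReal.ofReal (32 * (d ^ q * b i)) + ENNReal.ofReal (32 * (d ^ q * b (i + 1))) +
          ENNReal.ofReal (7 * (d ^ q * δ i)) := by
          gcongr
          · exact hb i
          · exact hb (i + 1)
      _ = _ := by
          have := hb0 i
          have := hb0 (i + 1)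
          have := hδ0 i
          rw [← ENNReal.ofReal_add (by positivity) (by positivity),
            ← ENNReal.ofReal_add (by positivity) (by positivity)]
          congr 1; ring
  calc ∫⁻ τ, (∑' i : ℕ, if y ≤ 2 * (L : ℝ) ^ i * d then 0 else lev q L i τ x y) ∂unif
      ≤ ∫⁻ τ, ∑' i, G i τ ∂unif := lintegral_mono fun τ => ENNReal.tsum_le_tsum fun i => hpt i τ
    _ = ∑' i, ∫⁻ τ, G i τ ∂unif := lintegral_tsum fun i => (hGm i).aemeasurable
    _ ≤ ∑' i, ENNReal.ofReal (d ^ q * (32 * b i + 32 * b (i + 1) + 7 * δ i)) :=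
        ENNReal.tsum_le_tsum hint
    _ ≤ 10000 * ENNReal.ofReal (d ^ q) := by
        refine ENNReal.tsum_le_of_sum_range_le fun n => ?_
        rw [← ENNReal.ofReal_sum_of_nonneg (fun i _ => by
          have := hb0 i
          have := hb0 (i + 1)
          have := hδ0 i
          positivity)]
        have s1 := (sum_b ρ (1 - q) L (by linarith) (by linarith) hP.l1 hρ hstep n).2
        have s2 := (sum_b ρ (1 - q) L (by linarith) (by linarith) hP.l1 hρ hstep (n + 1)).2
        rw [Finset.sum_range_succ'] at s2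
        have s3 := sum_d ρ L (by linarith) hρ hstep n
        have s3' : ∑ i ∈ Finset.range n, δ i ≤ 1 := by
          refine s3.trans ?_
          split_ifs <;> norm_num
        have s1' : ∑ i ∈ Finset.range n, b i ≤ 2 := s1
        have s2' : ∑ i ∈ Finset.range n, b (i + 1) ≤ 2 := by
          have h0 := hb0 0
          have : ∑ i ∈ Finset.range n, b (i + 1) + b 0 ≤ 2 := s2
          linarith
        have tot : ∑ i ∈ Finset.range n, d ^ q * (32 * b i + 32 * b (i + 1) + 7 * δ i) ≤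
            10000 * d ^ q := by
          rw [← Finset.mul_sum, Finset.sum_add_distrib, Finset.sum_add_distrib, ← Finset.mul_sum,
            ← Finset.mul_sum, ← Finset.mul_sum]
          nlinarith
        calc _ ≤ ENNReal.ofReal (10000 * d ^ q) := ENNReal.ofReal_le_ofReal tot
          _ = 10000 * ENNReal.ofReal (d ^ q) := by
            rw [ENNReal.ofReal_mul (by norm_num)]; norm_num

end

end Pool.Agent.Q295.PCR.TaskTauHighP
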