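import Pool.Agent.Q295.PCR.Stmts

/-! Proof of `TaskTauLow` (blueprint of helper295), by helper242. -/

set_option autoImplicit false

namespace Pool.Agent.Q295.PCR.TaskTauLowP

open MeasureTheory Set Filter ProbabilityTheory Topology
open scoped ENNReal
open Pool.Agent.Q295.PCR

lemma lev_le (hM : TaskMono) (hS : TaskSize) {q : ℝ} {L : ℕ} (hP : Par q L) (i : ℕ) (τ x y : ℝ)
    (hx : 0 < x) (hxy : x < y) :
    lev q L i τ x y ≤ 16 * ENNReal.ofReal ((y / (L : ℝ) ^ i) ^ q) := by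
  have hL1 : 1 ≤ L := le_trans (by norm_num) hP.l3
  have hLpos : (0 : ℝ) < (L : ℝ) ^ i := by positivity
  have hq : 0 ≤ q := le_trans (by norm_num) hP.q1
  obtain ⟨-, -, hms⟩ := hS L i τ hL1
  have hy : 0 < y := hx.trans hxy
  have hx1 : ms L i τ x ≤ y / (L : ℝ) ^ i := by
    refine ((hms x).2.1).trans ?_
    rw [abs_of_pos hx]
    exact div_le_div_of_nonneg_right hxy.le hLpos.le
  have hy1 : ms L i τ y ≤ y / (L : ℝ) ^ i := by
    refine ((hms y).2.1).trans ?_
    rw [abs_of_pos hy]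
  have hx2 : (ms L i τ x) ^ q ≤ (y / (L : ℝ) ^ i) ^ q := Real.rpow_le_rpow (hms x).1 hx1 hq
  have hy2 : (ms L i τ y) ^ q ≤ (y / (L : ℝ) ^ i) ^ q := Real.rpow_le_rpow (hms y).1 hy1 hq
  have hA : 0 ≤ (y / (L : ℝ) ^ i) ^ q := Real.rpow_nonneg (by positivity) _
  have e16 : (16 : ℝ≥0∞) * ENNReal.ofReal ((y / (L : ℝ) ^ i) ^ q) =
      ENNReal.ofReal (16 * (y / (L : ℝ) ^ i) ^ q) := by
    rw [ENNReal.ofReal_mul (by norm_num)]
    norm_num
  have e8 : (8 : ℝ≥0∞) * ENNReal.ofReal ((ms L i τ x) ^ q + (ms L i τ y) ^ q) =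
      ENNReal.ofReal (8 * ((ms L i τ x) ^ q + (ms L i τ y) ^ q)) := by
    rw [ENNReal.ofReal_mul (by norm_num)]
    norm_num
  unfold lev
  split_ifs with h
  · rw [e16]
    apply ENNReal.ofReal_le_ofReal
    obtain ⟨g, -, hg1, hg2⟩ := hM q L i τ x hP
    have hxc : x ∈ cell L i τ x := ⟨rfl, fun _ => ⟨rfl, rfl⟩⟩
    have hyc : y ∈ cell L i τ x := h
    have h3 := hg2 x hxc y hyc
    rw [hg1 x hxc, hg1 y hyc] at h3
    linarith
  · rw [e8, e16]
    apply ENNReal.ofReal_le_ofReal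
    linarith

lemma two_le (q : ℝ) (L : ℕ) (hP : Par q L) : (2 : ℝ) ≤ (L : ℝ) ^ q := by
  have h4 : (4 : ℝ) ≤ (L : ℝ) := by exact_mod_cast hP.l3
  have h1 : (4 : ℝ) ^ (1 / 2 : ℝ) ≤ (L : ℝ) ^ (1 / 2 : ℝ) :=
    Real.rpow_le_rpow (by norm_num) h4 (by norm_num)
  have h2 : (L : ℝ) ^ (1 / 2 : ℝ) ≤ (L : ℝ) ^ q :=
    Real.rpow_le_rpow_of_exponent_le (by linarith) hP.q1
  have h3 : (4 : ℝ) ^ (1 / 2 : ℝ) = 2 := by
    rw [show (4 : ℝ) = 2 ^ (2 : ℝ) by norm_num, ← Real.rpow_mul (by norm_num)]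
    norm_num
  linarith

theorem main (hM : TaskMono) (hS : TaskSize) : Pool.Agent.Q295.PCR.TaskTauLow := by
  classical
  intro q L τ x y hP hx hxy hd
  have hdpos : 0 < y - x := by linarith
  have habs : |x - y| = y - x := by rw [abs_sub_comm]; exact abs_of_pos hdpos
  rw [habs]
  have hq : 0 ≤ q := le_trans (by norm_num) hP.q1
  have hL1 : 1 ≤ L := le_trans (by norm_num) hP.l3
  have hLp : (0 : ℝ) < (L : ℝ) := by exact_mod_cast hL1
  by_cases hex : ∃ i : ℕ, y ≤ 2 * (L : ℝ) ^ i * (y - x)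
  · set i₀ := Nat.find hex with hi₀
    have hsp : y ≤ 2 * (L : ℝ) ^ i₀ * (y - x) := Nat.find_spec hex
    rw [← Summable.sum_add_tsum_nat_add' (k := i₀) ENNReal.summable]
    have hz : ∑ i ∈ Finset.range i₀,
        (if y ≤ 2 * (L : ℝ) ^ i * (y - x) then lev q L i τ x y else 0) = 0 := by
      apply Finset.sum_eq_zero
      intro i hi
      rw [if_neg (Nat.find_min hex (Finset.mem_range.mp hi))]
    rw [hz, zero_add]
    have hterm : ∀ k : ℕ, (if y ≤ 2 * (L : ℝ) ^ (k + i₀) * (y - x) then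
        lev q L (k + i₀) τ x y else 0) ≤
        (32 * ENNReal.ofReal ((y - x) ^ q)) * (2⁻¹ : ℝ≥0∞) ^ k := by
      intro k
      have h1 : (if y ≤ 2 * (L : ℝ) ^ (k + i₀) * (y - x) then
        lev q L (k + i₀) τ x y else 0) ≤ 16 * ENNReal.ofReal ((y / (L : ℝ) ^ (k + i₀)) ^ q) := by
        split_ifs
        · exact lev_le hM hS hP _ τ x y hx hxy
        · exact zero_le
      refine h1.trans ?_
      have h2 : (y / (L : ℝ) ^ (k + i₀)) ^ q ≤ 2 * ((y - x) ^ q * (1 / 2) ^ k) := by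
        have h3 : y / (L : ℝ) ^ (k + i₀) ≤ (2 * (y - x)) * (1 / (L : ℝ)) ^ k := by
          rw [pow_add, div_le_iff₀ (by positivity)]
          have : (2 * (y - x)) * (1 / (L : ℝ)) ^ k * ((L : ℝ) ^ k * (L : ℝ) ^ i₀) =
              2 * (L : ℝ) ^ i₀ * (y - x) := by
            rw [one_div, inv_pow]
            field_simp
          rw [this]
          exact hsp
        have hyp : 0 ≤ y / (L : ℝ) ^ (k + i₀) := by
          have : 0 < y := hx.trans hxy
          positivity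
        have h4 := Real.rpow_le_rpow hyp h3 hq
        refine h4.trans ?_
        rw [Real.mul_rpow (by positivity) (by positivity), Real.mul_rpow (by norm_num) hdpos.le]
        have h5 : (2 : ℝ) ^ q ≤ 2 := by
          calc (2 : ℝ) ^ q ≤ (2 : ℝ) ^ (1 : ℝ) :=
                Real.rpow_le_rpow_of_exponent_le (by norm_num) hP.q2.le
            _ = 2 := Real.rpow_one 2
        have h6 : ((1 / (L : ℝ)) ^ k) ^ q ≤ (1 / 2) ^ k := by
          rw [← Real.rpow_natCast, ← Real.rpow_mul (by positivity), mul_comm (k : ℝ) q,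
            Real.rpow_mul (by positivity), Real.rpow_natCast]
          apply pow_le_pow_left₀ (by positivity)
          rw [Real.div_rpow (by norm_num) hLp.le, Real.one_rpow]
          exact one_div_le_one_div_of_le (by norm_num) (two_le q L hP)
        have h7 : 0 ≤ (y - x) ^ q := Real.rpow_nonneg hdpos.le _
        calc (2 : ℝ) ^ q * (y - x) ^ q * ((1 / (L : ℝ)) ^ k) ^ q
            ≤ 2 * (y - x) ^ q * (1 / 2) ^ k := by
              apply mul_le_mul _ h6 (by positivity) (by positivity)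
              exact mul_le_mul_of_nonneg_right h5 h7
          _ = 2 * ((y - x) ^ q * (1 / 2) ^ k) := by ring
      have h7 : 0 ≤ (y - x) ^ q := Real.rpow_nonneg hdpos.le _
      calc 16 * ENNReal.ofReal ((y / (L : ℝ) ^ (k + i₀)) ^ q)
          ≤ 16 * ENNReal.ofReal (2 * ((y - x) ^ q * (1 / 2) ^ k)) := by
            gcongr
        _ = (32 * ENNReal.ofReal ((y - x) ^ q)) * (2⁻¹ : ℝ≥0∞) ^ k := by
            rw [ENNReal.ofReal_mul (by norm_num), ENNReal.ofReal_mul h7,
              ENNReal.ofReal_pow (by norm_num)]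
            have : ENNReal.ofReal (1 / 2) = (2⁻¹ : ℝ≥0∞) := by
              rw [one_div, ENNReal.ofReal_inv_of_pos (by norm_num)]
              norm_num
            rw [this]
            have h2' : ENNReal.ofReal 2 = (2 : ℝ≥0∞) := by norm_num
            rw [h2', ← mul_assoc, ← mul_assoc]
            norm_num
    calc ∑' k : ℕ, (if y ≤ 2 * (L : ℝ) ^ (k + i₀) * (y - x) then
          lev q L (k + i₀) τ x y else 0)
        ≤ ∑' k : ℕ, (32 * ENNReal.ofReal ((y - x) ^ q)) * (2⁻¹ : ℝ≥0∞) ^ k :=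
          ENNReal.tsum_le_tsum hterm
      _ = (32 * ENNReal.ofReal ((y - x) ^ q)) * 2 := by
          rw [ENNReal.tsum_mul_left, ENNReal.tsum_geometric, ENNReal.one_sub_inv_two, inv_inv]
      _ = 64 * ENNReal.ofReal ((y - x) ^ q) := by ring
      _ ≤ 10000 * ENNReal.ofReal ((y - x) ^ q) := by
          gcongr
          norm_num
  · push Not at hex
    have : ∀ i : ℕ, (if y ≤ 2 * (L : ℝ) ^ i * (y - x) then lev q L i τ x y else 0) = 0 := by
      intro i
      rw [if_neg (not_le.mpr (hex i))]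
    simp only [this, tsum_zero]
    exact zero_le

end Pool.Agent.Q295.PCR.TaskTauLowP
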