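import Pool.Agent.Q295.PCR.Stmts

set_option autoImplicit false

namespace Pool.Agent.Q295.PCR.TaskW1P

open MeasureTheory Set Pool.Agent.Q295.PCR
open scoped ENNReal

theorem vol_set (a b : ℝ) : volume {t : ℝ | ¬(t < a ↔ t < b)} = ENNReal.ofReal |a - b| := by
  have h : {t : ℝ | ¬(t < a ↔ t < b)} = Ico (min a b) (max a b) := by
    ext t
    simp only [mem_Ico, mem_ofPred_eq, min_le_iff, lt_max_iff]
    constructor
    · intro h
      by_cases h1 : t < a
      · by_cases h2 : t < b
        · exact absurd (by tauto) h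
        · exact ⟨Or.inr (not_lt.1 h2), Or.inl h1⟩
      · by_cases h2 : t < b
        · exact ⟨Or.inl (not_lt.1 h1), Or.inr h2⟩
        · exact absurd (by tauto) h
    · rintro ⟨h1, h2⟩ h3
      rcases h1 with h1 | h1
      · rcases h2 with h2 | h2
        · linarith
        · exact absurd (h3.2 h2) (not_lt.2 h1)
      · rcases h2 with h2 | h2
        · exact absurd (h3.1 h2) (not_lt.2 h1)
        · linarith
  rw [h, Real.volume_Ico, max_sub_min_eq_abs, abs_sub_comm]

theorem tonelli {α : Type*} [MeasurableSpace α] (ρ : Measure α) [SFinite ρ] (f h : α → ℝ)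
    (hf : Measurable f) (hh : Measurable h) :
    ∫⁻ u, ENNReal.ofReal |f u - h u| ∂ρ =
      ∫⁻ t, ρ {u | ¬(t < f u ↔ t < h u)} ∂(volume : Measure ℝ) := by
  have hS : MeasurableSet {p : α × ℝ | ¬(p.2 < f p.1 ↔ p.2 < h p.1)} := by
    have h1 : MeasurableSet {p : α × ℝ | p.2 < f p.1} :=
      measurableSet_lt measurable_snd (hf.comp measurable_fst)
    have h2 : MeasurableSet {p : α × ℝ | p.2 < h p.1} :=
      measurableSet_lt measurable_snd (hh.comp measurable_fst)
    have h3 : {p : α × ℝ | ¬(p.2 < f p.1 ↔ p.2 < h p.1)} =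
        symmDiff {p : α × ℝ | p.2 < f p.1} {p : α × ℝ | p.2 < h p.1} := by
      ext p
      simp only [mem_symmDiff, mem_ofPred_eq]
      tauto
    rw [h3]
    exact h1.symmDiff h2
  have h1 := Measure.prod_apply (μ := ρ) (ν := (volume : Measure ℝ)) hS
  have h2 := Measure.prod_apply_symm (μ := ρ) (ν := (volume : Measure ℝ)) hS
  have h3 : ∫⁻ u, ENNReal.ofReal |f u - h u| ∂ρ =
      ∫⁻ u, volume (Prod.mk u ⁻¹' {p : α × ℝ | ¬(p.2 < f p.1 ↔ p.2 < h p.1)}) ∂ρ := by
    apply lintegral_congr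
    intro u
    exact (vol_set (f u) (h u)).symm
  rw [h3, ← h1, h2]
  rfl

theorem main (hQ : TaskQf) (hPair : TaskPair) : Pool.Agent.Q295.PCR.TaskW1 := by
  intro μ ν _ _ g γ hg h1 h2
  have hγ : IsProbabilityMeasure γ := ⟨by
    rw [← Set.preimage_univ (f := Prod.fst), ← Measure.map_apply measurable_fst MeasurableSet.univ,
      h1]
    simp⟩
  have hgm : Measurable g := hg.measurable
  have hμm := (hQ μ).2.1
  have hνm := (hQ ν).2.1
  have hl := tonelli unif (fun u => g (Qf μ u)) (fun u => g (Qf ν u)) (hgm.comp hμm) (hgm.comp hνm)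
  have hr := tonelli γ (fun z => g z.1) (fun z => g z.2) (hgm.comp measurable_fst)
    (hgm.comp measurable_snd)
  rw [hl, hr]
  apply lintegral_mono
  intro t
  have hU : IsUpperSet {x : ℝ | t < g x} := by
    intro x y hxy hx
    exact lt_of_lt_of_le hx (hg hxy)
  have hUm : MeasurableSet {x : ℝ | t < g x} := measurableSet_lt measurable_const hgm
  refine le_trans (hPair μ ν {x : ℝ | t < g x} hU) ?_
  apply ENNReal.ofReal_le_of_le_toReal
  have hm1 : μ.real {x : ℝ | t < g x} = γ.real (Prod.fst ⁻¹' {x : ℝ | t < g x}) := by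
    rw [← h1, measureReal_def, measureReal_def, Measure.map_apply measurable_fst hUm]
  have hm2 : ν.real {x : ℝ | t < g x} = γ.real (Prod.snd ⁻¹' {x : ℝ | t < g x}) := by
    rw [← h2, measureReal_def, measureReal_def, Measure.map_apply measurable_snd hUm]
  rw [hm1, hm2]
  change _ ≤ γ.real {z : ℝ × ℝ | ¬(t < g z.1 ↔ t < g z.2)}
  set D : Set (ℝ × ℝ) := {z : ℝ × ℝ | ¬(t < g z.1 ↔ t < g z.2)} with hD
  have hA : γ.real (Prod.fst ⁻¹' {x : ℝ | t < g x}) ≤
      γ.real (Prod.snd ⁻¹' {x : ℝ | t < g x}) + γ.real D := by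
    refine le_trans (measureReal_mono ?_) (measureReal_union_le _ _)
    intro z hz
    by_cases h : t < g z.2
    · exact Or.inl h
    · refine Or.inr ?_
      intro h'
      exact h (h'.1 hz)
  have hB : γ.real (Prod.snd ⁻¹' {x : ℝ | t < g x}) ≤
      γ.real (Prod.fst ⁻¹' {x : ℝ | t < g x}) + γ.real D := by
    refine le_trans (measureReal_mono ?_) (measureReal_union_le _ _)
    intro z hz
    by_cases h : t < g z.1
    · exact Or.inl h
    · refine Or.inr ?_
      intro h'
      exact h (h'.2 hz)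
  rw [abs_le]
  constructor <;> linarith

end Pool.Agent.Q295.PCR.TaskW1P
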