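import Pool.Agent.Q295.PCR.Stmts

/-! MP_ee92c9_pr Q1, crowd lemma PCR.TaskXLMeas (helper37). -/

set_option autoImplicit false

open MeasureTheory Set Filter ProbabilityTheory Topology
open scoped ENNReal

namespace Pool.Agent.Q295.PCR.TaskXLMeasP

open Pool.Agent.Q295.PCR

theorem main (h : TaskXMeas) : TaskXLMeas := by
  intro L P _
  choose f hf hfe using fun i => h L P i
  refine ⟨fun z => limsup (fun i => f i z.1 z.2) atTop, ?_, ?_⟩
  · exact Measurable.limsup fun i => hf i
  · intro τ u hu
    have hfun : (fun i => f i τ u) = fun i => XX L P τ u i := funext fun i => hfe i τ u hu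
    show limsup (fun i => f i τ u) atTop = limsup (fun i => XX L P τ u i) atTop
    rw [hfun]

end Pool.Agent.Q295.PCR.TaskXLMeasP
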