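import Pool.Agent.Q295.PCR.Stmts

set_option autoImplicit false

namespace Pool.Agent.Q295.PCR.TaskXMeasP

open Pool.Agent.Q295.PCR
open MeasureTheory Set Filter ProbabilityTheory Topology
open scoped ENNReal

theorem main (hQ : TaskQf) (hM : TaskMeas) : Pool.Agent.Q295.PCR.TaskXMeas := by
  intro L P hP i
  induction i with
  | zero =>
    refine ⟨fun _ u => Qf P (u 0), ?_, fun τ u _ => rfl⟩
    exact (hQ P).2.1.comp ((measurable_pi_apply 0).comp measurable_snd)
  | succ i ih =>
    classical
    obtain ⟨f, hf, hfe⟩ := ih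
    have hS := hM.2.2.2.2.2.2 L i
    have hs' : MeasurableSet {w : (ℝ × ℝ) × ℝ | Same L i w.1.1 w.1.2 w.2} := by
      have hm : Measurable (fun w : (ℝ × ℝ) × ℝ => (w.1.1, w.1.2, w.2)) := by fun_prop
      exact hm hS
    have hsec : ∀ a : ℝ × ℝ, MeasurableSet (cell L i a.1 a.2) := fun a =>
      measurable_prodMk_left (x := a) hs'
    have hp : Measurable fun a : ℝ × ℝ => P (cell L i a.1 a.2) :=
      measurable_measure_prodMk_left (ν := P) hs'
    have hpx : ∀ x : ℝ, Measurable fun a : ℝ × ℝ => P (cell L i a.1 a.2 ∩ Iic x) := by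
      intro x
      have h1 : MeasurableSet ({w : (ℝ × ℝ) × ℝ | Same L i w.1.1 w.1.2 w.2} ∩
          {w : (ℝ × ℝ) × ℝ | w.2 ≤ x}) :=
        hs'.inter (measurableSet_le measurable_snd measurable_const)
      exact measurable_measure_prodMk_left (ν := P) h1
    set G : (ℝ × ℝ) × ℝ → ℝ := fun w =>
      if w.2 ∈ Ioo (0 : ℝ) 1 then Qf (cond P (cell L i w.1.1 w.1.2)) w.2 else 0 with hGdef
    have hG : Measurable G := by
      refine measurable_of_Iic fun x => ?_
      have hset : G ⁻¹' Iic x =
          ({w | w.2 ∈ Ioo (0 : ℝ) 1} ∩ ({w | P (cell L i w.1.1 w.1.2) = 0}ᶜ ∩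
            {w | w.2 ≤ ((P (cell L i w.1.1 w.1.2))⁻¹ *
              P (cell L i w.1.1 w.1.2 ∩ Iic x)).toReal})) ∪
          (({w | w.2 ∈ Ioo (0 : ℝ) 1} ∩ {w | P (cell L i w.1.1 w.1.2) = 0}) ∩ {_w | 0 ≤ x}) ∪
          ({w | w.2 ∈ Ioo (0 : ℝ) 1}ᶜ ∩ {_w | 0 ≤ x}) := by
        ext w
        simp only [mem_preimage, mem_Iic, mem_union, mem_inter_iff, mem_compl_iff, mem_ofPred_eq]
        by_cases hv : w.2 ∈ Ioo (0 : ℝ) 1
        · by_cases h0 : P (cell L i w.1.1 w.1.2) = 0
          · have hc : cond P (cell L i w.1.1 w.1.2) = 0 := by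
              rw [ProbabilityTheory.cond, Measure.restrict_eq_zero.2 h0, smul_zero]
            have hG0 : G w = 0 := by
              rw [hGdef]
              simp only [if_pos hv, hc]
              unfold Qf
              have : {x : ℝ | w.2 ≤ (0 : Measure ℝ).real (Iic x)} = ∅ := by
                ext y
                simp only [mem_ofPred_eq, mem_empty_iff_false, iff_false, not_le]
                simpa using hv.1
              rw [this, Real.sInf_empty]
            rw [hG0]
            tauto
          · have hpr : IsProbabilityMeasure (cond P (cell L i w.1.1 w.1.2)) :=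
              cond_isProbabilityMeasure h0
            have hG1 : G w = Qf (cond P (cell L i w.1.1 w.1.2)) w.2 := by
              rw [hGdef]
              simp only [if_pos hv]
            have h1 := (hQ (cond P (cell L i w.1.1 w.1.2))).1 w.2 hv x
            have h2 : (cond P (cell L i w.1.1 w.1.2)).real (Iic x) =
                ((P (cell L i w.1.1 w.1.2))⁻¹ * P (cell L i w.1.1 w.1.2 ∩ Iic x)).toReal := by
              rw [Measure.real, cond_apply (hsec w.1)]
            rw [hG1, h1, h2]
            tauto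
        · have hG2 : G w = 0 := by
            rw [hGdef]
            simp only [if_neg hv]
          rw [hG2]
          tauto
      rw [hset]
      have m1 : MeasurableSet {w : (ℝ × ℝ) × ℝ | w.2 ∈ Ioo (0 : ℝ) 1} :=
        measurable_snd measurableSet_Ioo
      have m2 : MeasurableSet {w : (ℝ × ℝ) × ℝ | P (cell L i w.1.1 w.1.2) = 0} :=
        (hp.comp measurable_fst) (measurableSet_singleton 0)
      have m3 : MeasurableSet {w : (ℝ × ℝ) × ℝ | w.2 ≤ ((P (cell L i w.1.1 w.1.2))⁻¹ *
          P (cell L i w.1.1 w.1.2 ∩ Iic x)).toReal} := by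
        refine measurableSet_le measurable_snd ?_
        exact (((hp.comp measurable_fst).inv).mul ((hpx x).comp measurable_fst)).ennreal_toReal
      have m4 : MeasurableSet {_w : (ℝ × ℝ) × ℝ | 0 ≤ x} := MeasurableSet.const _
      exact ((m1.inter (m2.compl.inter m3)).union ((m1.inter m2).inter m4)).union
        (m1.compl.inter m4)
    refine ⟨fun τ u => G ((τ, f τ u), u (i + 1)), ?_, ?_⟩
    · have hm : Measurable (fun z : ℝ × (ℕ → ℝ) => ((z.1, f z.1 z.2), z.2 (i + 1))) :=
        (measurable_fst.prodMk hf).prodMk ((measurable_pi_apply (i + 1)).comp measurable_snd)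
      exact hG.comp hm
    · intro τ u hu
      show G ((τ, f τ u), u (i + 1)) = XX L P τ u (i + 1)
      rw [hGdef]
      simp only [if_pos (hu (i + 1)), hfe τ u hu]
      rfl

end Pool.Agent.Q295.PCR.TaskXMeasP
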