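import Pool.Agent.Q295.PCR.TaskPar
import Pool.Agent.Q295.PCR.TaskQf
import Pool.Agent.Q295.PCR.TaskPair
import Pool.Agent.Q295.PCR.TaskW1
import Pool.Agent.Q295.PCR.TaskCond
import Pool.Agent.Q295.PCR.TaskSame
import Pool.Agent.Q295.PCR.TaskSize
import Pool.Agent.Q295.PCR.TaskCount
import Pool.Agent.Q295.PCR.TaskMono
import Pool.Agent.Q295.PCR.TaskGMono
import Pool.Agent.Q295.PCR.TaskMeas
import Pool.Agent.Q295.PCR.TaskXMeas
import Pool.Agent.Q295.PCR.TaskIoo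
import Pool.Agent.Q295.PCR.TaskIndep
import Pool.Agent.Q295.PCR.TaskLaw
import Pool.Agent.Q295.PCR.TaskStay
import Pool.Agent.Q295.PCR.TaskCauchy
import Pool.Agent.Q295.PCR.TaskLimLaw
import Pool.Agent.Q295.PCR.TaskPath
import Pool.Agent.Q295.PCR.TaskLevel
import Pool.Agent.Q295.PCR.TaskLevel0
import Pool.Agent.Q295.PCR.TaskFloor
import Pool.Agent.Q295.PCR.TaskBs
import Pool.Agent.Q295.PCR.TaskTauG
import Pool.Agent.Q295.PCR.TaskSep
import Pool.Agent.Q295.PCR.TaskTauFar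
import Pool.Agent.Q295.PCR.TaskMirror
import Pool.Agent.Q295.PCR.TaskTauLow
import Pool.Agent.Q295.PCR.TaskTauHigh
import Pool.Agent.Q295.PCR.TaskTau
import Pool.Agent.Q295.PCR.TaskCost
import Pool.Agent.Q295.PCR.TaskAvg
import Pool.Agent.Q295.PCR.TaskXLMeas
import Pool.Agent.Q295.PCR.TaskSpace
import Pool.Agent.Q295.PCR.Final

set_option autoImplicit false

namespace Pool.Agent.Q295.PCR

theorem tPar : Pool.Agent.Q295.PCR.TaskPar := Pool.Agent.Q295.PCR.TaskParP.main 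

theorem tQf : Pool.Agent.Q295.PCR.TaskQf := Pool.Agent.Q295.PCR.TaskQfP.main 

theorem tPair : Pool.Agent.Q295.PCR.TaskPair := Pool.Agent.Q295.PCR.TaskPairP.main tQf

theorem tW1 : Pool.Agent.Q295.PCR.TaskW1 := Pool.Agent.Q295.PCR.TaskW1P.main tQf tPair

theorem tCond : Pool.Agent.Q295.PCR.TaskCond := Pool.Agent.Q295.PCR.TaskCondP.main tW1

theorem tSame : Pool.Agent.Q295.PCR.TaskSame := Pool.Agent.Q295.PCR.TaskSameP.main 

theorem tSize : Pool.Agent.Q295.PCR.TaskSize := Pool.Agent.Q295.PCR.TaskSizeP.main 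

theorem tCount : Pool.Agent.Q295.PCR.TaskCount := Pool.Agent.Q295.PCR.TaskCountP.main 

theorem tMono : Pool.Agent.Q295.PCR.TaskMono := Pool.Agent.Q295.PCR.TaskMonoP.main 

theorem tGMono : Pool.Agent.Q295.PCR.TaskGMono := Pool.Agent.Q295.PCR.TaskGMonoP.main 

theorem tMeas : Pool.Agent.Q295.PCR.TaskMeas := Pool.Agent.Q295.PCR.TaskMeasP.main 

theorem tXMeas : Pool.Agent.Q295.PCR.TaskXMeas := Pool.Agent.Q295.PCR.TaskXMeasP.main tQf tMeas

theorem tIoo : Pool.Agent.Q295.PCR.TaskIoo := Pool.Agent.Q295.PCR.TaskIooP.main 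

theorem tIndep : Pool.Agent.Q295.PCR.TaskIndep := Pool.Agent.Q295.PCR.TaskIndepP.main 

theorem tLaw : Pool.Agent.Q295.PCR.TaskLaw := Pool.Agent.Q295.PCR.TaskLawP.main tQf tXMeas tIoo tIndep tSame tMeas tCount

theorem tStay : Pool.Agent.Q295.PCR.TaskStay := Pool.Agent.Q295.PCR.TaskStayP.main tQf tCount tIoo tLaw

theorem tCauchy : Pool.Agent.Q295.PCR.TaskCauchy := Pool.Agent.Q295.PCR.TaskCauchyP.main tSize

theorem tLimLaw : Pool.Agent.Q295.PCR.TaskLimLaw := Pool.Agent.Q295.PCR.TaskLimLawP.main tXMeas tIoo tLaw tStay tCauchy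

theorem tPath : Pool.Agent.Q295.PCR.TaskPath := Pool.Agent.Q295.PCR.TaskPathP.main tSame tSize tCauchy

theorem tLevel : Pool.Agent.Q295.PCR.TaskLevel := Pool.Agent.Q295.PCR.TaskLevelP.main tQf tCond tSame tSize tCount tMono tMeas tXMeas tIoo tIndep tLaw

theorem tLevel0 : Pool.Agent.Q295.PCR.TaskLevel0 := Pool.Agent.Q295.PCR.TaskLevel0P.main tQf tW1 tGMono

theorem tFloor : Pool.Agent.Q295.PCR.TaskFloor := Pool.Agent.Q295.PCR.TaskFloorP.main 

theorem tBs : Pool.Agent.Q295.PCR.TaskBs := Pool.Agent.Q295.PCR.TaskBsP.main 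

theorem tTauG : Pool.Agent.Q295.PCR.TaskTauG := Pool.Agent.Q295.PCR.TaskTauGP.main tMeas tSize tGMono tBs

theorem tSep : Pool.Agent.Q295.PCR.TaskSep := Pool.Agent.Q295.PCR.TaskSepP.main tFloor

theorem tTauFar : Pool.Agent.Q295.PCR.TaskTauFar := Pool.Agent.Q295.PCR.TaskTauFarP.main tSize tMono

theorem tMirror : Pool.Agent.Q295.PCR.TaskMirror := Pool.Agent.Q295.PCR.TaskMirrorP.main 

theorem tTauLow : Pool.Agent.Q295.PCR.TaskTauLow := Pool.Agent.Q295.PCR.TaskTauLowP.main tMono tSize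

theorem tTauHigh : Pool.Agent.Q295.PCR.TaskTauHigh := Pool.Agent.Q295.PCR.TaskTauHighP.main tSize tMeas tSep

theorem tTau : Pool.Agent.Q295.PCR.TaskTau := Pool.Agent.Q295.PCR.TaskTauP.main tTauFar tMirror tTauLow tTauHigh

theorem tCost : Pool.Agent.Q295.PCR.TaskCost := Pool.Agent.Q295.PCR.TaskCostP.main tMeas tXMeas tIoo tStay tCauchy tPath tLevel tLevel0

theorem tAvg : Pool.Agent.Q295.PCR.TaskAvg := Pool.Agent.Q295.PCR.TaskAvgP.main tMeas tTauG tTau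

theorem tXLMeas : Pool.Agent.Q295.PCR.TaskXLMeas := Pool.Agent.Q295.PCR.TaskXLMeasP.main tXMeas

theorem tSpace : Pool.Agent.Q295.PCR.TaskSpace := Pool.Agent.Q295.PCR.TaskSpaceP.main 

end Pool.Agent.Q295.PCR
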