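import Pool.Agent.Q295.PCR.Stmts

namespace Pool.Agent.Q295.PCR.FbTauHigh

open Pool.Agent.Q295.PCR
open MeasureTheory Set Filter ProbabilityTheory Topology
open scoped ENNReal

theorem same_symm (hS : TaskSame) (L i : ℕ) (hL : 1 ≤ L) (τ x y : ℝ) (h : Same L i τ x y) :
    Same L i τ y x := (hS L i τ hL).2.1 x y h

/-- the geometric sum -/
theorem geo (lam : ℝ) (h2 : 2 ≤ lam) (N : ℕ) : ∑ i ∈ Finset.range (N + 1), lam ^ i ≤ 2 * lam ^ N := by
  induction N with
  | zero => simp
  | succ n ih =>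
    rw [Finset.sum_range_succ]
    have : lam ^ (n + 1) = lam * lam ^ n := by ring
    have h3 : 0 < lam ^ n := by positivity
    nlinarith

theorem powid (L : ℕ) (hL : 1 ≤ L) (q : ℝ) (i : ℕ) (y : ℝ) (hy : 0 < y) :
    (y / (L : ℝ) ^ i) ^ q * (L : ℝ) ^ i / y = y ^ (q - 1) * ((L : ℝ) ^ (1 - q)) ^ i := by
  have hL0 : (0 : ℝ) < L := by exact_mod_cast hL
  have hLi : (0 : ℝ) < (L : ℝ) ^ i := by positivity
  rw [Real.div_rpow hy.le hLi.le, Real.rpow_sub hy, Real.rpow_one]
  have h1 : ((L : ℝ) ^ (1 - q)) ^ i = (L : ℝ) ^ i / ((L : ℝ) ^ i) ^ q := by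
    rw [← Real.rpow_natCast, ← Real.rpow_mul hL0.le, mul_comm, Real.rpow_mul hL0.le,
      Real.rpow_natCast, Real.rpow_sub hLi, Real.rpow_one]
  rw [h1]
  have h2 : 0 < ((L : ℝ) ^ i) ^ q := by positivity
  field_simp

theorem floor_diff (a b : ℝ) (h : a ≤ b) : |((⌊a⌋ : ℤ) : ℝ) - (⌊b⌋ : ℤ)| ≤ (b - a) + 1 := by
  have h1 := Int.floor_le b
  have h2 := Int.lt_floor_add_one a
  have h3 : ((⌊a⌋ : ℤ) : ℝ) ≤ (⌊b⌋ : ℤ) := by exact_mod_cast Int.floor_le_floor h
  rw [abs_sub_comm, abs_of_nonneg (by linarith)]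
  linarith

theorem floor_diff1 (a b : ℝ) (h : a ≤ b) (h1 : b - a < 1) : |((⌊a⌋ : ℤ) : ℝ) - (⌊b⌋ : ℤ)| ≤ 1 := by
  have h2 := Int.floor_le b
  have h3 := Int.lt_floor_add_one a
  have h4 : ((⌊a⌋ : ℤ) : ℝ) ≤ (⌊b⌋ : ℤ) := by exact_mod_cast Int.floor_le_floor h
  have h5 : (⌊b⌋ : ℤ) < ⌊a⌋ + 2 := by
    have : ((⌊b⌋ : ℤ) : ℝ) < ((⌊a⌋ + 2 : ℤ) : ℝ) := by push_cast; linarith
    exact_mod_cast this
  have h6 : (⌊b⌋ : ℤ) ≤ ⌊a⌋ + 1 := by omega
  have h7 : ((⌊b⌋ : ℤ) : ℝ) ≤ ((⌊a⌋ + 1 : ℤ) : ℝ) := by exact_mod_cast h6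
  push_cast at h7
  rw [abs_sub_comm, abs_of_nonneg (by linarith)]
  linarith

/-- the pointwise bound -/
theorem pt (hZ : TaskSize) (q : ℝ) (L i : ℕ) (τ x y : ℝ) (hp : Par q L) (hx : 0 < x) (hxy : x < y)
    (h8 : 8 * (y - x) < y) (hi : 2 * (L : ℝ) ^ i * (y - x) < y) :
    lev q L i τ x y ≤ ({τ | ¬ Same L i τ x y} : Set ℝ).indicator
        (fun _ => ENNReal.ofReal (16 * (y / (L : ℝ) ^ i) ^ q)) τ +
      (if y ≤ 2 * (L : ℝ) ^ (i + 1) * (y - x) then ENNReal.ofReal (6 * (y - x) ^ q) else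
        ({τ | ¬ Same L (i + 1) τ x y} : Set ℝ).indicator
        (fun _ => ENNReal.ofReal ((y / (L : ℝ) ^ (i + 1)) ^ q)) τ) := by
  have hy : 0 < y := hx.trans hxy
  have hL1 : 1 ≤ L := le_trans (by norm_num) hp.l3
  have hL0 : (0 : ℝ) < L := by exact_mod_cast hL1
  have hq0 : 0 < q := by linarith [hp.q1]
  obtain ⟨hz1, hz2, hz3⟩ := hZ L i τ hL1
  obtain ⟨_, _, hz3'⟩ := hZ L (i + 1) τ hL1
  unfold lev
  by_cases hs : Same L i τ x y
  · rw [if_pos hs]
    refine le_trans ?_ le_add_self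
    obtain ⟨hs1, hs2⟩ := hs
    obtain ⟨hj, hk⟩ := hs2 hx.ne'
    have hbs : bs τ y = bs τ x := by unfold bs; rw [hj]
    have hbp : 0 < bs τ x := by unfold bs; positivity
    set m := bs τ x / (L : ℝ) ^ (i + 1) with hm
    have hm0 : 0 < m := by positivity
    have hmx : ms L (i + 1) τ x = m := by unfold ms; rw [if_neg hx.ne']
    have hmy : ms L (i + 1) τ y = m := by unfold ms; rw [if_neg hy.ne', hbs]
    have hkx : kk L (i + 1) τ x = ⌊x / m⌋ := by
      unfold kk
      rw [abs_of_pos hx, hm]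
      congr 1
      field_simp
    have hky : kk L (i + 1) τ y = ⌊y / m⌋ := by
      unfold kk
      rw [abs_of_pos hy, hm, hbs]
      congr 1
      field_simp
    have hhd : |hh q L (i + 1) τ x - hh q L (i + 1) τ y| =
        m ^ q * |((⌊x / m⌋ : ℤ) : ℝ) - (⌊y / m⌋ : ℤ)| := by
      unfold hh
      rw [hmx, hmy, hkx, hky, sign_pos hx, sign_pos hy]
      simp only [SignType.coe_one, one_mul]
      rw [← mul_sub, abs_mul, abs_of_pos (Real.rpow_pos_of_pos hm0 q)]
    have hmlow : y / (2 * (L : ℝ) ^ (i + 1)) ≤ m := by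
      have := (hz3' y).2.2
      rwa [hmy, abs_of_pos hy] at this
    have hmup : m ≤ y / (L : ℝ) ^ (i + 1) := by
      have := (hz3' y).2.1
      rwa [hmy, abs_of_pos hy] at this
    have hxm : x / m ≤ y / m := by gcongr
    have hD : 0 < y - x := by linarith
    rw [hhd]
    split_ifs with hc
    · apply ENNReal.ofReal_le_ofReal
      have h1 := floor_diff _ _ hxm
      have h2 : y / m - x / m = (y - x) / m := by ring
      rw [h2] at h1
      have hmq : m ^ q ≤ 2 * (y - x) ^ q := by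
        have h3 : m ≤ 2 * (y - x) := by
          refine hmup.trans ?_
          rw [div_le_iff₀ (by positivity)]
          nlinarith
        calc m ^ q ≤ (2 * (y - x)) ^ q := Real.rpow_le_rpow hm0.le h3 hq0.le
          _ = (2 : ℝ) ^ q * (y - x) ^ q := Real.mul_rpow (by norm_num) hD.le
          _ ≤ 2 * (y - x) ^ q := by
            gcongr
            calc (2 : ℝ) ^ q ≤ (2 : ℝ) ^ (1 : ℝ) :=
                  Real.rpow_le_rpow_of_exponent_le (by norm_num) hp.q2.le
              _ = 2 := Real.rpow_one 2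
      have hmq1 : m ^ q * ((y - x) / m) ≤ 4 * (y - x) ^ q := by
        have h4 : m ^ q * ((y - x) / m) = m ^ (q - 1) * (y - x) := by
          rw [Real.rpow_sub hm0, Real.rpow_one]
          ring
        have h5 : (y - x) / L ≤ m := by
          refine le_trans ?_ hmlow
          rw [div_le_div_iff₀ hL0 (by positivity), pow_succ]
          nlinarith
        have h6 : m ^ (q - 1) ≤ ((y - x) / L) ^ (q - 1) :=
          Real.rpow_le_rpow_of_nonpos (by positivity) h5 (by linarith [hp.q2])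
        have h7 : ((y - x) / L) ^ (q - 1) = (y - x) ^ (q - 1) * (L : ℝ) ^ (1 - q) := by
          rw [Real.div_rpow hD.le hL0.le, div_eq_mul_inv, ← Real.rpow_neg hL0.le, neg_sub]
        have h8 : (y - x) ^ (q - 1) * (y - x) = (y - x) ^ q := by
          rw [Real.rpow_sub hD, Real.rpow_one]
          field_simp
        rw [h4]
        calc m ^ (q - 1) * (y - x) ≤ ((y - x) ^ (q - 1) * (L : ℝ) ^ (1 - q)) * (y - x) := by
              rw [← h7]; gcongr
          _ = (L : ℝ) ^ (1 - q) * (y - x) ^ q := by rw [← h8]; ring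
          _ ≤ 4 * (y - x) ^ q := by
              gcongr
              exact hp.l2
      calc m ^ q * |((⌊x / m⌋ : ℤ) : ℝ) - (⌊y / m⌋ : ℤ)| ≤ m ^ q * ((y - x) / m + 1) := by gcongr
        _ = m ^ q * ((y - x) / m) + m ^ q := by ring
        _ ≤ 6 * (y - x) ^ q := by linarith
    · by_cases hs' : Same L (i + 1) τ x y
      · have : kk L (i + 1) τ x = kk L (i + 1) τ y := (hs'.2 hx.ne').2
        rw [hkx, hky] at this
        rw [this, sub_self, abs_zero, mul_zero, ENNReal.ofReal_zero]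
        exact bot_le
      · rw [indicator_of_mem (by exact hs')]
        apply ENNReal.ofReal_le_ofReal
        have h1 : y / m - x / m < 1 := by
          rw [← sub_div, div_lt_one hm0]
          refine lt_of_lt_of_le ?_ hmlow
          rw [lt_div_iff₀ (by positivity)]
          push_neg at hc
          linarith
        have h2 := floor_diff1 _ _ hxm h1
        calc m ^ q * |((⌊x / m⌋ : ℤ) : ℝ) - (⌊y / m⌋ : ℤ)| ≤ m ^ q * 1 := by gcongr
          _ ≤ (y / (L : ℝ) ^ (i + 1)) ^ q := by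
            rw [mul_one]
            exact Real.rpow_le_rpow hm0.le hmup hq0.le
  · rw [if_neg hs, indicator_of_mem (by exact hs)]
    refine le_trans ?_ le_self_add
    have h1 : (ms L i τ x) ^ q ≤ (y / (L : ℝ) ^ i) ^ q := by
      apply Real.rpow_le_rpow (hz3 x).1 _ hq0.le
      refine (hz3 x).2.1.trans ?_
      rw [abs_of_pos hx]
      gcongr
    have h2 : (ms L i τ y) ^ q ≤ (y / (L : ℝ) ^ i) ^ q := by
      apply Real.rpow_le_rpow (hz3 y).1 _ hq0.le
      refine (hz3 y).2.1.trans ?_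
      rw [abs_of_pos hy]
    have h3 : (8 : ℝ≥0∞) = ENNReal.ofReal 8 := by simp
    rw [h3, ← ENNReal.ofReal_mul (by norm_num)]
    apply ENNReal.ofReal_le_ofReal
    linarith

/-- probability of separation times the size -/
theorem sepc (hSep : TaskSep) (q : ℝ) (L i : ℕ) (x y : ℝ) (hp : Par q L) (hx : 0 < x) (hxy : x < y)
    (h8 : 8 * (y - x) < y) (c : ℝ) (hc : 0 ≤ c) :
    ENNReal.ofReal (c * (y / (L : ℝ) ^ i) ^ q) * unif {τ | ¬ Same L i τ x y} ≤
      ENNReal.ofReal (c * (5 / 3) * ((y - x) * y ^ (q - 1) * ((L : ℝ) ^ (1 - q)) ^ i)) := by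
  have hy : 0 < y := hx.trans hxy
  have hL1 : 1 ≤ L := le_trans (by norm_num) hp.l3
  have hL0 : (0 : ℝ) < L := by exact_mod_cast hL1
  have h1 := hSep L i x y hL1 hx hxy.le
  have h2 : (L : ℝ) ^ i * (y - x) / (x * Real.log 2) ≤ (5 / 3) * ((L : ℝ) ^ i * (y - x) / y) := by
    have hl := Real.log_two_gt_d9
    rw [div_le_iff₀ (by positivity)]
    have h3 : y ≤ (5 / 3) * (x * Real.log 2) := by nlinarith
    have h4 : (5 / 3) * ((L : ℝ) ^ i * (y - x) / y) * (x * Real.log 2) =
        ((L : ℝ) ^ i * (y - x)) * ((5 / 3) * (x * Real.log 2) / y) := by ring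
    rw [h4]
    have h5 : 1 ≤ (5 / 3) * (x * Real.log 2) / y := by
      rw [le_div_iff₀ hy]
      linarith
    have h6 : 0 ≤ (L : ℝ) ^ i * (y - x) := by
      have : 0 ≤ y - x := by linarith
      positivity
    nlinarith
  calc ENNReal.ofReal (c * (y / (L : ℝ) ^ i) ^ q) * unif {τ | ¬ Same L i τ x y}
      ≤ ENNReal.ofReal (c * (y / (L : ℝ) ^ i) ^ q) *
        ENNReal.ofReal ((5 / 3) * ((L : ℝ) ^ i * (y - x) / y)) := by
        gcongr
        exact h1.trans (ENNReal.ofReal_le_ofReal h2)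
    _ = ENNReal.ofReal (c * (y / (L : ℝ) ^ i) ^ q * ((5 / 3) * ((L : ℝ) ^ i * (y - x) / y))) :=
        (ENNReal.ofReal_mul (by positivity)).symm
    _ = _ := by
        congr 1
        have := powid L hL1 q i y hy
        calc c * (y / (L : ℝ) ^ i) ^ q * ((5 / 3) * ((L : ℝ) ^ i * (y - x) / y))
            = c * (5 / 3) * (y - x) * ((y / (L : ℝ) ^ i) ^ q * (L : ℝ) ^ i / y) := by ring
          _ = _ := by rw [this]; ring

theorem main (hZ : TaskSize) (hSep : TaskSep) (hM : TaskMeas) : TaskTauHigh := by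
  intro q L x y hp hx hxy h8
  have hy : 0 < y := hx.trans hxy
  have hL1 : 1 ≤ L := le_trans (by norm_num) hp.l3
  have hL0 : (0 : ℝ) < L := by exact_mod_cast hL1
  have hL4 : (4 : ℝ) ≤ L := by exact_mod_cast hp.l3
  have hD : 0 < y - x := by linarith
  have hq0 : 0 < q := by linarith [hp.q1]
  set lam := (L : ℝ) ^ (1 - q) with hlam
  have hl1 : 2 ≤ lam := hp.l1
  have hl2 : lam ≤ 4 := hp.l2
  -- the last level
  have hex : ∃ i : ℕ, y ≤ 2 * (L : ℝ) ^ i * (y - x) := by
    have ht : Tendsto (fun i : ℕ => (L : ℝ) ^ i) atTop atTop :=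
      tendsto_pow_atTop_atTop_of_one_lt (by linarith)
    obtain ⟨i, hi⟩ := (ht.eventually_ge_atTop (y / (y - x))).exists
    refine ⟨i, ?_⟩
    rw [div_le_iff₀ hD] at hi
    nlinarith
  classical
  set i0 := Nat.find hex with hi0
  have hi0s : y ≤ 2 * (L : ℝ) ^ i0 * (y - x) := Nat.find_spec hex
  have hlt : ∀ i < i0, 2 * (L : ℝ) ^ i * (y - x) < y := fun i hi => not_le.1 (Nat.find_min hex hi)
  have hge : ∀ i, i0 ≤ i → y ≤ 2 * (L : ℝ) ^ i * (y - x) := by
    intro i hi
    refine hi0s.trans ?_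
    gcongr
    linarith
  have hpos : i0 ≠ 0 := by
    intro h0
    rw [h0] at hi0s
    simp only [pow_zero, mul_one] at hi0s
    linarith
  obtain ⟨N, hN⟩ := Nat.exists_eq_succ_of_ne_zero hpos
  have hmeasS : ∀ i, MeasurableSet {τ | ¬ Same L i τ x y} := by
    intro i
    have h1 := hM.2.2.2.2.2.2 L i
    have h2 : Measurable (fun τ : ℝ => ((τ, x, y) : ℝ × ℝ × ℝ)) := by fun_prop
    exact (h2 h1).compl
  set B : ℕ → ℝ → ℝ≥0∞ := fun i τ => if i < i0 then
      (({τ | ¬ Same L i τ x y} : Set ℝ).indicator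
        (fun _ => ENNReal.ofReal (16 * (y / (L : ℝ) ^ i) ^ q)) τ +
      (if y ≤ 2 * (L : ℝ) ^ (i + 1) * (y - x) then ENNReal.ofReal (6 * (y - x) ^ q) else
        ({τ | ¬ Same L (i + 1) τ x y} : Set ℝ).indicator
        (fun _ => ENNReal.ofReal ((y / (L : ℝ) ^ (i + 1)) ^ q)) τ)) else 0 with hB
  have hBm : ∀ i, Measurable (B i) := by
    intro i
    rw [hB]
    simp only
    by_cases h : i < i0
    · simp only [h, if_true]
      apply Measurable.add
      · exact measurable_const.indicator (hmeasS i)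
      · split_ifs
        · exact measurable_const
        · exact measurable_const.indicator (hmeasS (i + 1))
    · simp only [h, if_false]
      exact measurable_const
  have hle : ∀ τ i, (if y ≤ 2 * (L : ℝ) ^ i * (y - x) then 0 else lev q L i τ x y) ≤ B i τ := by
    intro τ i
    rw [hB]
    simp only
    by_cases h : i < i0
    · rw [if_neg (not_le.2 (hlt i h)), if_pos h]
      exact pt hZ q L i τ x y hp hx hxy h8 (hlt i h)
    · rw [if_pos (hge i (not_lt.1 h))]
      exact bot_le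
  set w : ℝ := (y - x) * y ^ (q - 1) with hw
  have hw0 : 0 < w := by positivity
  have hint : ∀ i < i0, ∫⁻ τ, B i τ ∂unif ≤ ENNReal.ofReal (34 * (w * lam ^ i)) +
      (if i = N then ENNReal.ofReal (6 * (y - x) ^ q) else 0) := by
    intro i hi
    rw [hB]
    simp only [hi, if_true]
    rw [lintegral_add_left (measurable_const.indicator (hmeasS i)),
      lintegral_indicator_const (hmeasS i)]
    have h1 := sepc hSep q L i x y hp hx hxy h8 16 (by norm_num)
    by_cases hiN : i = N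
    · rw [if_pos hiN]
      have hc : y ≤ 2 * (L : ℝ) ^ (i + 1) * (y - x) := by
        apply hge
        omega
      simp only [hc, if_true]
      rw [lintegral_const, measure_univ, mul_one]
      refine add_le_add (h1.trans (ENNReal.ofReal_le_ofReal ?_)) le_rfl
      have : 0 ≤ w * lam ^ i := by positivity
      linarith
    · rw [if_neg hiN, add_zero]
      have hc : ¬ y ≤ 2 * (L : ℝ) ^ (i + 1) * (y - x) := by
        apply not_le.2
        apply hlt
        omega
      simp only [hc, if_false]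
      rw [lintegral_indicator_const (hmeasS (i + 1))]
      have h2 := sepc hSep q L (i + 1) x y hp hx hxy h8 1 (by norm_num)
      rw [one_mul] at h2
      refine (add_le_add h1 h2).trans ?_
      rw [← ENNReal.ofReal_add (by positivity) (by positivity)]
      apply ENNReal.ofReal_le_ofReal
      have h3 : lam ^ (i + 1) ≤ 4 * lam ^ i := by
        rw [pow_succ]
        nlinarith [show 0 < lam ^ i by positivity]
      have h4 : w * lam ^ (i + 1) ≤ 4 * (w * lam ^ i) := by
        calc w * lam ^ (i + 1) ≤ w * (4 * lam ^ i) := by gcongr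
          _ = 4 * (w * lam ^ i) := by ring
      have e1 : (y - x) * y ^ (q - 1) * ((L : ℝ) ^ (1 - q)) ^ i = w * lam ^ i := rfl
      have e2 : (y - x) * y ^ (q - 1) * ((L : ℝ) ^ (1 - q)) ^ (i + 1) = w * lam ^ (i + 1) := rfl
      rw [e1, e2]
      have h5 : 0 < w * lam ^ i := by positivity
      linarith
  calc ∫⁻ τ, (∑' i : ℕ, if y ≤ 2 * (L : ℝ) ^ i * (y - x) then 0 else lev q L i τ x y) ∂unif
      ≤ ∫⁻ τ, ∑' i : ℕ, B i τ ∂unif := lintegral_mono fun τ => ENNReal.tsum_le_tsum (hle τ)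
    _ = ∑' i : ℕ, ∫⁻ τ, B i τ ∂unif := lintegral_tsum fun i => (hBm i).aemeasurable
    _ = ∑ i ∈ Finset.range i0, ∫⁻ τ, B i τ ∂unif := by
        apply tsum_eq_sum
        intro i hi
        have : ¬ i < i0 := fun h => hi (Finset.mem_range.2 h)
        rw [hB]
        simp only [this, if_false, lintegral_zero]
    _ ≤ ∑ i ∈ Finset.range i0, (ENNReal.ofReal (34 * (w * lam ^ i)) +
          (if i = N then ENNReal.ofReal (6 * (y - x) ^ q) else 0)) :=
        Finset.sum_le_sum fun i hi => hint i (Finset.mem_range.1 hi)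
    _ = ENNReal.ofReal (∑ i ∈ Finset.range i0, 34 * (w * lam ^ i)) + ENNReal.ofReal (6 * (y - x) ^ q) := by
        rw [Finset.sum_add_distrib, ENNReal.ofReal_sum_of_nonneg (fun i _ => by positivity)]
        congr 1
        rw [Finset.sum_ite_eq', if_pos (Finset.mem_range.2 (by omega))]
    _ ≤ ENNReal.ofReal (68 * (y - x) ^ q) + ENNReal.ofReal (6 * (y - x) ^ q) := by
        gcongr
        have h1 : ∑ i ∈ Finset.range i0, 34 * (w * lam ^ i) =
            34 * w * ∑ i ∈ Finset.range i0, lam ^ i := by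
          rw [Finset.mul_sum]
          apply Finset.sum_congr rfl
          intro i _
          ring
        rw [h1, hN]
        have h2 := geo lam hl1 N
        have h3 : lam ^ N ≤ (y / (y - x)) ^ (1 - q) := by
          have h4 : lam ^ N = ((L : ℝ) ^ N) ^ (1 - q) := by
            rw [hlam, ← Real.rpow_natCast, ← Real.rpow_mul hL0.le, mul_comm, Real.rpow_mul hL0.le,
              Real.rpow_natCast]
          rw [h4]
          apply Real.rpow_le_rpow (by positivity) _ (by linarith [hp.q2])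
          rw [le_div_iff₀ hD]
          have := hlt N (by omega)
          have h5 : 0 < (L : ℝ) ^ N * (y - x) := by positivity
          linarith
        have h6 : w * (y / (y - x)) ^ (1 - q) = (y - x) ^ q := by
          rw [hw, Real.div_rpow hy.le hD.le, Real.rpow_sub hy q 1, Real.rpow_sub hy 1 q,
            Real.rpow_sub hD 1 q, Real.rpow_one, Real.rpow_one]
          have : 0 < y ^ q := by positivity
          have : 0 < (y - x) ^ q := by positivity
          field_simp
        calc 34 * w * ∑ i ∈ Finset.range N.succ, lam ^ i ≤ 34 * w * (2 * lam ^ N) := by gcongr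
          _ ≤ 34 * w * (2 * (y / (y - x)) ^ (1 - q)) := by gcongr
          _ = 68 * (w * (y / (y - x)) ^ (1 - q)) := by ring
          _ = 68 * (y - x) ^ q := by rw [h6]
    _ ≤ 10000 * ENNReal.ofReal (|x - y| ^ q) := by
        rw [abs_sub_comm, abs_of_pos hD, ← ENNReal.ofReal_add (by positivity) (by positivity)]
        have h3 : (10000 : ℝ≥0∞) = ENNReal.ofReal 10000 := by simp
        rw [h3, ← ENNReal.ofReal_mul (by norm_num)]
        apply ENNReal.ofReal_le_ofReal
        have : 0 < (y - x) ^ q := by positivity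
        linarith

end Pool.Agent.Q295.PCR.FbTauHigh
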