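import Pool.Agent.Q295.PCR.Stmts

set_option autoImplicit false

namespace Pool.Agent.Q295.PCR.TaskIooP

open MeasureTheory Set Filter ProbabilityTheory Topology Pool.Agent.Q295.PCR

theorem main : Pool.Agent.Q295.PCR.TaskIoo := by
  unfold TaskIoo
  rw [ae_all_iff]
  intro n
  have h1 : MeasurePreserving (fun u : ℕ → ℝ => u n) UU unif := by
    unfold UU
    exact measurePreserving_eval_infinitePi (fun _ : ℕ => unif) n
  have h2 : ∀ᵐ x ∂unif, x ∈ Ioo (0:ℝ) 1 := by
    unfold unif
    rw [← Measure.restrict_congr_set Ioo_ae_eq_Icc]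
    exact ae_restrict_mem measurableSet_Ioo
  exact h1.quasiMeasurePreserving.ae h2

end Pool.Agent.Q295.PCR.TaskIooP
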