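import Pool.Agent.Q295.PCR.Stmts

set_option autoImplicit false

namespace Pool.Agent.Q295.PCR.TaskParP

theorem main : Pool.Agent.Q295.PCR.TaskPar := by
  intro q hq hq1
  have h0 : 0 < 1 - q := by linarith
  have hinv : (2 : ℝ) ≤ 1 / (1 - q) := by
    rw [le_div_iff₀ h0]; linarith
  set x : ℝ := (2 : ℝ) ^ (1 / (1 - q)) with hx
  have hx4 : 4 ≤ x := by
    have : (2 : ℝ) ^ (2 : ℝ) ≤ (2 : ℝ) ^ (1 / (1 - q)) :=
      Real.rpow_le_rpow_of_exponent_le (by norm_num) hinv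
    have h2 : (2 : ℝ) ^ (2 : ℝ) = 4 := by
      rw [show (2 : ℝ) = ((2 : ℕ) : ℝ) by norm_num, Real.rpow_natCast]; norm_num
    rw [hx]; linarith
  have hxp : x ^ (1 - q) = 2 := by
    rw [hx, ← Real.rpow_mul (by norm_num), one_div, inv_mul_cancel₀ h0.ne', Real.rpow_one]
  have hL : x ≤ (⌈x⌉₊ : ℝ) := Nat.le_ceil x
  have hL2 : (⌈x⌉₊ : ℝ) ≤ 2 * x := by
    have := Nat.ceil_lt_add_one (a := x) (by linarith)
    linarith
  refine ⟨⌈x⌉₊, hq, hq1, ?_, ?_, ?_⟩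
  · calc (2 : ℝ) = x ^ (1 - q) := hxp.symm
      _ ≤ _ := Real.rpow_le_rpow (by linarith) hL h0.le
  · calc ((⌈x⌉₊ : ℝ)) ^ (1 - q) ≤ (2 * x) ^ (1 - q) :=
          Real.rpow_le_rpow (by positivity) hL2 h0.le
      _ = 2 ^ (1 - q) * x ^ (1 - q) := Real.mul_rpow (by norm_num) (by linarith)
      _ = 2 ^ (1 - q) * 2 := by rw [hxp]
      _ ≤ 2 ^ (1 : ℝ) * 2 := by
          have : (2 : ℝ) ^ (1 - q) ≤ 2 ^ (1 : ℝ) :=
            Real.rpow_le_rpow_of_exponent_le (by norm_num) (by linarith)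
          linarith
      _ = 4 := by norm_num
  · have : (4 : ℝ) ≤ (⌈x⌉₊ : ℝ) := hx4.trans hL
    exact_mod_cast this

end Pool.Agent.Q295.PCR.TaskParP
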