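import Pool.Agent.Q295.PCR.Stmts

set_option autoImplicit false

namespace Pool.Agent.Q295.PCR.TaskTauFarP
open Pool.Agent.Q295.PCR
open MeasureTheory Set Filter ProbabilityTheory Topology
open scoped ENNReal

lemma bound {q : ℝ} {L : ℕ} (hp : Par q L) {a b : ℝ} (i : ℕ) (ha : 0 ≤ a) (hb : 0 ≤ b)
    (h : a ≤ b / (L : ℝ) ^ i) : a ^ q ≤ b ^ q * (1 / 2) ^ i := by
  have hq : 0 < q := by linarith [hp.q1]
  have hL : (4 : ℝ) ≤ L := by exact_mod_cast hp.l3
  have h2 : (2 : ℝ) ≤ (L : ℝ) ^ q := by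
    calc (2 : ℝ) = (4 : ℝ) ^ (1 / 2 : ℝ) := by
          rw [← Real.sqrt_eq_rpow]
          rw [show (4 : ℝ) = 2 ^ 2 by norm_num, Real.sqrt_sq (by norm_num)]
      _ ≤ (4 : ℝ) ^ q := Real.rpow_le_rpow_of_exponent_le (by norm_num) hp.q1
      _ ≤ (L : ℝ) ^ q := Real.rpow_le_rpow (by norm_num) hL hq.le
  calc a ^ q ≤ (b / (L : ℝ) ^ i) ^ q := Real.rpow_le_rpow ha h hq.le
    _ = b ^ q / ((L : ℝ) ^ q) ^ i := by
        rw [Real.div_rpow hb (by positivity), ← Real.rpow_natCast, ← Real.rpow_natCast, ← Real.rpow_mul (by positivity),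
          ← Real.rpow_mul (by positivity), mul_comm]
    _ ≤ b ^ q / 2 ^ i := by
        apply div_le_div_of_nonneg_left (by positivity) (by positivity)
        exact pow_le_pow_left₀ (by norm_num) h2 i
    _ = b ^ q * (1 / 2) ^ i := by
        rw [one_div, inv_pow]; rfl

theorem main (h1 : TaskSize) (h2 : TaskMono) : Pool.Agent.Q295.PCR.TaskTauFar := by
  classical
  intro q L τ x y hp hyx hxy
  have hq : 0 < q := by linarith [hp.q1]
  have hL : (4 : ℝ) ≤ L := by exact_mod_cast hp.l3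
  have hL1 : 1 ≤ L := by have := hp.l3; omega
  have hlev : ∀ i, lev q L i τ x y ≤ 16 * ENNReal.ofReal (|x| ^ q) * (2⁻¹ : ℝ≥0∞) ^ i := by
    intro i
    obtain ⟨-, hs2, hs3⟩ := h1 L i τ hL1
    have hmx : (ms L i τ x) ^ q ≤ |x| ^ q * (1 / 2) ^ i :=
      bound hp i (hs3 x).1 (abs_nonneg x) (hs3 x).2.1
    have hmy : (ms L i τ y) ^ q ≤ |x| ^ q * (1 / 2) ^ i :=
      bound hp i (hs3 y).1 (abs_nonneg x) ((hs3 y).2.1.trans (div_le_div_of_nonneg_right hyx (by positivity)))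
    have hR : (16 : ℝ≥0∞) * ENNReal.ofReal (|x| ^ q) * (2⁻¹ : ℝ≥0∞) ^ i =
        ENNReal.ofReal (16 * (|x| ^ q * (1 / 2) ^ i)) := by
      rw [ENNReal.ofReal_mul (by norm_num), ENNReal.ofReal_mul (by positivity), ENNReal.ofReal_pow (by norm_num)]
      rw [← mul_assoc]
      congr 2
      · norm_num
      · rw [one_div, ENNReal.ofReal_inv_of_pos (by norm_num)]; norm_num
    rw [hR]
    unfold lev
    split_ifs with hS
    · obtain ⟨g, -, hg1, hg2⟩ := h2 q L i τ x hp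
      have hxc : x ∈ cell L i τ x := by
        refine ⟨rfl, fun _ => ⟨rfl, rfl⟩⟩
      have hyc : y ∈ cell L i τ x := hS
      rw [← hg1 x hxc, ← hg1 y hyc]
      refine ENNReal.ofReal_le_ofReal ((hg2 x hxc y hyc).trans ?_)
      have : 0 ≤ |x| ^ q * (1 / 2) ^ i := by positivity
      linarith
    · have : (8 : ℝ≥0∞) * ENNReal.ofReal ((ms L i τ x) ^ q + (ms L i τ y) ^ q) =
          ENNReal.ofReal (8 * ((ms L i τ x) ^ q + (ms L i τ y) ^ q)) := by
        rw [ENNReal.ofReal_mul (by norm_num)]; norm_num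
      rw [this]
      refine ENNReal.ofReal_le_ofReal ?_
      linarith
  calc ∑' i, lev q L i τ x y ≤ ∑' i, 16 * ENNReal.ofReal (|x| ^ q) * (2⁻¹ : ℝ≥0∞) ^ i :=
        ENNReal.tsum_le_tsum hlev
    _ = 16 * ENNReal.ofReal (|x| ^ q) * 2 := by
        rw [ENNReal.tsum_mul_left, ENNReal.tsum_geometric, ENNReal.one_sub_inv_two, inv_inv]
    _ = 32 * ENNReal.ofReal (|x| ^ q) := by ring
    _ ≤ 32 * ENNReal.ofReal (8 * |x - y| ^ q) := by
        gcongr
        calc |x| ^ q ≤ (8 * |x - y|) ^ q := Real.rpow_le_rpow (abs_nonneg _) hxy hq.le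
          _ = 8 ^ q * |x - y| ^ q := Real.mul_rpow (by norm_num) (abs_nonneg _)
          _ ≤ 8 * |x - y| ^ q := by
              gcongr
              calc (8 : ℝ) ^ q ≤ 8 ^ (1 : ℝ) := Real.rpow_le_rpow_of_exponent_le (by norm_num) hp.q2.le
                _ = 8 := Real.rpow_one 8
    _ = 256 * ENNReal.ofReal (|x - y| ^ q) := by
        rw [ENNReal.ofReal_mul (by norm_num), ← mul_assoc]
        congr 1
        norm_num
    _ ≤ 10000 * ENNReal.ofReal (|x - y| ^ q) := by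
        gcongr
        norm_num

end Pool.Agent.Q295.PCR.TaskTauFarP
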